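import Pool.Agent.EG11.Coh

/-! The group action. -/

namespace Pool.Agent.EG11

theorem finite_quot {α F : Type} [Finite F] (s : Setoid α) (f : α → F)
    (h : ∀ a b, f a = f b → s.r a b) : Finite (Quotient s) := by
  refine Finite.of_injective (fun q : Quotient s => f q.out) (fun q q' hq => ?_)
  have := h _ _ hq
  rw [← Quotient.out_eq q, ← Quotient.out_eq q']
  exact Quotient.sound this

namespace Setup

variable {P E T W : Type} [Group W] (S : Setup P E T W)

/-- all the data are invariant under left multiplication by `G` -/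
structure Compat (G : Subgroup W) : Prop where
  c0 : ∀ g ∈ G, ∀ w, S.c0 (g * w) = S.c0 w
  c2 : ∀ g ∈ G, ∀ w, S.c2 (g * w) = S.c2 w
  ev : ∀ g ∈ G, ∀ w, S.Φ.ev (g * w) = S.Φ.ev w
  root : ∀ g ∈ G, ∀ τ w, S.Φ.root τ (g * w) ↔ S.Φ.root τ w
  par : ∀ g ∈ G, ∀ τ w, S.Φ.par τ (g * w) = S.Φ.par τ w
  bw : ∀ g ∈ G, ∀ e w, S.Φ.bw e (g * w) = S.Φ.bw e w

variable {S} {G : Subgroup W} (C : S.Compat G)

include C in
theorem Compat.r0 (g : G) (p : P) (w : W) : S.r0 p ((g : W) * w) = g * S.r0 p w := by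
  unfold Setup.r0
  rw [C.c0 g g.2]
  split_ifs
  · rfl
  · rw [mul_assoc]

include C in
theorem Compat.r2 (g : G) (τ : T) (w : W) : S.r2 τ ((g : W) * w) = g * S.r2 τ w := by
  unfold Setup.r2
  rw [C.c2 g g.2]
  split_ifs
  · rfl
  · rw [mul_assoc]

include C in
theorem Compat.rM (g : G) (p : P) (τ : T) (w : W) :
    S.rM p τ ((g : W) * w) = g * S.rM p τ w := by
  unfold Setup.rM
  rw [C.r0, C.r2]

include C in
theorem Compat.forest (g : G) (e : E) (τ : T) (w : W) :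
    S.Φ.forest e τ ((g : W) * w) ↔ S.Φ.forest e τ w := by
  unfold Frs.forest
  rw [mul_assoc, C.root g g.2, C.root g g.2, C.par g g.2, C.par g g.2]

/-- action on vertices -/
abbrev Compat.actV (C : S.Compat G) : MulAction G (VC S) where
  smul g v := match v with
    | VC.b w => VC.b (g * w)
    | VC.p p w h => VC.p p (g * w) (by rw [C.c0 g g.2, h])
    | VC.t τ w h => VC.t τ (g * w) (by rw [C.c2 g g.2, h])
    | VC.m p τ hi w h h' => VC.m p τ hi (g * w) (by rw [C.c0 g g.2, h]) (by rw [C.c2 g g.2, h'])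
  one_smul v := by
    cases v with
    | b w => exact congrArg VC.b (one_mul w)
    | p p w h => exact VC.p_eq (one_mul w)
    | t τ w h => exact VC.t_eq (one_mul w)
    | m p τ hi w h h' => exact VC.m_eq (one_mul w)
  mul_smul g g' v := by
    cases v with
    | b w => exact congrArg VC.b (mul_assoc _ _ _)
    | p p w h => exact VC.p_eq (mul_assoc _ _ _)
    | t τ w h => exact VC.t_eq (mul_assoc _ _ _)
    | m p τ hi w h h' => exact VC.m_eq (mul_assoc _ _ _)

/-- action on edges -/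
abbrev Compat.actE (C : S.Compat G) : MulAction G (EC S) where
  smul g v := match v with
    | EC.bp p w => EC.bp p (g * w)
    | EC.pm p τ hi w h => EC.pm p τ hi (g * w) (by rw [C.c0 g g.2, h])
    | EC.tm p τ hi w h => EC.tm p τ hi (g * w) (by rw [C.c2 g g.2, h])
    | EC.pe p e hi w h hv =>
        EC.pe p e hi (g * w) (by rw [C.c0 g g.2, h]) (by rw [C.ev g g.2, hv])
    | EC.te τ e hi w h hv =>
        EC.te τ e hi (g * w) (by rw [C.c2 g g.2, h]) (by rw [C.ev g g.2, hv])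
    | EC.me p e τ hi hi' w h h' hv => EC.me p e τ hi hi' (g * w) (by rw [C.c0 g g.2, h])
        (by rw [C.c2 g g.2, h']) (by rw [C.ev g g.2, hv])
    | EC.d w => EC.d (g * w)
  one_smul v := by
    cases v with
    | bp p w => exact congrArg (EC.bp p) (one_mul w)
    | pm p τ hi w h => exact EC.pm_eq (one_mul w)
    | tm p τ hi w h => exact EC.tm_eq (one_mul w)
    | pe p e hi w h hv => exact EC.pe_eq (one_mul w)
    | te τ e hi w h hv => exact EC.te_eq (one_mul w)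
    | me p e τ hi hi' w h h' hv => exact EC.me_eq (one_mul w)
    | d w => exact congrArg EC.d (one_mul w)
  mul_smul g g' v := by
    cases v with
    | bp p w => exact congrArg (EC.bp p) (mul_assoc _ _ _)
    | pm p τ hi w h => exact EC.pm_eq (mul_assoc _ _ _)
    | tm p τ hi w h => exact EC.tm_eq (mul_assoc _ _ _)
    | pe p e hi w h hv => exact EC.pe_eq (mul_assoc _ _ _)
    | te τ e hi w h hv => exact EC.te_eq (mul_assoc _ _ _)
    | me p e τ hi hi' w h h' hv => exact EC.me_eq (mul_assoc _ _ _)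
    | d w => exact congrArg EC.d (mul_assoc _ _ _)

theorem FC.s1_eq {p : P} {e : E} {τ : T} {h k : S.X.pe p e} {h' k' : S.X.et e τ} {w w' : W}
    {c : S.c0 w = false} {c' : S.c0 w' = false} {v : S.Φ.ev w = true} {v' : S.Φ.ev w' = true}
    (q : w = w') : (FC.s1 p e τ h h' w c v : FC S) = FC.s1 p e τ k k' w' c' v' := by
  subst q; rfl

theorem FC.s2_eq {p : P} {e : E} {τ : T} {h k : S.X.pe p e} {h' k' : S.X.et e τ} {w w' : W}
    {c : S.c2 w = false} {c' : S.c2 w' = false} {v : S.Φ.ev w = true} {v' : S.Φ.ev w' = true}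
    (q : w = w') : (FC.s2 p e τ h h' w c v : FC S) = FC.s2 p e τ k k' w' c' v' := by
  subst q; rfl

theorem FC.k1_eq {e : E} {w w' : W} {v : S.Φ.ev w = true} {v' : S.Φ.ev w' = true}
    (q : w = w') : (FC.k1 e w v : FC S) = FC.k1 e w' v' := by
  subst q; rfl

theorem FC.k2_eq {e : E} {τ : T} {h k : S.X.et e τ} {w w' : W} {v : S.Φ.ev w = false}
    {v' : S.Φ.ev w' = false} {f : ¬ S.Φ.forest e τ w} {f' : ¬ S.Φ.forest e τ w'}
    (q : w = w') : (FC.k2 e τ h w v f : FC S) = FC.k2 e τ k w' v' f' := by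
  subst q; rfl

theorem FC.k3_eq {w w' : W} {v : ∀ τ, ¬ S.Φ.root τ w} {v' : ∀ τ, ¬ S.Φ.root τ w'}
    (q : w = w') : (FC.k3 w v : FC S) = FC.k3 w' v' := by
  subst q; rfl

/-- action on faces -/
abbrev Compat.actF (C : S.Compat G) : MulAction G (FC S) where
  smul g v := match v with
    | FC.s1 p e τ hi hi' w h hv => FC.s1 p e τ hi hi' (g * w) (by rw [C.c0 g g.2, h])
        (by rw [C.ev g g.2, hv])
    | FC.s2 p e τ hi hi' w h hv => FC.s2 p e τ hi hi' (g * w) (by rw [C.c2 g g.2, h])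
        (by rw [C.ev g g.2, hv])
    | FC.k1 e w hv => FC.k1 e (g * w) (by rw [C.ev g g.2, hv])
    | FC.k2 e τ hi w hv hf => FC.k2 e τ hi (g * w) (by rw [C.ev g g.2, hv])
        (by rw [C.forest g]; exact hf)
    | FC.k3 w hr => FC.k3 (g * w) (by intro τ; rw [C.root g g.2]; exact hr τ)
  one_smul v := by
    cases v with
    | s1 p e τ hi hi' w h hv => exact FC.s1_eq (one_mul w)
    | s2 p e τ hi hi' w h hv => exact FC.s2_eq (one_mul w)
    | k1 e w hv => exact FC.k1_eq (one_mul w)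
    | k2 e τ hi w hv hf => exact FC.k2_eq (one_mul w)
    | k3 w hr => exact FC.k3_eq (one_mul w)
  mul_smul g g' v := by
    cases v with
    | s1 p e τ hi hi' w h hv => exact FC.s1_eq (mul_assoc _ _ _)
    | s2 p e τ hi hi' w h hv => exact FC.s2_eq (mul_assoc _ _ _)
    | k1 e w hv => exact FC.k1_eq (mul_assoc _ _ _)
    | k2 e τ hi w hv hf => exact FC.k2_eq (mul_assoc _ _ _)
    | k3 w hr => exact FC.k3_eq (mul_assoc _ _ _)

theorem Compat.freeV (C : S.Compat G) (g : G) (v : VC S)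
    (h : (C.actV.smul g v) = v) : g = 1 := by
  cases v with
  | b w =>
    have : (g : W) * w = w := by injection h
    exact Subtype.ext (by simpa using this)
  | p p w hw =>
    have : (g : W) * w = w := by injection h
    exact Subtype.ext (by simpa using this)
  | t p w hw =>
    have : (g : W) * w = w := by injection h
    exact Subtype.ext (by simpa using this)
  | m p τ hi w hw hw' =>
    have : (g : W) * w = w := by injection h
    exact Subtype.ext (by simpa using this)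

theorem Compat.src (C : S.Compat G) (g : G) (e : EC S) :
    S.src (C.actE.smul g e) = C.actV.smul g (S.src e) := by
  cases e <;> rfl

theorem Compat.tgt (C : S.Compat G) (g : G) (e : EC S) :
    S.tgt (C.actE.smul g e) = C.actV.smul g (S.tgt e) := by
  cases e with
  | bp p w => exact VC.p_eq (C.r0 g p w)
  | pm p τ hi w h => exact VC.m_eq (C.rM g p τ w)
  | tm p τ hi w h => exact VC.m_eq (C.rM g p τ w)
  | pe p e hi w h hv => exact VC.p_eq (mul_assoc _ _ _)
  | te τ e hi w h hv => exact VC.t_eq (mul_assoc _ _ _)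
  | me p e τ hi hi' w h h' hv => exact VC.m_eq (mul_assoc _ _ _)
  | d w => rfl

theorem Compat.base (C : S.Compat G) (g : G) (f : FC S) :
    S.base (C.actF.smul g f) = C.actV.smul g (S.base f) := by
  cases f <;> rfl

theorem Compat.bd (C : S.Compat G) (g : G) (f : FC S) :
    S.bd (C.actF.smul g f) = (S.bd f).map (fun a => (C.actE.smul g a.1, a.2)) := by
  have q1 : ∀ (p : P) (τ : T) (hi : S.X.pt p τ) (w : W),
      (ePM p τ hi (g * w) : EC S) = C.actE.smul g (ePM p τ hi w) :=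
    fun p τ hi w => EC.pm_eq (C.r0 g p w)
  have q2 : ∀ (p : P) (τ : T) (hi : S.X.pt p τ) (w : W),
      (eTM p τ hi (g * w) : EC S) = C.actE.smul g (eTM p τ hi w) :=
    fun p τ hi w => EC.tm_eq (C.r2 g τ w)
  have q3 : ∀ (p : P) (e : E) (hi : S.X.pe p e) (w : W) (hv : S.Φ.ev w = true),
      (ePE p e hi (g * w) (by rw [C.ev g g.2, hv]) : EC S) = C.actE.smul g (ePE p e hi w hv) :=
    fun p e hi w hv => EC.pe_eq (C.r0 g p w)
  have q5 : ∀ (p : P) (e : E) (τ : T) (hi : S.X.pe p e) (hi' : S.X.et e τ) (w : W)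
      (hv : S.Φ.ev w = true), (eME p e τ hi hi' (g * w) (by rw [C.ev g g.2, hv]) : EC S)
      = C.actE.smul g (eME p e τ hi hi' w hv) :=
    fun p e τ hi hi' w hv => EC.me_eq (C.rM g p τ w)
  cases f with
  | s1 p e τ hi hi' w h hv =>
    show [_, _, _, _] = [_, _, _, _]
    have a1 := q5 p e τ hi hi' w hv
    have a2 : (EC.pm p τ (S.X.pt_of hi hi') (g * w * ge S.gen e)
        (by rw [S.c0e, C.c0 g g.2, h]) : EC S) = EC.pm p τ (S.X.pt_of hi hi')
        (g * (w * ge S.gen e)) (by rw [C.c0 g g.2, S.c0e, h]) := EC.pm_eq (mul_assoc _ _ _)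
    rw [a1, a2]; rfl
  | s2 p e τ hi hi' w h hv =>
    show [_, _, _, _] = [_, _, _, _]
    have a1 := q5 p e τ hi hi' w hv
    have a2 : (EC.tm p τ (S.X.pt_of hi hi') (g * w * ge S.gen e)
        (by rw [S.c2e, C.c2 g g.2, h]) : EC S) = EC.tm p τ (S.X.pt_of hi hi')
        (g * (w * ge S.gen e)) (by rw [C.c2 g g.2, S.c2e, h]) := EC.tm_eq (mul_assoc _ _ _)
    rw [a1, a2]; rfl
  | k1 e w hv =>
    show [_, _, _, _, _, _] ++ List.replicate (S.Φ.bw e (g * w)).natAbs
      (EC.d (g * w), decide (S.Φ.bw e (g * w) < 0)) = List.map _ ([_, _, _, _, _, _] ++ _)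
    rw [List.map_append, List.map_replicate, q3 _ _ _ _ hv, q3 _ _ _ _ hv, C.bw g g.2]
    have a1 : ∀ p, (EC.bp p (g * w * ge S.gen e) : EC S) = EC.bp p (g * (w * ge S.gen e)) :=
      fun p => by rw [mul_assoc]
    rw [a1, a1]
    rfl
  | k2 e τ hi w hv hf =>
    show [_, _, _, _, _, _] = [_, _, _, _, _, _]
    rw [q1, q1, q2, q2]
    rfl
  | k3 w hr => rfl

open Classical in
theorem classifying (S : Setup P E T W) [Finite P] [Finite E] [Finite T] {Q : Type} [Group Q]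
    [Finite Q] (θ : W →* Q) (C : S.Compat θ.ker) : HasFiniteTwoDimClassifyingSpace θ.ker := by
  have key : ∀ w w' : W, θ w = θ w' → ∃ g : θ.ker, (g : W) * w' = w := by
    intro w w' h
    refine ⟨⟨w * w'⁻¹, ?_⟩, by simp⟩
    rw [MonoidHom.mem_ker, map_mul, map_inv, h, mul_inv_cancel]
  refine ⟨S.cplx, C.actV, C.actE, C.actF, S.contractible,
    ⟨C.src, C.tgt, C.base, C.bd, fun g v => C.freeV g v⟩, ?_, ?_, ?_⟩
  · let _ := C.actV
    refine finite_quot (F := Q ⊕ (P × Q) ⊕ (T × Q) ⊕ (P × T × Q)) _ (fun v : VC S => match v with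
      | VC.b w => Sum.inl (θ w)
      | VC.p p w _ => Sum.inr (Sum.inl (p, θ w))
      | VC.t τ w _ => Sum.inr (Sum.inr (Sum.inl (τ, θ w)))
      | VC.m p τ _ w _ _ => Sum.inr (Sum.inr (Sum.inr (p, τ, θ w)))) ?_
    intro v v' h
    cases v <;> cases v' <;> simp only [Sum.inl.injEq, Sum.inr.injEq, reduceCtorEq,
      Prod.mk.injEq] at h
    · obtain ⟨g, hg⟩ := key _ _ h
      exact ⟨g, congrArg VC.b hg⟩
    · obtain ⟨rfl, h⟩ := h
      obtain ⟨g, hg⟩ := key _ _ h
      exact ⟨g, VC.p_eq hg⟩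
    · obtain ⟨rfl, h⟩ := h
      obtain ⟨g, hg⟩ := key _ _ h
      exact ⟨g, VC.t_eq hg⟩
    · obtain ⟨rfl, rfl, h⟩ := h
      obtain ⟨g, hg⟩ := key _ _ h
      exact ⟨g, VC.m_eq hg⟩
  · let _ := C.actE
    refine finite_quot (F := (P × Q) ⊕ (P × T × Q) ⊕ (P × T × Q) ⊕ (P × E × Q) ⊕ (T × E × Q) ⊕
      (P × E × T × Q) ⊕ Q) _ (fun v : EC S => match v with
      | EC.bp p w => Sum.inl (p, θ w)
      | EC.pm p τ _ w _ => Sum.inr (Sum.inl (p, τ, θ w))
      | EC.tm p τ _ w _ => Sum.inr (Sum.inr (Sum.inl (p, τ, θ w)))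
      | EC.pe p e _ w _ _ => Sum.inr (Sum.inr (Sum.inr (Sum.inl (p, e, θ w))))
      | EC.te τ e _ w _ _ => Sum.inr (Sum.inr (Sum.inr (Sum.inr (Sum.inl (τ, e, θ w)))))
      | EC.me p e τ _ _ w _ _ _ =>
        Sum.inr (Sum.inr (Sum.inr (Sum.inr (Sum.inr (Sum.inl (p, e, τ, θ w))))))
      | EC.d w => Sum.inr (Sum.inr (Sum.inr (Sum.inr (Sum.inr (Sum.inr (θ w))))))) ?_
    intro v v' h
    cases v <;> cases v' <;> simp only [Sum.inl.injEq, Sum.inr.injEq, reduceCtorEq,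
      Prod.mk.injEq] at h
    · obtain ⟨rfl, h⟩ := h
      obtain ⟨g, hg⟩ := key _ _ h
      exact ⟨g, congrArg (EC.bp _) hg⟩
    · obtain ⟨rfl, rfl, h⟩ := h
      obtain ⟨g, hg⟩ := key _ _ h
      exact ⟨g, EC.pm_eq hg⟩
    · obtain ⟨rfl, rfl, h⟩ := h
      obtain ⟨g, hg⟩ := key _ _ h
      exact ⟨g, EC.tm_eq hg⟩
    · obtain ⟨rfl, rfl, h⟩ := h
      obtain ⟨g, hg⟩ := key _ _ h
      exact ⟨g, EC.pe_eq hg⟩
    · obtain ⟨rfl, rfl, h⟩ := h
      obtain ⟨g, hg⟩ := key _ _ h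
      exact ⟨g, EC.te_eq hg⟩
    · obtain ⟨rfl, rfl, rfl, h⟩ := h
      obtain ⟨g, hg⟩ := key _ _ h
      exact ⟨g, EC.me_eq hg⟩
    · obtain ⟨g, hg⟩ := key _ _ h
      exact ⟨g, congrArg EC.d hg⟩
  · let _ := C.actF
    refine finite_quot (F := (P × E × T × Q) ⊕ (P × E × T × Q) ⊕ (E × Q) ⊕ (E × T × Q) ⊕ Q) _
      (fun v : FC S => match v with
      | FC.s1 p e τ _ _ w _ _ => Sum.inl (p, e, τ, θ w)
      | FC.s2 p e τ _ _ w _ _ => Sum.inr (Sum.inl (p, e, τ, θ w))
      | FC.k1 e w _ => Sum.inr (Sum.inr (Sum.inl (e, θ w)))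
      | FC.k2 e τ _ w _ _ => Sum.inr (Sum.inr (Sum.inr (Sum.inl (e, τ, θ w))))
      | FC.k3 w _ => Sum.inr (Sum.inr (Sum.inr (Sum.inr (θ w))))) ?_
    intro v v' h
    cases v <;> cases v' <;> simp only [Sum.inl.injEq, Sum.inr.injEq, reduceCtorEq,
      Prod.mk.injEq] at h
    · obtain ⟨rfl, rfl, rfl, h⟩ := h
      obtain ⟨g, hg⟩ := key _ _ h
      exact ⟨g, FC.s1_eq hg⟩
    · obtain ⟨rfl, rfl, rfl, h⟩ := h
      obtain ⟨g, hg⟩ := key _ _ h
      exact ⟨g, FC.s2_eq hg⟩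
    · obtain ⟨rfl, h⟩ := h
      obtain ⟨g, hg⟩ := key _ _ h
      exact ⟨g, FC.k1_eq hg⟩
    · obtain ⟨rfl, rfl, h⟩ := h
      obtain ⟨g, hg⟩ := key _ _ h
      exact ⟨g, FC.k2_eq hg⟩
    · obtain ⟨g, hg⟩ := key _ _ h
      exact ⟨g, FC.k3_eq hg⟩

end Setup

end Pool.Agent.EG11
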