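import Pool.Agent.EG11.Defs

/-! Criteria for simple connectivity and for the vanishing of `H₂` in terms of labellings. -/

namespace Pool.Agent.EG11

section Paths

variable {V E : Type} {src tgt : E → V}

theorem IsPath.append {u v w : V} {l l' : List (E × Bool)} (h : IsPath src tgt u l v)
    (h' : IsPath src tgt v l' w) : IsPath src tgt u (l ++ l') w := by
  induction l generalizing u with
  | nil => cases h; exact h'
  | cons a l ih => exact ⟨h.1, ih h.2⟩

theorem IsPath.of_append {u w : V} {l l' : List (E × Bool)} (h : IsPath src tgt u (l ++ l') w) :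
    ∃ v, IsPath src tgt u l v ∧ IsPath src tgt v l' w := by
  induction l generalizing u with
  | nil => exact ⟨u, rfl, h⟩
  | cons a l ih =>
    obtain ⟨v, h1, h2⟩ := ih h.2
    exact ⟨v, ⟨h.1, h1⟩, h2⟩

theorem IsPath.nil (v : V) : IsPath src tgt v [] v := rfl

theorem IsPath.unique {u v w : V} {l : List (E × Bool)} (h : IsPath src tgt u l v)
    (h' : IsPath src tgt u l w) : v = w := by
  induction l generalizing u with
  | nil => cases h; exact h'
  | cons a l ih => exact ih h.2 h'.2

/-- the reversed path -/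
def rev (l : List (E × Bool)) : List (E × Bool) := (l.map (fun a => (a.1, !a.2))).reverse

theorem IsPath.rev {u v : V} {l : List (E × Bool)} (h : IsPath src tgt u l v) :
    IsPath src tgt v (rev l) u := by
  induction l generalizing u with
  | nil => cases h; exact rfl
  | cons a l ih =>
    have h1 := ih h.2
    have : EG11.rev (a :: l) = EG11.rev l ++ [(a.1, !a.2)] := by simp [EG11.rev]
    rw [this]
    refine h1.append ?_
    obtain ⟨e, b⟩ := a
    have h2 := h.1
    cases b <;> exact ⟨by simp, by simpa [IsPath] using h2⟩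

theorem rev_append (l l' : List (E × Bool)) : rev (l ++ l') = rev l' ++ rev l := by
  simp [rev]

theorem rev_rev (l : List (E × Bool)) : rev (rev l) = l := by
  simp [rev, Function.comp_def]

end Paths

namespace TwoComplex

variable (X : TwoComplex)

/-- value of a labelling on a path -/
def val {A : Type} [Group A] (lam : X.E → A) (l : List (X.E × Bool)) : A :=
  (l.map (fun a => if a.2 then lam a.1 else (lam a.1)⁻¹)).prod

theorem val_append {A : Type} [Group A] (lam : X.E → A) (l l' : List (X.E × Bool)) :
    X.val lam (l ++ l') = X.val lam l * X.val lam l' := by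
  simp [val]

theorem val_cons {A : Type} [Group A] (lam : X.E → A) (a : X.E × Bool) (l : List (X.E × Bool)) :
    X.val lam (a :: l) = (if a.2 then lam a.1 else (lam a.1)⁻¹) * X.val lam l := by
  simp [val]

/-- flat labellings -/
def Flat {A : Type} [Group A] (lam : X.E → A) : Prop := ∀ f, X.val lam (X.bd f) = 1

theorem val_of_potential {A : Type} [Group A] (lam : X.E → A) (pot : X.V → A)
    (h : ∀ e, lam e = (pot (X.src e))⁻¹ * pot (X.tgt e)) {u v : X.V} {l : List (X.E × Bool)}
    (hl : IsPath X.src X.tgt u l v) : X.val lam l = (pot u)⁻¹ * pot v := by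
  induction l generalizing u with
  | nil => cases hl; simp [val]
  | cons a l ih =>
    obtain ⟨e, b⟩ := a
    obtain ⟨h1, h2⟩ := hl
    rw [val_cons, ih h2]
    cases b
    · simp only [Bool.false_eq_true, if_false] at h1 ⊢
      rw [h e, ← h1]; group
    · simp only [if_true] at h1 ⊢
      rw [h e, ← h1]; group

end TwoComplex

namespace TwoComplex

variable (X : TwoComplex)

/-- homotopy of edge paths from `u` to `v` -/
def Hty (u v : X.V) : List (X.E × Bool) → List (X.E × Bool) → Prop :=
  Relation.EqvGen (fun k k' => IsPath X.src X.tgt u k v ∧ IsPath X.src X.tgt u k' v ∧ X.Step k k')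

variable {X}

theorem Step.context {k k' : List (X.E × Bool)} (a b : List (X.E × Bool)) (h : X.Step k k') :
    X.Step (a ++ k ++ b) (a ++ k' ++ b) := by
  cases h with
  | backtrack l l' e c =>
    have := Step.backtrack (X := X) (a ++ l) (l' ++ b) e c
    simpa [List.append_assoc] using this
  | face l l' f =>
    have := Step.face (X := X) (a ++ l) (l' ++ b) f
    simpa [List.append_assoc] using this

theorem Hty.context {t u v w : X.V} {k k' : List (X.E × Bool)} {a b : List (X.E × Bool)}
    (ha : IsPath X.src X.tgt t a u) (hb : IsPath X.src X.tgt v b w) (h : X.Hty u v k k') :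
    X.Hty t w (a ++ k ++ b) (a ++ k' ++ b) := by
  induction h with
  | rel x y h => exact Relation.EqvGen.rel _ _ ⟨(ha.append h.1).append hb,
      (ha.append h.2.1).append hb, h.2.2.context a b⟩
  | refl x => exact Relation.EqvGen.refl _
  | symm x y _ ih => exact ih.symm
  | trans x y z _ _ ih1 ih2 => exact ih1.trans _ _ _ ih2

theorem Hty.left {t u v : X.V} {k k' : List (X.E × Bool)} {a : List (X.E × Bool)}
    (ha : IsPath X.src X.tgt t a u) (h : X.Hty u v k k') :
    X.Hty t v (a ++ k) (a ++ k') := by
  have := h.context (b := []) ha (show IsPath X.src X.tgt v [] v from rfl)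
  simpa using this

theorem Hty.right {u v w : X.V} {k k' : List (X.E × Bool)} {b : List (X.E × Bool)}
    (hb : IsPath X.src X.tgt v b w) (h : X.Hty u v k k') :
    X.Hty u w (k ++ b) (k' ++ b) := by
  have := h.context (a := []) (show IsPath X.src X.tgt u [] u from rfl) hb
  simpa using this

theorem hty_rev {u v : X.V} {l : List (X.E × Bool)} (h : IsPath X.src X.tgt u l v) :
    X.Hty u u (l ++ rev l) [] := by
  induction l generalizing u with
  | nil => exact Relation.EqvGen.refl _
  | cons a l ih =>
    obtain ⟨e, b⟩ := a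
    have hr : rev ((e, b) :: l) = rev l ++ [(e, !b)] := by simp [rev]
    have h1 := ih h.2
    have e1 : (e, b) :: l ++ rev ((e, b) :: l) = [(e, b)] ++ (l ++ rev l) ++ [(e, !b)] := by
      rw [hr]; simp
    rw [e1]
    have p1 : IsPath X.src X.tgt u [(e, b)] (if b then X.tgt e else X.src e) := ⟨h.1, rfl⟩
    have p2 : IsPath X.src X.tgt (if b then X.tgt e else X.src e) [(e, !b)] u := by
      have := h.1
      cases b
      · exact ⟨rfl, by simpa [IsPath] using this⟩
      · exact ⟨rfl, by simpa [IsPath] using this⟩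
    have h2 := h1.context p1 p2
    refine Relation.EqvGen.trans _ _ _ h2 (Relation.EqvGen.rel _ _ ⟨?_, rfl, ?_⟩)
    · exact (p1.append (show IsPath X.src X.tgt _ [] _ from rfl)).append p2
    · exact Step.backtrack (X := X) [] [] e b

theorem hty_rev' {u v : X.V} {l : List (X.E × Bool)} (h : IsPath X.src X.tgt u l v) :
    X.Hty v v (rev l ++ l) [] := by
  have := hty_rev h.rev
  rwa [rev_rev] at this

/-- closed edge paths at `v` -/
abbrev Loops (X : TwoComplex) (v : X.V) : Type := {l : List (X.E × Bool) // IsPath X.src X.tgt v l v}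

/-- homotopy of closed edge paths, as a setoid -/
def loopSetoid (X : TwoComplex) (v : X.V) : Setoid (X.Loops v) where
  r := fun k k' => X.Hty v v k.1 k'.1
  iseqv := ⟨fun _ => Relation.EqvGen.refl _, fun h => h.symm, fun h h' => h.trans _ _ _ h'⟩

/-- the fundamental group -/
def Pi1 (X : TwoComplex) (v : X.V) : Type := Quotient (X.loopSetoid v)

def Pi1.mk {v : X.V} (l : List (X.E × Bool)) (h : IsPath X.src X.tgt v l v) : X.Pi1 v :=
  Quotient.mk (X.loopSetoid v) ⟨l, h⟩

theorem Pi1.mk_eq {v : X.V} {l l' : List (X.E × Bool)} {h : IsPath X.src X.tgt v l v}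
    {h' : IsPath X.src X.tgt v l' v} : Pi1.mk l h = Pi1.mk l' h' ↔ X.Hty v v l l' :=
  Quotient.eq (r := X.loopSetoid v)

def Pi1.mul {v : X.V} : X.Pi1 v → X.Pi1 v → X.Pi1 v :=
  Quotient.map₂ (fun a b => ⟨a.1 ++ b.1, a.2.append b.2⟩) (by
    intro a a' h b b' h'
    exact (Hty.right b.2 h).trans _ _ _ (Hty.left a'.2 h'))

instance (v : X.V) : Monoid (X.Pi1 v) where
  mul := Pi1.mul
  one := Pi1.mk [] (IsPath.nil v)
  mul_assoc := by
    rintro ⟨a⟩ ⟨b⟩ ⟨c⟩
    refine Quotient.sound (s := X.loopSetoid v) ?_
    show X.Hty v v (a.1 ++ b.1 ++ c.1) (a.1 ++ (b.1 ++ c.1))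
    rw [List.append_assoc]
    exact Relation.EqvGen.refl _
  one_mul := by
    rintro ⟨a⟩
    refine Quotient.sound (s := X.loopSetoid v) ?_
    exact Relation.EqvGen.refl _
  mul_one := by
    rintro ⟨a⟩
    refine Quotient.sound (s := X.loopSetoid v) ?_
    show X.Hty v v (a.1 ++ []) a.1
    rw [List.append_nil]
    exact Relation.EqvGen.refl _

theorem Pi1.mk_mul {v : X.V} {l l' : List (X.E × Bool)} (h : IsPath X.src X.tgt v l v)
    (h' : IsPath X.src X.tgt v l' v) : Pi1.mk l h * Pi1.mk l' h' = Pi1.mk (l ++ l') (h.append h') :=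
  rfl

theorem Pi1.one_def {v : X.V} : (1 : X.Pi1 v) = Pi1.mk [] (IsPath.nil v) := rfl

noncomputable instance (v : X.V) : Group (X.Pi1 v) := groupOfIsUnit (by
  rintro ⟨a⟩
  refine ⟨⟨Pi1.mk a.1 a.2, Pi1.mk (rev a.1) a.2.rev, ?_, ?_⟩, rfl⟩
  · exact Pi1.mk_eq.2 (hty_rev a.2)
  · exact Pi1.mk_eq.2 (hty_rev' a.2))

/-- If every flat labelling is a potential then the complex is simply connected. -/
theorem simplyConnected_of_flat (X : TwoComplex) (hc : X.Connected)
    (h : ∀ (A : Type) [Group A] (lam : X.E → A), X.Flat lam →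
      ∃ pot : X.V → A, ∀ e, lam e = (pot (X.src e))⁻¹ * pot (X.tgt e)) :
    X.SimplyConnected := by
  intro v l hl
  choose t ht using fun u => hc.2 v u
  have pe : ∀ (e : X.E), IsPath X.src X.tgt (X.src e) [(e, true)] (X.tgt e) :=
    fun e => ⟨rfl, rfl⟩
  have pe' : ∀ (e : X.E), IsPath X.src X.tgt (X.tgt e) [(e, false)] (X.src e) :=
    fun e => ⟨rfl, rfl⟩
  let lam : X.E → X.Pi1 v := fun e =>
    Pi1.mk (t (X.src e) ++ [(e, true)] ++ rev (t (X.tgt e)))
      (((ht _).append (pe e)).append (ht _).rev)
  have key : ∀ (u w : X.V) (k : List (X.E × Bool)) (hk : IsPath X.src X.tgt u k w),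
      X.val lam k = Pi1.mk (t u ++ k ++ rev (t w)) (((ht _).append hk).append (ht _).rev) := by
    intro u w k
    induction k generalizing u with
    | nil =>
      intro hk
      cases hk
      have : X.val lam [] = 1 := by simp [val]
      rw [this, Pi1.one_def]
      refine Pi1.mk_eq.2 ?_
      have : X.Hty v v [] (t w ++ rev (t w)) := (hty_rev (ht w)).symm
      rw [List.append_nil]
      exact this
    | cons a k ih =>
      obtain ⟨e, b⟩ := a
      rintro ⟨h1, h2⟩
      rw [val_cons, ih _ h2]
      have glue : ∀ (x : X.V) (p q : List (X.E × Bool)) (hp : IsPath X.src X.tgt v p x)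
          (hq : IsPath X.src X.tgt x q v),
          X.Hty v v (p ++ rev (t x) ++ (t x ++ q)) (p ++ q) := by
        intro x p q hp hq
        have h3 := (hty_rev' (ht x)).context hp hq
        simpa [List.append_assoc] using h3
      cases b
      · simp only [Bool.false_eq_true, if_false] at h1 h2 ⊢
        subst h1
        have hinv : (lam e)⁻¹ = Pi1.mk (t (X.tgt e) ++ [(e, false)] ++ rev (t (X.src e)))
            (((ht _).append (pe' e)).append (ht _).rev) := by
          apply inv_eq_of_mul_eq_one_right
          show Pi1.mk _ _ * Pi1.mk _ _ = 1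
          rw [Pi1.mk_mul, Pi1.one_def]
          refine Pi1.mk_eq.2 ?_
          have g1 := glue (X.tgt e) (t (X.src e) ++ [(e, true)])
            ([(e, false)] ++ rev (t (X.src e))) ((ht _).append (pe e))
            ((pe' e).append (ht _).rev)
          have g2 := (hty_rev (pe e)).context (ht _) (ht (X.src e)).rev
          have g3 := hty_rev (ht (X.src e))
          have e2 : rev [(e, true)] = [(e, false)] := by simp [rev]
          rw [e2] at g2
          simp only [List.append_assoc, List.append_nil] at g1 g2 g3 ⊢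
          exact (g1.trans _ _ _ g2).trans _ _ _ g3
        rw [hinv, Pi1.mk_mul]
        refine Pi1.mk_eq.2 ?_
        have g1 := glue (X.src e) (t (X.tgt e) ++ [(e, false)]) (k ++ rev (t w))
          ((ht _).append (pe' e)) (h2.append (ht _).rev)
        simpa [List.append_assoc] using g1
      · simp only [if_true] at h1 h2 ⊢
        subst h1
        show Pi1.mk _ _ * Pi1.mk _ _ = _
        rw [Pi1.mk_mul]
        refine Pi1.mk_eq.2 ?_
        have g1 := glue (X.tgt e) (t (X.src e) ++ [(e, true)]) (k ++ rev (t w))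
          ((ht _).append (pe e)) (h2.append (ht _).rev)
        simpa [List.append_assoc] using g1
  have hflat : X.Flat lam := by
    intro f
    rw [key _ _ _ (X.closed f), Pi1.one_def]
    refine Pi1.mk_eq.2 ?_
    have g1 : X.Hty v v (t (X.base f) ++ X.bd f ++ rev (t (X.base f)))
        (t (X.base f) ++ rev (t (X.base f))) := by
      refine Relation.EqvGen.rel _ _ ⟨?_, ?_, ?_⟩
      · exact ((ht _).append (X.closed f)).append (ht _).rev
      · exact (ht _).append (ht _).rev
      · exact Step.face _ _ f
    exact g1.trans _ _ _ (hty_rev (ht _))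
  obtain ⟨pot, hpot⟩ := h _ lam hflat
  have h1 := X.val_of_potential lam pot hpot hl
  rw [inv_mul_cancel, key v v l hl] at h1
  -- conjugate back
  have h2 : Pi1.mk (t v) (ht v) * Pi1.mk l hl * Pi1.mk (rev (t v)) (ht v).rev = 1 := by
    rw [Pi1.mk_mul, Pi1.mk_mul]; exact h1
  have h3 : Pi1.mk (rev (t v)) (ht v).rev = (Pi1.mk (t v) (ht v))⁻¹ := by
    symm
    apply inv_eq_of_mul_eq_one_right
    rw [Pi1.mk_mul, Pi1.one_def]
    exact Pi1.mk_eq.2 (hty_rev (ht v))
  rw [h3] at h2
  have h4 : Pi1.mk l hl = 1 := by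
    have := congrArg (fun x => (Pi1.mk (t v) (ht v))⁻¹ * x * Pi1.mk (t v) (ht v)) h2
    simpa [mul_assoc] using this
  exact Pi1.mk_eq.1 h4

/-- If every integral 2-cochain is a coboundary then `H₂ = 0`. -/
theorem h2Zero_of_coboundary (X : TwoComplex)
    (h : ∀ φ : X.F → ℤ, ∃ α : X.E → ℤ,
      ∀ f, ((X.bd f).map (fun a => if a.2 then α a.1 else -α a.1)).sum = φ f) : X.H2Zero := by
  classical
  unfold H2Zero
  rw [injective_iff_map_eq_zero]
  intro ξ hξ
  ext f₀
  obtain ⟨α, hα⟩ := h (fun f => if f = f₀ then 1 else 0)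
  -- evaluation of `α` on 1-chains
  let ev : (X.E →₀ ℤ) →ₗ[ℤ] ℤ := Finsupp.linearCombination ℤ α
  have h1 : ∀ f, ev (X.bdChain f) = if f = f₀ then 1 else 0 := by
    intro f
    rw [← hα f, bdChain, map_list_sum, List.map_map]
    congr 1
    apply List.map_congr_left
    rintro ⟨e, b⟩ -
    cases b <;> simp [ev]
  have h2 : ev (Finsupp.linearCombination ℤ X.bdChain ξ) = ξ f₀ := by
    have : ev.comp (Finsupp.linearCombination ℤ X.bdChain) = Finsupp.lapply f₀ := by
      apply Finsupp.lhom_ext
      intro f n
      simp only [LinearMap.comp_apply, Finsupp.linearCombination_single, map_smul, h1,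
        Finsupp.lapply_apply, Finsupp.single_apply, smul_eq_mul, mul_ite, mul_one, mul_zero]
    exact LinearMap.congr_fun this ξ
  rw [hξ, map_zero] at h2
  rw [← h2]; rfl

end TwoComplex

end Pool.Agent.EG11
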