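import Pool.Agent.EG11.CoreD
import Pool.Agent.EG11.Top

/-! Construction of the contractible 2-complex. -/

namespace Pool.Agent.EG11

/-- All the data needed for the construction. -/
structure Setup (P E T W : Type) [Group W] where
  X : Cx P E T
  gen : P ⊕ E ⊕ T → W
  R : RAC gen X.adj
  Φ : Frs X (ge gen)
  hru : ∀ τ τ' w, Φ.root τ w → Φ.root τ' w → τ = τ'
  c0 : W → Bool
  c2 : W → Bool
  c0p : ∀ w p, c0 (w * gp gen p) = !c0 w
  c0e : ∀ w e, c0 (w * ge gen e) = c0 w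
  c0t : ∀ w τ, c0 (w * gt gen τ) = c0 w
  c2p : ∀ w p, c2 (w * gp gen p) = c2 w
  c2e : ∀ w e, c2 (w * ge gen e) = c2 w
  c2t : ∀ w τ, c2 (w * gt gen τ) = !c2 w
  evp : ∀ w p, Φ.ev (w * gp gen p) = Φ.ev w
  evt : ∀ w τ, Φ.ev (w * gt gen τ) = Φ.ev w

namespace Setup

variable {P E T W : Type} [Group W] (S : Setup P E T W)

theorem cancel (w : W) (s : P ⊕ E ⊕ T) : w * S.gen s * S.gen s = w := by
  rw [mul_assoc, S.R.sq, mul_one]

theorem cpe (w : W) {p : P} {e : E} (h : S.X.pe p e) :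
    w * gp S.gen p * ge S.gen e = w * ge S.gen e * gp S.gen p := by
  rw [mul_assoc, mul_assoc, S.R.comm (Sum.inl p) (Sum.inr (Sum.inl e)) h]

theorem cte (w : W) {τ : T} {e : E} (h : S.X.et e τ) :
    w * gt S.gen τ * ge S.gen e = w * ge S.gen e * gt S.gen τ := by
  rw [mul_assoc, mul_assoc, S.R.comm (Sum.inr (Sum.inr τ)) (Sum.inr (Sum.inl e)) h]

theorem cpt (w : W) {p : P} {τ : T} (h : S.X.pt p τ) :
    w * gp S.gen p * gt S.gen τ = w * gt S.gen τ * gp S.gen p := by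
  rw [mul_assoc, mul_assoc, S.R.comm (Sum.inl p) (Sum.inr (Sum.inr τ)) h]

/-- representative of `w` modulo `p` -/
def r0 (p : P) (w : W) : W := if S.c0 w = false then w else w * gp S.gen p
/-- representative of `w` modulo `τ` -/
def r2 (τ : T) (w : W) : W := if S.c2 w = false then w else w * gt S.gen τ
/-- representative of `w` modulo `p, τ` -/
def rM (p : P) (τ : T) (w : W) : W := S.r2 τ (S.r0 p w)

theorem c0_r0 (p : P) (w : W) : S.c0 (S.r0 p w) = false := by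
  unfold r0; split_ifs with h
  · exact h
  · rw [S.c0p]; simpa using h

theorem c2_r2 (τ : T) (w : W) : S.c2 (S.r2 τ w) = false := by
  unfold r2; split_ifs with h
  · exact h
  · rw [S.c2t]; simpa using h

theorem c2_r0 (p : P) (w : W) : S.c2 (S.r0 p w) = S.c2 w := by
  unfold r0; split_ifs with h
  · rfl
  · rw [S.c2p]

theorem c0_r2 (τ : T) (w : W) : S.c0 (S.r2 τ w) = S.c0 w := by
  unfold r2; split_ifs with h
  · rfl
  · rw [S.c0t]

theorem ev_r0 (p : P) (w : W) : S.Φ.ev (S.r0 p w) = S.Φ.ev w := by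
  unfold r0; split_ifs with h
  · rfl
  · rw [S.evp]

theorem ev_r2 (τ : T) (w : W) : S.Φ.ev (S.r2 τ w) = S.Φ.ev w := by
  unfold r2; split_ifs with h
  · rfl
  · rw [S.evt]

theorem r0_of {w : W} (p : P) (h : S.c0 w = false) : S.r0 p w = w := by
  unfold r0; rw [if_pos h]

theorem r2_of {w : W} (τ : T) (h : S.c2 w = false) : S.r2 τ w = w := by
  unfold r2; rw [if_pos h]

theorem r0_gp (p : P) (w : W) : S.r0 p (w * gp S.gen p) = S.r0 p w := by
  unfold r0
  rw [S.c0p]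
  by_cases h : S.c0 w = false
  · rw [if_pos h, h]; simp [S.cancel]
  · have h' : S.c0 w = true := by simpa using h
    rw [h']; simp

theorem r2_gt (τ : T) (w : W) : S.r2 τ (w * gt S.gen τ) = S.r2 τ w := by
  unfold r2
  rw [S.c2t]
  by_cases h : S.c2 w = false
  · rw [if_pos h, h]; simp [S.cancel]
  · have h' : S.c2 w = true := by simpa using h
    rw [h']; simp

theorem r0_ge {p : P} {e : E} (h : S.X.pe p e) (w : W) :
    S.r0 p (w * ge S.gen e) = S.r0 p w * ge S.gen e := by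
  unfold r0
  rw [S.c0e]
  split_ifs
  · rfl
  · rw [S.cpe w h]

theorem r0_gt {p : P} {τ : T} (h : S.X.pt p τ) (w : W) :
    S.r0 p (w * gt S.gen τ) = S.r0 p w * gt S.gen τ := by
  unfold r0
  rw [S.c0t]
  split_ifs
  · rfl
  · rw [S.cpt w h]

theorem r2_ge {τ : T} {e : E} (h : S.X.et e τ) (w : W) :
    S.r2 τ (w * ge S.gen e) = S.r2 τ w * ge S.gen e := by
  unfold r2
  rw [S.c2e]
  split_ifs
  · rfl
  · rw [S.cte w h]

theorem c0_rM (p : P) (τ : T) (w : W) : S.c0 (S.rM p τ w) = false := by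
  unfold rM; rw [S.c0_r2, S.c0_r0]

theorem c2_rM (p : P) (τ : T) (w : W) : S.c2 (S.rM p τ w) = false := by
  unfold rM; rw [S.c2_r2]

theorem ev_rM (p : P) (τ : T) (w : W) : S.Φ.ev (S.rM p τ w) = S.Φ.ev w := by
  unfold rM; rw [S.ev_r2, S.ev_r0]

theorem rM_gp (p : P) (τ : T) (w : W) : S.rM p τ (w * gp S.gen p) = S.rM p τ w := by
  unfold rM; rw [S.r0_gp]

theorem rM_gt {p : P} {τ : T} (h : S.X.pt p τ) (w : W) :
    S.rM p τ (w * gt S.gen τ) = S.rM p τ w := by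
  unfold rM; rw [S.r0_gt h, S.r2_gt]

theorem rM_ge {p : P} {e : E} {τ : T} (h : S.X.pe p e) (h' : S.X.et e τ) (w : W) :
    S.rM p τ (w * ge S.gen e) = S.rM p τ w * ge S.gen e := by
  unfold rM; rw [S.r0_ge h, S.r2_ge h']

theorem rM_r0 (p : P) (τ : T) (w : W) : S.rM p τ (S.r0 p w) = S.rM p τ w := by
  unfold rM; rw [S.r0_of p (S.c0_r0 p w)]

theorem rM_r2 {p : P} {τ : T} (h : S.X.pt p τ) (w : W) :
    S.rM p τ (S.r2 τ w) = S.rM p τ w := by
  unfold r2; split_ifs with hc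
  · rfl
  · rw [S.rM_gt h]

/-! ### cells -/

/-- vertices -/
inductive VC (S : Setup P E T W) : Type
  | b (w : W) : VC S
  | p (p : P) (w : W) (h : S.c0 w = false) : VC S
  | t (τ : T) (w : W) (h : S.c2 w = false) : VC S
  | m (p : P) (τ : T) (hi : S.X.pt p τ) (w : W) (h : S.c0 w = false) (h' : S.c2 w = false) : VC S

/-- edges -/
inductive EC (S : Setup P E T W) : Type
  | bp (p : P) (w : W) : EC S
  | pm (p : P) (τ : T) (hi : S.X.pt p τ) (w : W) (h : S.c0 w = false) : EC S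
  | tm (p : P) (τ : T) (hi : S.X.pt p τ) (w : W) (h : S.c2 w = false) : EC S
  | pe (p : P) (e : E) (hi : S.X.pe p e) (w : W) (h : S.c0 w = false)
      (hv : S.Φ.ev w = true) : EC S
  | te (τ : T) (e : E) (hi : S.X.et e τ) (w : W) (h : S.c2 w = false)
      (hv : S.Φ.ev w = true) : EC S
  | me (p : P) (e : E) (τ : T) (hi : S.X.pe p e) (hi' : S.X.et e τ) (w : W) (h : S.c0 w = false)
      (h' : S.c2 w = false) (hv : S.Φ.ev w = true) : EC S
  | d (w : W) : EC S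

/-- 2-cells -/
inductive FC (S : Setup P E T W) : Type
  | s1 (p : P) (e : E) (τ : T) (hi : S.X.pe p e) (hi' : S.X.et e τ) (w : W)
      (h : S.c0 w = false) (hv : S.Φ.ev w = true) : FC S
  | s2 (p : P) (e : E) (τ : T) (hi : S.X.pe p e) (hi' : S.X.et e τ) (w : W)
      (h : S.c2 w = false) (hv : S.Φ.ev w = true) : FC S
  | k1 (e : E) (w : W) (hv : S.Φ.ev w = true) : FC S
  | k2 (e : E) (τ : T) (hi : S.X.et e τ) (w : W) (hv : S.Φ.ev w = false)
      (hf : ¬ S.Φ.forest e τ w) : FC S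
  | k3 (w : W) (hr : ∀ τ, ¬ S.Φ.root τ w) : FC S

variable {S}

/-- The vertices for arbitrary elements of `W`. -/
def vP (p : P) (w : W) : VC S := VC.p p (S.r0 p w) (S.c0_r0 p w)
def vT (τ : T) (w : W) : VC S := VC.t τ (S.r2 τ w) (S.c2_r2 τ w)
def vM (p : P) (τ : T) (hi : S.X.pt p τ) (w : W) : VC S :=
  VC.m p τ hi (S.rM p τ w) (S.c0_rM p τ w) (S.c2_rM p τ w)

/-- The edges for arbitrary elements of `W`. -/
def ePM (p : P) (τ : T) (hi : S.X.pt p τ) (w : W) : EC S := EC.pm p τ hi (S.r0 p w) (S.c0_r0 p w)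
def eTM (p : P) (τ : T) (hi : S.X.pt p τ) (w : W) : EC S := EC.tm p τ hi (S.r2 τ w) (S.c2_r2 τ w)
def ePE (p : P) (e : E) (hi : S.X.pe p e) (w : W) (hv : S.Φ.ev w = true) : EC S :=
  EC.pe p e hi (S.r0 p w) (S.c0_r0 p w) (by rw [S.ev_r0, hv])
def eTE (τ : T) (e : E) (hi : S.X.et e τ) (w : W) (hv : S.Φ.ev w = true) : EC S :=
  EC.te τ e hi (S.r2 τ w) (S.c2_r2 τ w) (by rw [S.ev_r2, hv])
def eME (p : P) (e : E) (τ : T) (hi : S.X.pe p e) (hi' : S.X.et e τ) (w : W)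
    (hv : S.Φ.ev w = true) : EC S :=
  EC.me p e τ hi hi' (S.rM p τ w) (S.c0_rM p τ w) (S.c2_rM p τ w) (by rw [S.ev_rM, hv])

variable (S)

def src : EC S → VC S
  | EC.bp _ w => VC.b w
  | EC.pm p _ _ w h => VC.p p w h
  | EC.tm _ τ _ w h => VC.t τ w h
  | EC.pe p _ _ w h _ => VC.p p w h
  | EC.te τ _ _ w h _ => VC.t τ w h
  | EC.me p _ τ hi hi' w h h' _ => VC.m p τ (S.X.pt_of hi hi') w h h'
  | EC.d w => VC.b w

def tgt : EC S → VC S
  | EC.bp p w => vP p w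
  | EC.pm p τ hi w _ => vM p τ hi w
  | EC.tm p τ hi w _ => vM p τ hi w
  | EC.pe p e _ w h _ => VC.p p (w * ge S.gen e) (by rw [S.c0e, h])
  | EC.te τ e _ w h _ => VC.t τ (w * ge S.gen e) (by rw [S.c2e, h])
  | EC.me p e τ hi hi' w h h' _ => VC.m p τ (S.X.pt_of hi hi') (w * ge S.gen e)
      (by rw [S.c0e, h]) (by rw [S.c2e, h'])
  | EC.d w => VC.b w

def base : FC S → VC S
  | FC.s1 p _ _ _ _ w h _ => VC.p p w h
  | FC.s2 _ _ τ _ _ w h _ => VC.t τ w h
  | FC.k1 _ w _ => VC.b w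
  | FC.k2 _ _ _ w _ _ => VC.b w
  | FC.k3 w _ => VC.b w

/-- The boundary paths. -/
def bd : FC S → List (EC S × Bool)
  | FC.s1 p e τ hi hi' w h hv =>
      [(EC.pm p τ (S.X.pt_of hi hi') w h, true), (eME p e τ hi hi' w hv, true),
        (EC.pm p τ (S.X.pt_of hi hi') (w * ge S.gen e) (by rw [S.c0e, h]), false),
        (EC.pe p e hi w h hv, false)]
  | FC.s2 p e τ hi hi' w h hv =>
      [(EC.tm p τ (S.X.pt_of hi hi') w h, true), (eME p e τ hi hi' w hv, true),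
        (EC.tm p τ (S.X.pt_of hi hi') (w * ge S.gen e) (by rw [S.c2e, h]), false),
        (EC.te τ e hi' w h hv, false)]
  | FC.k1 e w hv =>
      [(EC.bp (S.X.t e) w, true), (ePE (S.X.t e) e (S.X.pe_t e) w hv, true),
        (EC.bp (S.X.t e) (w * ge S.gen e), false), (EC.bp (S.X.s e) (w * ge S.gen e), true),
        (ePE (S.X.s e) e (S.X.pe_s e) w hv, false), (EC.bp (S.X.s e) w, false)] ++
      List.replicate (S.Φ.bw e w).natAbs (EC.d w, decide (S.Φ.bw e w < 0))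
  | FC.k2 e τ hi w _ _ =>
      [(EC.bp (S.X.s e) w, true), (ePM (S.X.s e) τ (S.X.pt_of (S.X.pe_s e) hi) w, true),
        (eTM (S.X.s e) τ (S.X.pt_of (S.X.pe_s e) hi) w, false),
        (eTM (S.X.t e) τ (S.X.pt_of (S.X.pe_t e) hi) w, true),
        (ePM (S.X.t e) τ (S.X.pt_of (S.X.pe_t e) hi) w, false), (EC.bp (S.X.t e) w, false)]
  | FC.k3 w _ => [(EC.d w, true)]

variable {S}

theorem VC.p_eq {p : P} {w w' : W} {h : S.c0 w = false} {h' : S.c0 w' = false} (e : w = w') :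
    VC.p (S := S) p w h = VC.p p w' h' := by subst e; rfl

theorem VC.t_eq {τ : T} {w w' : W} {h : S.c2 w = false} {h' : S.c2 w' = false} (e : w = w') :
    VC.t (S := S) τ w h = VC.t τ w' h' := by subst e; rfl

theorem VC.m_eq {p : P} {τ : T} {hi hi' : S.X.pt p τ} {w w' : W} {h : S.c0 w = false}
    {h' : S.c0 w' = false} {k : S.c2 w = false} {k' : S.c2 w' = false} (e : w = w') :
    VC.m (S := S) p τ hi w h k = VC.m p τ hi' w' h' k' := by subst e; rfl

theorem EC.pe_eq {p : P} {e : E} {hi hi' : S.X.pe p e} {w w' : W} {h : S.c0 w = false}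
    {h' : S.c0 w' = false} {k : S.Φ.ev w = true} {k' : S.Φ.ev w' = true} (q : w = w') :
    EC.pe (S := S) p e hi w h k = EC.pe p e hi' w' h' k' := by subst q; rfl

theorem EC.te_eq {τ : T} {e : E} {hi hi' : S.X.et e τ} {w w' : W} {h : S.c2 w = false}
    {h' : S.c2 w' = false} {k : S.Φ.ev w = true} {k' : S.Φ.ev w' = true} (q : w = w') :
    EC.te (S := S) τ e hi w h k = EC.te τ e hi' w' h' k' := by subst q; rfl

theorem EC.me_eq {p : P} {e : E} {τ : T} {hi hi' : S.X.pe p e} {hj hj' : S.X.et e τ} {w w' : W}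
    {h : S.c0 w = false} {h' : S.c0 w' = false} {l : S.c2 w = false} {l' : S.c2 w' = false}
    {k : S.Φ.ev w = true} {k' : S.Φ.ev w' = true} (q : w = w') :
    EC.me (S := S) p e τ hi hj w h l k = EC.me p e τ hi' hj' w' h' l' k' := by subst q; rfl

theorem EC.pm_eq {p : P} {τ : T} {hi hi' : S.X.pt p τ} {w w' : W} {h : S.c0 w = false}
    {h' : S.c0 w' = false} (q : w = w') :
    EC.pm (S := S) p τ hi w h = EC.pm p τ hi' w' h' := by subst q; rfl

theorem EC.tm_eq {p : P} {τ : T} {hi hi' : S.X.pt p τ} {w w' : W} {h : S.c2 w = false}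
    {h' : S.c2 w' = false} (q : w = w') :
    EC.tm (S := S) p τ hi w h = EC.tm p τ hi' w' h' := by subst q; rfl

theorem isPath_replicate (w : W) (n : ℕ) (b : Bool) :
    IsPath S.src S.tgt (VC.b w) (List.replicate n (EC.d w, b)) (VC.b w) := by
  induction n with
  | zero => rfl
  | succ n ih =>
    rw [List.replicate_succ]
    refine ⟨?_, ?_⟩
    · cases b <;> rfl
    · cases b
      · exact ih
      · exact ih

theorem closed (f : FC S) : IsPath S.src S.tgt (S.base f) (S.bd f) (S.base f) := by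
  cases f with
  | s1 p e τ hi hi' w h hv =>
    have hc : S.c0 (w * ge S.gen e) = false := by rw [S.c0e, h]
    refine ⟨rfl, ?_, ?_, ?_, ?_⟩
    · exact VC.m_eq rfl
    · exact VC.m_eq (S.rM_ge hi hi' w)
    · exact VC.p_eq rfl
    · exact VC.p_eq rfl
  | s2 p e τ hi hi' w h hv =>
    refine ⟨rfl, ?_, ?_, ?_, ?_⟩
    · exact VC.m_eq rfl
    · exact VC.m_eq (S.rM_ge hi hi' w)
    · exact VC.t_eq rfl
    · exact VC.t_eq rfl
  | k1 e w hv =>
    refine IsPath.append (v := VC.b w) ?_ (isPath_replicate w _ _)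
    refine ⟨rfl, ?_, ?_, ?_, ?_, ?_, rfl⟩
    · exact VC.p_eq rfl
    · exact VC.p_eq (S.r0_ge (S.X.pe_t e) w)
    · rfl
    · exact VC.p_eq (S.r0_ge (S.X.pe_s e) w).symm
    · exact VC.p_eq rfl
  | k2 e τ hi w hv hf =>
    refine ⟨rfl, ?_, ?_, ?_, ?_, ?_, rfl⟩
    · exact VC.p_eq rfl
    · refine VC.m_eq ?_
      rw [S.rM_r0, S.rM_r2 (S.X.pt_of (S.X.pe_s e) hi)]
    · exact VC.t_eq rfl
    · refine VC.m_eq ?_
      rw [S.rM_r0, S.rM_r2 (S.X.pt_of (S.X.pe_t e) hi)]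
    · exact VC.p_eq rfl
  | k3 w hr => exact ⟨rfl, rfl⟩

variable (S)

/-- The 2-complex. -/
def cplx : TwoComplex where
  V := VC S
  E := EC S
  F := FC S
  src := S.src
  tgt := S.tgt
  base := S.base
  bd := S.bd
  closed := S.closed

end Setup

end Pool.Agent.EG11
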