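import Pool.Agent.EG11.Flat

/-! Second cohomology of the complex, and contractibility. -/

namespace Pool.Agent.EG11

namespace Setup

variable {P E T W : Type} [Group W] (S : Setup P E T W)

open Classical in
/-- extend a function on even elements to all elements -/
noncomputable def oriZ (e : E) (f : ∀ w, S.Φ.ev w = true → ℤ) (w : W) : ℤ :=
  if h : S.Φ.ev w = true then f w h else -(f (w * ge S.gen e) (S.ev_ge e h))

theorem oriZ_ev (e : E) (f : ∀ w, S.Φ.ev w = true → ℤ) {w : W} (h : S.Φ.ev w = true) :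
    S.oriZ e f w = f w h := by
  unfold oriZ; rw [dif_pos h]

theorem oriZ_ge (e : E) (f : ∀ w, S.Φ.ev w = true → ℤ) (w : W) :
    S.oriZ e f (w * ge S.gen e) = - S.oriZ e f w := by
  by_cases h : S.Φ.ev w = true
  · have h' : ¬ S.Φ.ev (w * ge S.gen e) = true := by rw [S.Φ.ev_e, h]; decide
    unfold oriZ
    rw [dif_pos h, dif_neg h']
    have : ∀ (w' : W) (hw' : S.Φ.ev w' = true), w' = w → -(f w' hw') = -(f w h) := by
      intro w' hw' q; subst q; rfl
    exact this _ _ (S.cancel w _)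
  · have h' : S.Φ.ev (w * ge S.gen e) = true := S.ev_ge e h
    unfold oriZ
    rw [dif_neg h, dif_pos h', neg_neg]

theorem oriZ_inv (e : E) (f : ∀ w, S.Φ.ev w = true → ℤ) (g : W)
    (hg : ∀ w, S.Φ.ev (w * g) = S.Φ.ev w) (hc : ∀ w, w * g * ge S.gen e = w * ge S.gen e * g)
    (hf : ∀ w h h', f (w * g) h = f w h') (w : W) :
    S.oriZ e f (w * g) = S.oriZ e f w := by
  by_cases h : S.Φ.ev w = true
  · have h' : S.Φ.ev (w * g) = true := by rw [hg, h]
    rw [S.oriZ_ev e f h, S.oriZ_ev e f h', hf]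
  · have h' : ¬ S.Φ.ev (w * g) = true := by rw [hg]; exact h
    unfold oriZ
    rw [dif_neg h, dif_neg h']
    congr 1
    have : ∀ (w' : W) (hw' : S.Φ.ev w' = true), w' = w * ge S.gen e * g →
        f w' hw' = f (w * ge S.gen e) (S.ev_ge e h) := by
      intro w' hw' q; subst q; exact hf _ _ _
    exact this _ _ (hc w)

/-- value of a cochain on a path -/
def psum {E : Type} (α : E → ℤ) (l : List (E × Bool)) : ℤ :=
  (l.map (fun a => if a.2 then α a.1 else -α a.1)).sum

theorem psum_nil {E : Type} (α : E → ℤ) : psum α [] = 0 := rfl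

theorem psum_true {E : Type} (α : E → ℤ) (e : E) (l : List (E × Bool)) :
    psum α ((e, true) :: l) = α e + psum α l := by
  simp [psum]

theorem psum_false {E : Type} (α : E → ℤ) (e : E) (l : List (E × Bool)) :
    psum α ((e, false) :: l) = -α e + psum α l := by
  simp [psum]

theorem psum_append {E : Type} (α : E → ℤ) (l l' : List (E × Bool)) :
    psum α (l ++ l') = psum α l + psum α l' := by
  simp [psum]

theorem psum_replicate {E : Type} (α : E → ℤ) (e : E) (n : ℤ) :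
    psum α (List.replicate n.natAbs (e, decide (n < 0))) = -(n * α e) := by
  unfold psum
  rw [List.map_replicate, List.sum_replicate]
  by_cases hb : n < 0
  · simp only [hb, decide_true, if_true, nsmul_eq_mul]
    have : ((n.natAbs : ℕ) : ℤ) = -n := by omega
    rw [this]; ring
  · simp only [hb, decide_false, Bool.false_eq_true, if_false, nsmul_eq_mul]
    have : ((n.natAbs : ℕ) : ℤ) = n := by omega
    rw [this]; ring

open Classical in
theorem coboundary (φ : FC S → ℤ) : ∃ α : EC S → ℤ, ∀ f, psum α (S.bd f) = φ f := by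
  let φ1 : P → E → T → W → ℤ := fun p e τ w =>
    if h : S.X.pe p e ∧ S.X.et e τ then
      S.oriZ e (fun w hv => φ (FC.s1 p e τ h.1 h.2 (S.r0 p w) (S.c0_r0 p w)
        (by rw [S.ev_r0, hv]))) w
    else 0
  let φ2 : P → E → T → W → ℤ := fun p e τ w =>
    if h : S.X.pe p e ∧ S.X.et e τ then
      S.oriZ e (fun w hv => φ (FC.s2 p e τ h.1 h.2 (S.r2 τ w) (S.c2_r2 τ w)
        (by rw [S.ev_r2, hv]))) w
    else 0
  let φ3 : E → W → ℤ := fun e w => if hv : S.Φ.ev w = true then φ (FC.k1 e w hv) else 0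
  let φ4 : E → T → W → ℤ := fun e τ w =>
    if h : S.X.et e τ ∧ S.Φ.ev w = false ∧ ¬ S.Φ.forest e τ w then
      φ (FC.k2 e τ h.1 w h.2.1 h.2.2) else 0
  let φ5 : W → ℤ := fun w => if h : ∀ τ, ¬ S.Φ.root τ w then φ (FC.k3 w h) else 0
  have hφ1 : ∀ p e τ (h : S.X.pe p e) (h' : S.X.et e τ) w, φ1 p e τ w =
      S.oriZ e (fun w hv => φ (FC.s1 p e τ h h' (S.r0 p w) (S.c0_r0 p w)
        (by rw [S.ev_r0, hv]))) w := fun p e τ h h' w => dif_pos ⟨h, h'⟩
  have hφ2 : ∀ p e τ (h : S.X.pe p e) (h' : S.X.et e τ) w, φ2 p e τ w =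
      S.oriZ e (fun w hv => φ (FC.s2 p e τ h h' (S.r2 τ w) (S.c2_r2 τ w)
        (by rw [S.ev_r2, hv]))) w := fun p e τ h h' w => dif_pos ⟨h, h'⟩
  have s1eq : ∀ {p e τ} {h k : S.X.pe p e} {h' k' : S.X.et e τ} {w w'} {c : S.c0 w = false}
      {c' : S.c0 w' = false} {v : S.Φ.ev w = true} {v' : S.Φ.ev w' = true}, w = w' →
      (FC.s1 p e τ h h' w c v : FC S) = FC.s1 p e τ k k' w' c' v' := by
    intro p e τ h k h' k' w w' c c' v v' q; subst q; rfl
  have s2eq : ∀ {p e τ} {h k : S.X.pe p e} {h' k' : S.X.et e τ} {w w'} {c : S.c2 w = false}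
      {c' : S.c2 w' = false} {v : S.Φ.ev w = true} {v' : S.Φ.ev w' = true}, w = w' →
      (FC.s2 p e τ h h' w c v : FC S) = FC.s2 p e τ k k' w' c' v' := by
    intro p e τ h k h' k' w w' c c' v v' q; subst q; rfl
  obtain ⟨β, μ, ν, gP, gT, gM, δ, sol, invP, invT⟩ := coreC S.R S.Φ S.hru S.c0 S.c2 S.c0p S.c0e
    S.c2t S.c2e S.c2p φ1 φ2 φ3 φ4 φ5
    (by
      intro p e τ w h h'
      rw [hφ1 p e τ h h', hφ1 p e τ h h', S.oriZ_ge])
    (by
      intro p e τ w h h'
      rw [hφ2 p e τ h h', hφ2 p e τ h h', S.oriZ_ge])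
    (by
      intro p e τ w h h'
      rw [hφ1 p e τ h h', hφ1 p e τ h h']
      exact S.oriZ_inv e _ _ (fun w => S.evp w p) (fun w => S.cpe w h)
        (fun w _ _ => congrArg φ (s1eq (S.r0_gp p w))) w)
    (by
      intro p e τ w h h'
      rw [hφ2 p e τ h h', hφ2 p e τ h h']
      exact S.oriZ_inv e _ _ (fun w => S.evt w τ) (fun w => S.cte w h')
        (fun w _ _ => congrArg φ (s2eq (S.r2_gt τ w))) w)
  have μ0 : ∀ p τ w, S.X.pt p τ → μ p τ (S.r0 p w) = μ p τ w := by
    intro p τ w h; unfold r0; split_ifs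
    · rfl
    · rw [invP.μ p τ w h]
  have ν0 : ∀ p τ w, S.X.pt p τ → ν p τ (S.r2 τ w) = ν p τ w := by
    intro p τ w h; unfold r2; split_ifs
    · rfl
    · rw [invT.ν p τ w h]
  have gP0 : ∀ p e w, S.X.pe p e → gP p e (S.r0 p w) = gP p e w := by
    intro p e w h; unfold r0; split_ifs
    · rfl
    · rw [invP.gP p e w h]
  have gM0 : ∀ p e τ w, S.X.pe p e → S.X.et e τ → gM p e τ (S.rM p τ w) = gM p e τ w := by
    intro p e τ w h h'
    have h0 : gM p e τ (S.r0 p w) = gM p e τ w := by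
      unfold r0; split_ifs
      · rfl
      · rw [invP.gM p e τ w h h']
    unfold rM
    rw [← h0]
    generalize S.r0 p w = w'
    unfold r2; split_ifs
    · rfl
    · rw [invT.gM p e τ w' h h']
  refine ⟨fun c => match c with
    | EC.bp p w => β p w
    | EC.pm p τ _ w _ => μ p τ w
    | EC.tm p τ _ w _ => ν p τ w
    | EC.pe p e _ w _ _ => gP p e w
    | EC.te τ e _ w _ _ => gT τ e w
    | EC.me p e τ _ _ w _ _ _ => gM p e τ w
    | EC.d w => δ w, ?_⟩
  intro f
  cases f with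
  | s1 p e τ hi hi' w h hv =>
    simp only [bd, psum_true, psum_false, psum_nil, eME]
    rw [gM0 p e τ w hi hi']
    have h1 := sol.S1 p e τ w hi hi'
    rw [hφ1 p e τ hi hi', S.oriZ_ev _ _ hv] at h1
    have q : (FC.s1 p e τ hi hi' (S.r0 p w) (S.c0_r0 p w) (by rw [S.ev_r0, hv]) : FC S)
        = FC.s1 p e τ hi hi' w h hv := s1eq (S.r0_of p h)
    rw [q] at h1
    rw [← h1]; ring
  | s2 p e τ hi hi' w h hv =>
    simp only [bd, psum_true, psum_false, psum_nil, eME]
    rw [gM0 p e τ w hi hi']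
    have h1 := sol.S2 p e τ w hi hi'
    rw [hφ2 p e τ hi hi', S.oriZ_ev _ _ hv] at h1
    have q : (FC.s2 p e τ hi hi' (S.r2 τ w) (S.c2_r2 τ w) (by rw [S.ev_r2, hv]) : FC S)
        = FC.s2 p e τ hi hi' w h hv := s2eq (S.r2_of τ h)
    rw [q] at h1
    rw [← h1]; ring
  | k1 e w hv =>
    simp only [bd, psum_append, psum_replicate, psum_true, psum_false, psum_nil, ePE]
    rw [gP0 _ e w (S.X.pe_t e), gP0 _ e w (S.X.pe_s e)]
    have h1 := sol.K1 e w hv
    have h2 : φ3 e w = φ (FC.k1 e w hv) := dif_pos hv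
    rw [← h2, ← h1]; ring
  | k2 e τ hi w hv hf =>
    simp only [bd, psum_true, psum_false, psum_nil, ePM, eTM]
    have hs := S.X.pt_of (S.X.pe_s e) hi
    have ht := S.X.pt_of (S.X.pe_t e) hi
    rw [μ0 _ τ w hs, μ0 _ τ w ht, ν0 _ τ w hs, ν0 _ τ w ht]
    have h1 := sol.K2 e τ w hv hi hf
    have h2 : φ4 e τ w = φ (FC.k2 e τ hi w hv hf) := dif_pos ⟨hi, hv, hf⟩
    rw [← h2, ← h1]; ring
  | k3 w hr =>
    simp only [bd, psum_true, psum_nil]
    have h1 := sol.K3 w hr
    have h2 : φ5 w = φ (FC.k3 w hr) := dif_pos hr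
    rw [← h2, ← h1]; ring

theorem connected (hst : ∀ s : P ⊕ E ⊕ T, ∃ p, s = Sum.inl p ∨
    (∃ e, s = Sum.inr (Sum.inl e) ∧ S.X.pe p e) ∨ (∃ τ, s = Sum.inr (Sum.inr τ) ∧ S.X.pt p τ)) :
    S.cplx.Connected := by
  -- every vertex is joined to `b 1`
  have tr : ∀ {u v w : VC S}, (∃ l, IsPath S.src S.tgt u l v) → (∃ l, IsPath S.src S.tgt v l w) →
      ∃ l, IsPath S.src S.tgt u l w := fun ⟨l, h⟩ ⟨l', h'⟩ => ⟨l ++ l', h.append h'⟩
  have sy : ∀ {u v : VC S}, (∃ l, IsPath S.src S.tgt u l v) → (∃ l, IsPath S.src S.tgt v l u) :=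
    fun ⟨l, h⟩ => ⟨rev l, h.rev⟩
  have ed : ∀ e : EC S, ∃ l, IsPath S.src S.tgt (S.src e) l (S.tgt e) :=
    fun e => ⟨[(e, true)], rfl, rfl⟩
  have bP : ∀ p w, ∃ l, IsPath S.src S.tgt (VC.b w) l (vP p w) := fun p w => ed (EC.bp p w)
  have PM : ∀ p τ (h : S.X.pt p τ) w, ∃ l, IsPath S.src S.tgt (vP p w) l (vM p τ h w) := by
    intro p τ h w
    have := ed (ePM p τ h w)
    have q : S.tgt (ePM p τ h w) = vM p τ h w := VC.m_eq (S.rM_r0 p τ w)
    rw [q] at this
    exact this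
  have TM : ∀ p τ (h : S.X.pt p τ) w, ∃ l, IsPath S.src S.tgt (vT τ w) l (vM p τ h w) := by
    intro p τ h w
    have := ed (eTM p τ h w)
    have q : S.tgt (eTM p τ h w) = vM p τ h w := VC.m_eq (S.rM_r2 h w)
    rw [q] at this
    exact this
  have PEe : ∀ p e (h : S.X.pe p e) w, S.Φ.ev w = true →
      ∃ l, IsPath S.src S.tgt (vP p w) l (vP p (w * ge S.gen e)) := by
    intro p e h w hv
    have := ed (ePE p e h w hv)
    have q : S.tgt (ePE p e h w hv) = vP p (w * ge S.gen e) := VC.p_eq (S.r0_ge h w).symm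
    rw [q] at this
    exact this
  have PE : ∀ p e (h : S.X.pe p e) w,
      ∃ l, IsPath S.src S.tgt (vP p w) l (vP p (w * ge S.gen e)) := by
    intro p e h w
    by_cases hv : S.Φ.ev w = true
    · exact PEe p e h w hv
    · have := PEe p e h (w * ge S.gen e) (S.ev_ge e hv)
      rw [S.cancel] at this
      exact sy this
  have step : ∀ w s, ∃ l, IsPath S.src S.tgt (VC.b w) l (VC.b (w * S.gen s)) := by
    intro w s
    obtain ⟨p, h | ⟨e, h, h'⟩ | ⟨τ, h, h'⟩⟩ := hst s
    · subst h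
      have h1 := bP p w
      have h2 := bP p (w * gp S.gen p)
      have q : (vP p (w * gp S.gen p) : VC S) = vP p w := VC.p_eq (S.r0_gp p w)
      rw [q] at h2
      exact tr h1 (sy h2)
    · subst h
      exact tr (bP p w) (tr (PE p e h' w) (sy (bP p _)))
    · subst h
      have h1 := tr (bP p w) (PM p τ h' w)
      have h2 := tr (bP p (w * gt S.gen τ)) (PM p τ h' (w * gt S.gen τ))
      have q : (vM p τ h' (w * gt S.gen τ) : VC S) = vM p τ h' w := VC.m_eq (S.rM_gt h' w)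
      rw [q] at h2
      exact tr h1 (sy h2)
  have base : ∀ w, ∃ l, IsPath S.src S.tgt (VC.b 1) l (VC.b w) := by
    intro w
    have hw : w ∈ Subgroup.closure (Set.range S.gen) := by rw [S.R.closure]; trivial
    induction hw using Subgroup.closure_induction_right with
    | one => exact ⟨[], rfl⟩
    | mul_right x y hx hy ih =>
      obtain ⟨s, rfl⟩ := hy
      exact tr ih (step x s)
    | mul_inv_cancel x y hx hy ih =>
      obtain ⟨s, rfl⟩ := hy
      have : (S.gen s)⁻¹ = S.gen s := inv_eq_of_mul_eq_one_left (S.R.sq s)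
      rw [this]
      exact tr ih (step x s)
  have all : ∀ v : VC S, ∃ l, IsPath S.src S.tgt (VC.b 1) l v := by
    intro v
    cases v with
    | b w => exact base w
    | p p w h =>
      have h1 := bP p w
      have q : (vP p w : VC S) = VC.p p w h := VC.p_eq (S.r0_of p h)
      rw [q] at h1
      exact tr (base w) h1
    | t τ w h =>
      have hh : S.X.pt (S.X.a τ) τ := Or.inl rfl
      have h1 := TM _ τ hh w
      have q : (vT τ w : VC S) = VC.t τ w h := VC.t_eq (S.r2_of τ h)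
      rw [q] at h1
      exact tr (base w) (tr (tr (bP _ w) (PM _ τ hh w)) (sy h1))
    | m p τ hi w h h' =>
      have h1 := PM p τ hi w
      have q : (vM p τ hi w : VC S) = VC.m p τ hi w h h' :=
        VC.m_eq (by unfold rM; rw [S.r0_of p h, S.r2_of τ h'])
      rw [q] at h1
      exact tr (base w) (tr (bP _ w) h1)
  exact ⟨⟨VC.b 1⟩, fun u v => tr (sy (all u)) (all v)⟩

theorem contractible : S.cplx.Contractible := by
  have hc : S.cplx.Connected := S.connected (by
    rintro (p | e | τ)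
    · exact ⟨p, Or.inl rfl⟩
    · exact ⟨S.X.s e, Or.inr (Or.inl ⟨e, rfl, S.X.pe_s e⟩)⟩
    · exact ⟨S.X.a τ, Or.inr (Or.inr ⟨τ, rfl, Or.inl rfl⟩)⟩)
  refine ⟨hc, TwoComplex.simplyConnected_of_flat _ hc ?_, TwoComplex.h2Zero_of_coboundary _ ?_⟩
  · intro A _ lam hlam
    exact S.potential lam hlam
  · intro φ
    exact S.coboundary φ

end Setup

end Pool.Agent.EG11
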