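import Pool.Agent.EG11.Pot

/-! The combinatorial data of a 2-complex and the elimination argument. -/

namespace Pool.Agent.EG11

/-- Vertices `P`, edges `E` and triangles `T` of a 2-dimensional simplicial complex.  Edges go from
`s e` to `t e`; the triangle `τ` has vertices `a τ, b τ, c τ` and edges `x τ : a → b`,
`y τ : b → c`, `z τ : a → c`. -/
structure Cx (P E T : Type) where
  s : E → P
  t : E → P
  a : T → P
  b : T → P
  c : T → P
  x : T → E
  y : T → E
  z : T → E
  sx : ∀ τ, s (x τ) = a τ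
  tx : ∀ τ, t (x τ) = b τ
  sy : ∀ τ, s (y τ) = b τ
  ty : ∀ τ, t (y τ) = c τ
  sz : ∀ τ, s (z τ) = a τ
  tz : ∀ τ, t (z τ) = c τ
  xy : ∀ τ, x τ ≠ y τ
  xz : ∀ τ, x τ ≠ z τ
  yz : ∀ τ, y τ ≠ z τ
  ab : ∀ τ, a τ ≠ b τ
  ac : ∀ τ, a τ ≠ c τ
  bc : ∀ τ, b τ ≠ c τ
  st : ∀ e, s e ≠ t e

namespace Cx

variable {P E T : Type} (X : Cx P E T)

def pe (p : P) (e : E) : Prop := p = X.s e ∨ p = X.t e
def et (e : E) (τ : T) : Prop := e = X.x τ ∨ e = X.y τ ∨ e = X.z τ
def pt (p : P) (τ : T) : Prop := p = X.a τ ∨ p = X.b τ ∨ p = X.c τ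

theorem pt_of {p : P} {e : E} {τ : T} (h : X.pe p e) (h' : X.et e τ) : X.pt p τ := by
  rcases h with h | h <;> rcases h' with h' | h' | h' <;> subst h' <;> subst h <;>
    simp [pt, X.sx, X.tx, X.sy, X.ty, X.sz, X.tz]

theorem et_x (τ : T) : X.et (X.x τ) τ := Or.inl rfl
theorem et_y (τ : T) : X.et (X.y τ) τ := Or.inr (Or.inl rfl)
theorem et_z (τ : T) : X.et (X.z τ) τ := Or.inr (Or.inr rfl)
theorem pe_s (e : E) : X.pe (X.s e) e := Or.inl rfl
theorem pe_t (e : E) : X.pe (X.t e) e := Or.inr rfl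

/-- adjacency of the generators -/
def adj : P ⊕ E ⊕ T → P ⊕ E ⊕ T → Prop
  | Sum.inl p, Sum.inr (Sum.inl e) => X.pe p e
  | Sum.inr (Sum.inl e), Sum.inl p => X.pe p e
  | Sum.inr (Sum.inl e), Sum.inr (Sum.inr τ) => X.et e τ
  | Sum.inr (Sum.inr τ), Sum.inr (Sum.inl e) => X.et e τ
  | Sum.inl p, Sum.inr (Sum.inr τ) => X.pt p τ
  | Sum.inr (Sum.inr τ), Sum.inl p => X.pt p τ
  | _, _ => False

end Cx

/-- Spanning forest data on the group `W`. -/
structure Frs {P E T : Type} (X : Cx P E T) {W : Type} [Group W] (ge : E → W) where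
  ev : W → Bool
  ev_e : ∀ w e, ev (w * ge e) = !ev w
  root : T → W → Prop
  root_ev : ∀ τ w, root τ w → ev w = true
  rk : T → W → ℕ
  bd : ℕ
  rk_le : ∀ τ w, rk τ w ≤ bd
  par : T → W → E
  par_mem : ∀ τ w, ¬ root τ w → X.et (par τ w) τ
  par_lt : ∀ τ w, ¬ root τ w → rk τ (w * ge (par τ w)) < rk τ w
  bw : E → W → ℤ
  bw_root : ∀ τ w, root τ w → bw (X.x τ) w + bw (X.y τ) w = bw (X.z τ) w + 1
  bw_not : ∀ τ w, ¬ root τ w → bw (X.x τ) w + bw (X.y τ) w = bw (X.z τ) w

namespace Frs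

variable {P E T : Type} {X : Cx P E T} {W : Type} [Group W] {ge : E → W} (Φ : Frs X ge)

/-- `{w, w * ge e}` is a forest edge for `τ`. -/
def forest (e : E) (τ : T) (w : W) : Prop :=
  (¬ Φ.root τ w ∧ Φ.par τ w = e) ∨ (¬ Φ.root τ (w * ge e) ∧ Φ.par τ (w * ge e) = e)

end Frs

section Elim

variable {P E T : Type} {X : Cx P E T} {W : Type} [Group W] {ge : E → W} (Φ : Frs X ge)
variable {A : Type} [Group A]

/-- The elimination argument. `ζ p τ w` is the holonomy `b(w) → P_p(w) → M_pτ(w) → T_τ(w)`,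
`g p e w` is the holonomy `b(w) → P_p(w) → P_p(w e) → b(w e)`. -/
theorem elim (sq : ∀ e, ge e * ge e = 1)
    (ζ : P → T → W → A) (g : P → E → W → A) (gT : T → E → W → A) (δ : W → A)
    (hC : ∀ p e τ w, X.pe p e → X.et e τ → g p e w * ζ p τ (w * ge e) = ζ p τ w * gT τ e w)
    (hK1 : ∀ e w, Φ.ev w = true → g (X.t e) e w * (g (X.s e) e w)⁻¹ = δ w ^ Φ.bw e w)
    (hK2 : ∀ e τ w, Φ.ev w = false → X.et e τ → ¬ Φ.forest e τ w →
      ζ (X.s e) τ w = ζ (X.t e) τ w)
    (hK3 : ∀ w, (∀ τ, ¬ Φ.root τ w) → δ w = 1) :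
    (∀ w, δ w = 1) ∧ (∀ e τ w, X.et e τ → ζ (X.s e) τ w = ζ (X.t e) τ w) := by
  classical
  have cancel : ∀ (w : W) e, w * ge e * ge e = w := fun w e => by
    rw [mul_assoc, sq, mul_one]
  -- the loop `z e τ w`
  let z : E → T → W → A := fun e τ w => ζ (X.s e) τ w * (ζ (X.t e) τ w)⁻¹
  have hz : ∀ e τ w, z e τ w = ζ (X.s e) τ w * (ζ (X.t e) τ w)⁻¹ := fun _ _ _ => rfl
  have hR : ∀ τ w, z (X.x τ) τ w * z (X.y τ) τ w = z (X.z τ) τ w := by
    intro τ w
    simp only [hz, X.sx, X.tx, X.sy, X.ty, X.sz, X.tz]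
    group
  have hCz : ∀ e τ w, X.et e τ → g (X.s e) e w * z e τ (w * ge e) = z e τ w * g (X.t e) e w := by
    intro e τ w h
    have h1 := hC (X.s e) e τ w (X.pe_s e) h
    have h2 := hC (X.t e) e τ w (X.pe_t e) h
    rw [hz, hz, ← mul_assoc, h1, mul_assoc, mul_assoc]
    congr 1
    have : gT τ e w = (ζ (X.t e) τ w)⁻¹ * (g (X.t e) e w * ζ (X.t e) τ (w * ge e)) := by
      rw [h2]; group
    rw [this]; group
  -- `Y e τ w` : the loop is trivial at the odd end
  let Y : E → T → W → Prop := fun e τ w =>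
    if Φ.ev w = true then z e τ (w * ge e) = 1 else z e τ w = 1
  have Yodd : ∀ e τ w, Φ.ev w = false → (Y e τ w ↔ z e τ w = 1) := by
    intro e τ w h; simp [Y, h]
  have Yev : ∀ e τ w, Φ.ev w = true → X.et e τ → Y e τ w → z e τ w = (δ w ^ Φ.bw e w)⁻¹ := by
    intro e τ w h he hY
    have hY' : z e τ (w * ge e) = 1 := by simpa [Y, h] using hY
    have := hCz e τ w he
    rw [hY', mul_one] at this
    rw [← hK1 e w h, this]
    group
  have Yev' : ∀ e τ w, Φ.ev w = true → X.et e τ → z e τ w = (δ w ^ Φ.bw e w)⁻¹ → Y e τ w := by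
    intro e τ w h he hY
    have := hCz e τ w he
    have h1 := hK1 e w h
    have h2 : z e τ (w * ge e) = 1 := by
      have h3 : g (X.t e) e w = δ w ^ Φ.bw e w * g (X.s e) e w := by rw [← h1]; group
      rw [hY, h3, inv_mul_cancel_left] at this
      exact mul_eq_left.1 this
    simpa [Y, h] using h2
  have Ysymm : ∀ e τ w, Y e τ w → Y e τ (w * ge e) := by
    intro e τ w h
    by_cases hw : Φ.ev w = true
    · have h2 : Φ.ev (w * ge e) = false := by rw [Φ.ev_e, hw]; rfl
      rw [Yodd _ _ _ h2]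
      simpa [Y, hw] using h
    · have hw' : Φ.ev w = false := by simpa using hw
      have h2 : Φ.ev (w * ge e) = true := by rw [Φ.ev_e, hw']; rfl
      have : z e τ w = 1 := (Yodd _ _ _ hw').1 h
      simp only [Y, h2, if_true, cancel]
      exact this
  -- at a chamber: two letters give the third one
  have third : ∀ τ w, ¬ Φ.root τ w → ∀ e, X.et e τ → (∀ e', X.et e' τ → e' ≠ e → Y e' τ w) →
      Y e τ w := by
    intro τ w hr e he hY
    have hB := Φ.bw_not τ w hr
    have hRw := hR τ w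
    by_cases hw : Φ.ev w = true
    · have hY' : ∀ e', X.et e' τ → e' ≠ e → z e' τ w = (δ w ^ Φ.bw e' w)⁻¹ :=
        fun e' h1 h2 => Yev e' τ w hw h1 (hY e' h1 h2)
      apply Yev' e τ w hw he
      rcases he with rfl | rfl | rfl
      · rw [hY' _ (X.et_y τ) (X.xy τ).symm, hY' _ (X.et_z τ) (X.xz τ).symm] at hRw
        rw [← zpow_neg] at hRw ⊢
        rw [eq_mul_inv_of_mul_eq hRw, ← zpow_neg, ← zpow_neg, ← zpow_add]
        congr 1; linarith
      · rw [hY' _ (X.et_x τ) (X.xy τ), hY' _ (X.et_z τ) (X.yz τ).symm] at hRw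
        rw [← zpow_neg] at hRw ⊢
        rw [eq_inv_mul_of_mul_eq hRw, ← zpow_neg, ← zpow_neg, ← zpow_add]
        congr 1; linarith
      · rw [hY' _ (X.et_x τ) (X.xz τ), hY' _ (X.et_y τ) (X.yz τ)] at hRw
        rw [← zpow_neg] at hRw ⊢
        rw [← hRw, ← zpow_neg, ← zpow_add]
        congr 1; linarith
    · have hw' : Φ.ev w = false := by simpa using hw
      have hY' : ∀ e', X.et e' τ → e' ≠ e → z e' τ w = 1 :=
        fun e' h1 h2 => (Yodd e' τ w hw').1 (hY e' h1 h2)
      rw [Yodd _ _ _ hw']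
      rcases he with rfl | rfl | rfl
      · rw [hY' _ (X.et_y τ) (X.xy τ).symm, hY' _ (X.et_z τ) (X.xz τ).symm, mul_one] at hRw
        exact hRw
      · rw [hY' _ (X.et_x τ) (X.xy τ), hY' _ (X.et_z τ) (X.yz τ).symm, one_mul] at hRw
        exact hRw
      · rw [hY' _ (X.et_x τ) (X.xz τ), hY' _ (X.et_y τ) (X.yz τ), mul_one] at hRw
        exact hRw.symm
  -- induction on the rank: all letters die
  have nf : ∀ e τ w, X.et e τ → ¬ Φ.forest e τ w → Y e τ w := by
    intro e τ w he hf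
    by_cases hw : Φ.ev w = true
    · have h2 : Φ.ev (w * ge e) = false := by rw [Φ.ev_e, hw]; rfl
      have hf' : ¬ Φ.forest e τ (w * ge e) := by
        intro h; apply hf
        rcases h with h | h
        · exact Or.inr h
        · rw [cancel] at h; exact Or.inl h
      have := hK2 e τ (w * ge e) h2 he hf'
      simp only [Y, hw, if_true, hz, this, mul_inv_cancel]
    · have hw' : Φ.ev w = false := by simpa using hw
      rw [Yodd _ _ _ hw', hz, hK2 e τ w hw' he hf, mul_inv_cancel]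
  have main : ∀ n, ∀ τ w, Φ.bd - Φ.rk τ w ≤ n → ¬ Φ.root τ w → Y (Φ.par τ w) τ w := by
    intro n
    induction n with
    | zero =>
      intro τ w hn hr
      apply third τ w hr _ (Φ.par_mem τ w hr)
      intro e' he' hne
      by_cases hf : Φ.forest e' τ w
      · rcases hf with hf | hf
        · exact absurd hf.2.symm hne
        · exfalso
          have h1 := Φ.par_lt τ _ hf.1
          rw [hf.2, cancel] at h1
          have h2 := Φ.rk_le τ (w * ge e')
          have h3 := Φ.rk_le τ w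
          omega
      · exact nf e' τ w he' hf
    | succ n ih =>
      intro τ w hn hr
      apply third τ w hr _ (Φ.par_mem τ w hr)
      intro e' he' hne
      by_cases hf : Φ.forest e' τ w
      · rcases hf with hf | hf
        · exact absurd hf.2.symm hne
        · have h1 := Φ.par_lt τ _ hf.1
          rw [hf.2, cancel] at h1
          have h2 := Φ.rk_le τ (w * ge e')
          have h4 := ih τ (w * ge e') (by omega) hf.1
          rw [hf.2] at h4
          have h5 := Ysymm _ _ _ h4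
          rwa [cancel] at h5
      · exact nf e' τ w he' hf
  have allY : ∀ e τ w, X.et e τ → Y e τ w := by
    intro e τ w he
    by_cases hf : Φ.forest e τ w
    · rcases hf with hf | hf
      · have := main _ τ w le_rfl hf.1
        rwa [hf.2] at this
      · have := main _ τ (w * ge e) le_rfl hf.1
        rw [hf.2] at this
        have h5 := Ysymm _ _ _ this
        rwa [cancel] at h5
    · exact nf e τ w he hf
  have hδ : ∀ w, δ w = 1 := by
    intro w
    by_cases h : ∀ τ, ¬ Φ.root τ w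
    · exact hK3 w h
    · push Not at h
      obtain ⟨τ, hr⟩ := h
      have hw := Φ.root_ev τ w hr
      have hRw := hR τ w
      rw [Yev _ τ w hw (X.et_x τ) (allY _ τ w (X.et_x τ)),
        Yev _ τ w hw (X.et_y τ) (allY _ τ w (X.et_y τ)),
        Yev _ τ w hw (X.et_z τ) (allY _ τ w (X.et_z τ)), ← zpow_neg, ← zpow_neg, ← zpow_neg,
        ← zpow_add] at hRw
      have hB := Φ.bw_root τ w hr
      have h1 : δ w ^ (-Φ.bw (X.x τ) w + -Φ.bw (X.y τ) w) * δ w ^ (Φ.bw (X.z τ) w) = 1 := by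
        rw [hRw, ← zpow_add, neg_add_cancel, zpow_zero]
      rw [← zpow_add] at h1
      have h2 : -Φ.bw (X.x τ) w + -Φ.bw (X.y τ) w + Φ.bw (X.z τ) w = -1 := by linarith
      rw [h2] at h1
      simpa using h1
  refine ⟨hδ, ?_⟩
  intro e τ w he
  have : z e τ w = 1 := by
    by_cases hw : Φ.ev w = true
    · rw [Yev e τ w hw he (allY e τ w he), hδ w, one_zpow, inv_one]
    · have hw' : Φ.ev w = false := by simpa using hw
      exact (Yodd e τ w hw').1 (allY e τ w he)
  rw [hz] at this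
  exact mul_inv_eq_one.1 this

end Elim

end Pool.Agent.EG11
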