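import Pool.Agent.EG11.Core

/-! Flat labellings are potentials. -/

namespace Pool.Agent.EG11

section CoreB

variable {P E T : Type} {X : Cx P E T} {W : Type} [Group W] {gen : P ⊕ E ⊕ T → W}
variable {A : Type} [Group A]

/-- The generators attached to vertices, edges and triangles. -/
abbrev gp (gen : P ⊕ E ⊕ T → W) (p : P) : W := gen (Sum.inl p)
abbrev ge (gen : P ⊕ E ⊕ T → W) (e : E) : W := gen (Sum.inr (Sum.inl e))
abbrev gt (gen : P ⊕ E ⊕ T → W) (τ : T) : W := gen (Sum.inr (Sum.inr τ))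

theorem coreB (R : RAC gen X.adj) (Φ : Frs X (ge gen))
    (β : P → W → A) (μ ν : P → T → W → A) (gP : P → E → W → A) (gT : T → E → W → A)
    (gM : P → E → T → W → A) (δ : W → A)
    (μp : ∀ p τ w, X.pt p τ → μ p τ (w * gp gen p) = μ p τ w)
    (νt : ∀ p τ w, X.pt p τ → ν p τ (w * gt gen τ) = ν p τ w)
    (gPp : ∀ p e w, X.pe p e → gP p e (w * gp gen p) = gP p e w)
    (gPe : ∀ p e w, X.pe p e → gP p e w * gP p e (w * ge gen e) = 1)
    (gTt : ∀ τ e w, X.et e τ → gT τ e (w * gt gen τ) = gT τ e w)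
    (S1 : ∀ p e τ w, X.pe p e → X.et e τ →
      μ p τ w * gM p e τ w = gP p e w * μ p τ (w * ge gen e))
    (S2 : ∀ p e τ w, X.pe p e → X.et e τ →
      ν p τ w * gM p e τ w = gT τ e w * ν p τ (w * ge gen e))
    (hK1 : ∀ e w, Φ.ev w = true →
      β (X.t e) w * gP (X.t e) e w * (β (X.t e) (w * ge gen e))⁻¹ *
      (β (X.s e) w * gP (X.s e) e w * (β (X.s e) (w * ge gen e))⁻¹)⁻¹ = δ w ^ Φ.bw e w)
    (hK2 : ∀ e τ w, Φ.ev w = false → X.et e τ → ¬ Φ.forest e τ w →
      β (X.s e) w * μ (X.s e) τ w * (ν (X.s e) τ w)⁻¹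
        = β (X.t e) w * μ (X.t e) τ w * (ν (X.t e) τ w)⁻¹)
    (hK3 : ∀ w, (∀ τ, ¬ Φ.root τ w) → δ w = 1) :
    ∃ (fb : W → A) (fP : P → W → A) (fT : T → W → A) (fM : P → T → W → A),
      (∀ p w, fP p (w * gp gen p) = fP p w) ∧
      (∀ τ w, fT τ (w * gt gen τ) = fT τ w) ∧
      (∀ p τ w, X.pt p τ → fM p τ (w * gp gen p) = fM p τ w) ∧
      (∀ p τ w, X.pt p τ → fM p τ (w * gt gen τ) = fM p τ w) ∧
      (∀ p w, fP p w = fb w * β p w) ∧
      (∀ p τ w, X.pt p τ → fM p τ w = fP p w * μ p τ w) ∧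
      (∀ p τ w, X.pt p τ → fM p τ w = fT τ w * ν p τ w) ∧
      (∀ p e w, X.pe p e → fP p (w * ge gen e) = fP p w * gP p e w) ∧
      (∀ τ e w, X.et e τ → fT τ (w * ge gen e) = fT τ w * gT τ e w) ∧
      (∀ p e τ w, X.pe p e → X.et e τ → fM p τ (w * ge gen e) = fM p τ w * gM p e τ w) ∧
      (∀ w, δ w = 1) := by
  have sq : ∀ s, gen s * gen s = 1 := R.sq
  have cancel : ∀ (w : W) s, w * gen s * gen s = w := fun w s => by
    rw [mul_assoc, R.sq, mul_one]
  have swap : ∀ (w : W) s s', X.adj s s' → w * gen s * gen s' = w * gen s' * gen s :=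
    fun w s s' h => by rw [mul_assoc, mul_assoc, R.comm s s' h]
  have cpe : ∀ (w : W) p e, X.pe p e → w * gp gen p * ge gen e = w * ge gen e * gp gen p :=
    fun w p e h => swap w _ _ h
  have cet : ∀ (w : W) e τ, X.et e τ → w * ge gen e * gt gen τ = w * gt gen τ * ge gen e :=
    fun w e τ h => swap w _ _ h
  have cpt : ∀ (w : W) p τ, X.pt p τ → w * gp gen p * gt gen τ = w * gt gen τ * gp gen p :=
    fun w p τ h => swap w _ _ h
  let ζ : P → T → W → A := fun p τ w => β p w * μ p τ w * (ν p τ w)⁻¹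
  let g : P → E → W → A := fun p e w => β p w * gP p e w * (β p (w * ge gen e))⁻¹
  have hζ : ∀ p τ w, ζ p τ w = β p w * μ p τ w * (ν p τ w)⁻¹ := fun _ _ _ => rfl
  have hg : ∀ p e w, g p e w = β p w * gP p e w * (β p (w * ge gen e))⁻¹ := fun _ _ _ => rfl
  have hC : ∀ p e τ w, X.pe p e → X.et e τ →
      g p e w * ζ p τ (w * ge gen e) = ζ p τ w * gT τ e w := by
    intro p e τ w h1 h2
    have s1 := S1 p e τ w h1 h2
    have s2 := S2 p e τ w h1 h2
    have e1 : μ p τ (w * ge gen e) = (gP p e w)⁻¹ * (μ p τ w * gM p e τ w) := by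
      rw [s1]; group
    have e2 : gT τ e w = ν p τ w * gM p e τ w * (ν p τ (w * ge gen e))⁻¹ := by
      rw [s2]; group
    rw [hg, hζ, hζ, e1, e2]
    group
  obtain ⟨hδ, hz⟩ := elim Φ (fun e => sq _) ζ g gT δ hC hK1 hK2 hK3
  have hζa : ∀ p τ w, X.pt p τ → ζ p τ w = ζ (X.a τ) τ w := by
    intro p τ w h
    have h1 := hz (X.x τ) τ w (X.et_x τ)
    have h2 := hz (X.y τ) τ w (X.et_y τ)
    rw [X.sx, X.tx] at h1
    rw [X.sy, X.ty] at h2
    rcases h with rfl | rfl | rfl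
    · rfl
    · exact h1.symm
    · rw [← h2, h1]
  have hgg : ∀ p e w, X.pe p e → g p e w = g (X.s e) e w := by
    intro p e w h
    have key : g (X.t e) e w = g (X.s e) e w := by
      by_cases hw : Φ.ev w = true
      · have := hK1 e w hw
        rw [hδ w, one_zpow] at this
        exact mul_inv_eq_one.1 this
      · have hw' : Φ.ev w = false := by simpa using hw
        have h2 : Φ.ev (w * ge gen e) = true := by rw [Φ.ev_e, hw']; rfl
        have := hK1 e (w * ge gen e) h2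
        rw [hδ, one_zpow] at this
        have h3 := mul_inv_eq_one.1 this
        have e1 : ∀ p, X.pe p e → g p e w = (g p e (w * ge gen e))⁻¹ := by
          intro p hp
          have := gPe p e w hp
          have h5 : gP p e (w * ge gen e) = (gP p e w)⁻¹ := (inv_eq_of_mul_eq_one_right this).symm
          rw [hg, hg, cancel, h5]
          group
        rw [e1 _ (X.pe_t e), e1 _ (X.pe_s e)]
        congr 1
    rcases h with rfl | rfl
    · rfl
    · exact key
  -- the crossing holonomies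
  let h : W → P ⊕ E ⊕ T → A := fun w s => match s with
    | Sum.inl p => β p w * (β p (w * gp gen p))⁻¹
    | Sum.inr (Sum.inl e) => g (X.s e) e w
    | Sum.inr (Sum.inr τ) => ζ (X.a τ) τ w * (ζ (X.a τ) τ (w * gt gen τ))⁻¹
  have hp : ∀ w p, h w (Sum.inl p) = β p w * (β p (w * gp gen p))⁻¹ := fun _ _ => rfl
  have he : ∀ w e, h w (Sum.inr (Sum.inl e)) = g (X.s e) e w := fun _ _ => rfl
  have ht : ∀ w τ, h w (Sum.inr (Sum.inr τ)) = ζ (X.a τ) τ w * (ζ (X.a τ) τ (w * gt gen τ))⁻¹ :=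
    fun _ _ => rfl
  have he' : ∀ w p e, X.pe p e → h w (Sum.inr (Sum.inl e)) = g p e w :=
    fun w p e hpe => by rw [he, hgg p e w hpe]
  have ht' : ∀ w p τ, X.pt p τ → h w (Sum.inr (Sum.inr τ))
      = ζ p τ w * (ζ p τ (w * gt gen τ))⁻¹ :=
    fun w p τ hpt => by rw [ht, hζa p τ w hpt, hζa p τ _ hpt]
  have c1 : ∀ w p e, X.pe p e → h w (Sum.inl p) * h (w * gp gen p) (Sum.inr (Sum.inl e))
      = h w (Sum.inr (Sum.inl e)) * h (w * ge gen e) (Sum.inl p) := by
    intro w p e hpe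
    rw [he' _ p e hpe, he' _ p e hpe, hp, hp, hg, hg, gPp p e w hpe, cpe w p e hpe]
    group
  have c2 : ∀ w e τ, X.et e τ → h w (Sum.inr (Sum.inl e)) * h (w * ge gen e) (Sum.inr (Sum.inr τ))
      = h w (Sum.inr (Sum.inr τ)) * h (w * gt gen τ) (Sum.inr (Sum.inl e)) := by
    intro w e τ het
    have hpt := X.pt_of (X.pe_s e) het
    rw [ht' _ (X.s e) τ hpt, ht' _ (X.s e) τ hpt, he, he]
    have k1 := hC (X.s e) e τ w (X.pe_s e) het
    have k2 := hC (X.s e) e τ (w * gt gen τ) (X.pe_s e) het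
    rw [gTt τ e w het] at k2
    have e1 : g (X.s e) e w = ζ (X.s e) τ w * gT τ e w * (ζ (X.s e) τ (w * ge gen e))⁻¹ := by
      rw [← k1]; group
    have e2 : g (X.s e) e (w * gt gen τ)
        = ζ (X.s e) τ (w * gt gen τ) * gT τ e w * (ζ (X.s e) τ (w * gt gen τ * ge gen e))⁻¹ := by
      rw [← k2]; group
    rw [e1, e2, cet w e τ het]
    group
  have c3 : ∀ w p τ, X.pt p τ → h w (Sum.inl p) * h (w * gp gen p) (Sum.inr (Sum.inr τ))
      = h w (Sum.inr (Sum.inr τ)) * h (w * gt gen τ) (Sum.inl p) := by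
    intro w p τ hpt
    rw [ht' _ p τ hpt, ht' _ p τ hpt, hp, hp, hζ, hζ, hζ, hζ]
    rw [μp p τ w hpt, ← cpt w p τ hpt, νt p τ (w * gp gen p) hpt, νt p τ w hpt]
    have : μ p τ (w * gp gen p * gt gen τ) = μ p τ (w * gt gen τ) := by
      rw [cpt w p τ hpt, μp p τ _ hpt]
    rw [this]
    group
  obtain ⟨F, hF⟩ := pot R Set.univ h (by
    rintro w (p | e | τ) -
    · show h w (Sum.inl p) * h (w * gp gen p) (Sum.inl p) = 1
      rw [hp, hp, cancel]; group
    · show h w (Sum.inr (Sum.inl e)) * h (w * ge gen e) (Sum.inr (Sum.inl e)) = 1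
      rw [he, he, hg, hg, cancel]
      have := gPe (X.s e) e w (X.pe_s e)
      have h5 : gP (X.s e) e (w * ge gen e) = (gP (X.s e) e w)⁻¹ :=
        (inv_eq_of_mul_eq_one_right this).symm
      rw [h5]; group
    · show h w (Sum.inr (Sum.inr τ)) * h (w * gt gen τ) (Sum.inr (Sum.inr τ)) = 1
      rw [ht, ht, cancel]; group) (by
    rintro w (p | e | τ) - (p' | e' | τ') - hadj
    · exact hadj.elim
    · exact c1 w p e' hadj
    · exact c3 w p τ' hadj
    · exact (c1 w p' e hadj).symm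
    · exact hadj.elim
    · exact c2 w e τ' hadj
    · exact (c3 w p' τ hadj).symm
    · exact (c2 w e' τ hadj).symm
    · exact hadj.elim)
  have Fp : ∀ w p, F (w * gp gen p) = F w * (β p w * (β p (w * gp gen p))⁻¹) :=
    fun w p => hF w (Sum.inl p) trivial
  have Fe : ∀ w e p, X.pe p e → F (w * ge gen e) = F w * g p e w :=
    fun w e p hpe => by rw [hgg p e w hpe]; exact hF w (Sum.inr (Sum.inl e)) trivial
  have Ft : ∀ w τ, F (w * gt gen τ) = F w * (ζ (X.a τ) τ w * (ζ (X.a τ) τ (w * gt gen τ))⁻¹) :=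
    fun w τ => hF w (Sum.inr (Sum.inr τ)) trivial
  have a1 : ∀ p w, F (w * gp gen p) * β p (w * gp gen p) = F w * β p w := by
    intro p w; rw [Fp]; group
  have a2 : ∀ τ w, F (w * gt gen τ) * ζ (X.a τ) τ (w * gt gen τ) = F w * ζ (X.a τ) τ w := by
    intro τ w; rw [Ft]; group
  have a3 : ∀ p τ w, X.pt p τ → F w * β p w * μ p τ w = F w * ζ (X.a τ) τ w * ν p τ w := by
    intro p τ w hpt
    rw [← hζa p τ w hpt, hζ]; group
  refine ⟨F, fun p w => F w * β p w, fun τ w => F w * ζ (X.a τ) τ w,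
    fun p τ w => F w * β p w * μ p τ w, a1, a2, ?_, ?_, fun _ _ => rfl, fun _ _ _ _ => rfl,
    a3, ?_, ?_, ?_, hδ⟩
  · intro p τ w hpt
    show F (w * gp gen p) * β p (w * gp gen p) * μ p τ (w * gp gen p) = F w * β p w * μ p τ w
    rw [a1, μp p τ w hpt]
  · intro p τ w hpt
    show F (w * gt gen τ) * β p (w * gt gen τ) * μ p τ (w * gt gen τ) = F w * β p w * μ p τ w
    rw [a3 p τ _ hpt, a2, νt p τ w hpt, a3 p τ w hpt]
  · intro p e w hpe
    show F (w * ge gen e) * β p (w * ge gen e) = F w * β p w * gP p e w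
    rw [Fe w e p hpe, hg]; group
  · intro τ e w het
    show F (w * ge gen e) * ζ (X.a τ) τ (w * ge gen e) = F w * ζ (X.a τ) τ w * gT τ e w
    have hpt := X.pt_of (X.pe_s e) het
    rw [← hζa _ τ _ hpt, ← hζa _ τ w hpt, Fe w e _ (X.pe_s e), mul_assoc,
      hC (X.s e) e τ w (X.pe_s e) het]
    group
  · intro p e τ w hpe het
    show F (w * ge gen e) * β p (w * ge gen e) * μ p τ (w * ge gen e)
      = F w * β p w * μ p τ w * gM p e τ w
    have s1 := S1 p e τ w hpe het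
    rw [Fe w e p hpe, hg]
    have : F w * β p w * μ p τ w * gM p e τ w = F w * β p w * (μ p τ w * gM p e τ w) := by group
    rw [this, s1]; group

end CoreB

end Pool.Agent.EG11
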