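import Pool.Agent.EG11.CoreB

/-! Second cohomology: the inhomogeneous system is solvable. -/

namespace Pool.Agent.EG11

section CoreC

variable {P E T : Type} {X : Cx P E T} {W : Type} [Group W] {gen : P ⊕ E ⊕ T → W}

/-- The inhomogeneous linear system. -/
structure IsSol (Φ : Frs X (ge gen)) (φ1 φ2 : P → E → T → W → ℤ) (φ3 : E → W → ℤ)
    (φ4 : E → T → W → ℤ) (φ5 : W → ℤ)
    (β : P → W → ℤ) (μ ν : P → T → W → ℤ) (gP : P → E → W → ℤ) (gT : T → E → W → ℤ)
    (gM : P → E → T → W → ℤ) (δ : W → ℤ) : Prop where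
  gPe : ∀ p e w, X.pe p e → gP p e (w * ge gen e) = - gP p e w
  gTe : ∀ τ e w, X.et e τ → gT τ e (w * ge gen e) = - gT τ e w
  gMe : ∀ p e τ w, X.pe p e → X.et e τ → gM p e τ (w * ge gen e) = - gM p e τ w
  S1 : ∀ p e τ w, X.pe p e → X.et e τ →
      μ p τ w + gM p e τ w - μ p τ (w * ge gen e) - gP p e w = φ1 p e τ w
  S2 : ∀ p e τ w, X.pe p e → X.et e τ →
      ν p τ w + gM p e τ w - ν p τ (w * ge gen e) - gT τ e w = φ2 p e τ w
  K1 : ∀ e w, Φ.ev w = true →
      (β (X.t e) w + gP (X.t e) e w - β (X.t e) (w * ge gen e)) -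
      (β (X.s e) w + gP (X.s e) e w - β (X.s e) (w * ge gen e)) - Φ.bw e w * δ w = φ3 e w
  K2 : ∀ e τ w, Φ.ev w = false → X.et e τ → ¬ Φ.forest e τ w →
      (β (X.s e) w + μ (X.s e) τ w - ν (X.s e) τ w)
        - (β (X.t e) w + μ (X.t e) τ w - ν (X.t e) τ w) = φ4 e τ w
  K3 : ∀ w, (∀ τ, ¬ Φ.root τ w) → δ w = φ5 w

/-- Recursive solution along the spanning forests. -/
theorem solveForest (sq : ∀ e, ge gen e * ge gen e = 1) (Φ : Frs X (ge gen))
    (φ4 : E → T → W → ℤ) (rhs : T → W → ℤ) :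
    ∃ y : E → T → W → ℤ,
      (∀ e τ w, X.et e τ → y e τ (w * ge gen e) = y e τ w) ∧
      (∀ e τ w, Φ.ev w = false → X.et e τ → ¬ Φ.forest e τ w → y e τ w = φ4 e τ w) ∧
      (∀ τ w, ¬ Φ.root τ w → y (X.x τ) τ w + y (X.y τ) τ w - y (X.z τ) τ w = rhs τ w) := by
  classical
  have cancel : ∀ (w : W) e, w * ge gen e * ge gen e = w := fun w e => by
    rw [mul_assoc, sq, mul_one]
  let yF : (T → W → ℤ) → E → T → W → ℤ := fun Y e τ w =>
    if ¬ Φ.root τ w ∧ Φ.par τ w = e then Y τ w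
    else if ¬ Φ.root τ (w * ge gen e) ∧ Φ.par τ (w * ge gen e) = e then Y τ (w * ge gen e)
    else if Φ.ev w = true then φ4 e τ (w * ge gen e) else φ4 e τ w
  have y1 : ∀ Y e τ w, ¬ Φ.root τ w → Φ.par τ w = e → yF Y e τ w = Y τ w := by
    intro Y e τ w h1 h2
    simp only [yF, h1, h2, not_false_eq_true, and_self, if_true]
  have y2 : ∀ Y e τ w, ¬ (¬ Φ.root τ w ∧ Φ.par τ w = e) →
      ¬ Φ.root τ (w * ge gen e) → Φ.par τ (w * ge gen e) = e →
      yF Y e τ w = Y τ (w * ge gen e) := by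
    intro Y e τ w h0 h1 h2
    simp only [yF]
    rw [if_neg h0, if_pos ⟨h1, h2⟩]
  have y3 : ∀ Y e τ w, ¬ Φ.forest e τ w →
      yF Y e τ w = if Φ.ev w = true then φ4 e τ (w * ge gen e) else φ4 e τ w := by
    intro Y e τ w h0
    simp only [yF]
    rw [if_neg (fun h => h0 (Or.inl h)), if_neg (fun h => h0 (Or.inr h))]
  -- solving the equation of `w` for the letter of the parent edge
  let sol : (T → W → ℤ) → T → W → ℤ := fun Y τ w =>
    if Φ.par τ w = X.x τ then rhs τ w - yF Y (X.y τ) τ w + yF Y (X.z τ) τ w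
    else if Φ.par τ w = X.y τ then rhs τ w - yF Y (X.x τ) τ w + yF Y (X.z τ) τ w
    else yF Y (X.x τ) τ w + yF Y (X.y τ) τ w - rhs τ w
  have step : ∀ n, ∃ Y : T → W → ℤ, ∀ τ w, ¬ Φ.root τ w → Φ.bd - Φ.rk τ w < n →
      yF Y (X.x τ) τ w + yF Y (X.y τ) τ w - yF Y (X.z τ) τ w = rhs τ w := by
    intro n
    induction n with
    | zero => exact ⟨fun _ _ => 0, fun τ w _ h => absurd h (by omega)⟩
    | succ n ih =>
      obtain ⟨Y, hY⟩ := ih
      let Y' : T → W → ℤ := fun τ w => if Φ.bd - Φ.rk τ w = n then sol Y τ w else Y τ w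
      have hlow : ∀ τ w, Φ.bd - Φ.rk τ w ≠ n → Y' τ w = Y τ w := by
        intro τ w h; simp only [Y', h, if_false]
      have hat : ∀ τ w, Φ.bd - Φ.rk τ w = n → Y' τ w = sol Y τ w := by
        intro τ w h; simp only [Y', h, if_true]
      -- letters of other edges do not change
      have hother : ∀ e τ w, Φ.bd - Φ.rk τ w ≤ n → ¬ Φ.root τ w → Φ.par τ w ≠ e →
          yF Y' e τ w = yF Y e τ w := by
        intro e τ w hle hr hpar
        by_cases hf : Φ.forest e τ w
        · rcases hf with hf | hf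
          · exact absurd hf.2 hpar
          · rw [y2 Y' e τ w (fun h => hpar h.2) hf.1 hf.2, y2 Y e τ w (fun h => hpar h.2) hf.1 hf.2]
            apply hlow
            have h1 := Φ.par_lt τ _ hf.1
            rw [hf.2, cancel] at h1
            have h2 := Φ.rk_le τ (w * ge gen e)
            omega
        · rw [y3 Y' e τ w hf, y3 Y e τ w hf]
      refine ⟨Y', ?_⟩
      intro τ w hr hlt
      have hne := Φ.par_mem τ w hr
      by_cases hn : Φ.bd - Φ.rk τ w = n
      · rcases hne with hp | hp | hp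
        · rw [y1 Y' (X.x τ) τ w hr hp, hat τ w hn, hother (X.y τ) τ w hn.le hr
            (by rw [hp]; exact X.xy τ), hother (X.z τ) τ w hn.le hr (by rw [hp]; exact X.xz τ)]
          simp only [sol, hp, if_true]; ring
        · rw [y1 Y' (X.y τ) τ w hr hp, hat τ w hn, hother (X.x τ) τ w hn.le hr
            (by rw [hp]; exact (X.xy τ).symm), hother (X.z τ) τ w hn.le hr
            (by rw [hp]; exact X.yz τ)]
          simp only [sol, hp, (X.xy τ).symm, if_true, if_false]; ring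
        · rw [y1 Y' (X.z τ) τ w hr hp, hat τ w hn, hother (X.x τ) τ w hn.le hr
            (by rw [hp]; exact (X.xz τ).symm), hother (X.y τ) τ w hn.le hr
            (by rw [hp]; exact (X.yz τ).symm)]
          simp only [sol, hp, (X.xz τ).symm, (X.yz τ).symm, if_false]; ring
      · have hlt' : Φ.bd - Φ.rk τ w < n := by omega
        have := hY τ w hr hlt'
        have e1 : ∀ e, yF Y' e τ w = yF Y e τ w := by
          intro e
          by_cases hpe : Φ.par τ w = e
          · rw [y1 Y' e τ w hr hpe, y1 Y e τ w hr hpe, hlow τ w hn]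
          · exact hother e τ w hlt'.le hr hpe
        rw [e1, e1, e1]; exact this
  obtain ⟨Y, hY⟩ := step (Φ.bd + 1)
  refine ⟨yF Y, ?_, ?_, ?_⟩
  · intro e τ w _
    by_cases h1 : ¬ Φ.root τ w ∧ Φ.par τ w = e
    · rw [y1 Y e τ w h1.1 h1.2]
      have h2 : ¬ (¬ Φ.root τ (w * ge gen e) ∧ Φ.par τ (w * ge gen e) = e) := by
        rintro ⟨h3, h4⟩
        have k1 := Φ.par_lt τ _ h1.1
        have k2 := Φ.par_lt τ _ h3
        rw [h4, cancel] at k2
        rw [h1.2] at k1
        omega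
      have h3 : ¬ Φ.root τ (w * ge gen e * ge gen e) := by rw [cancel]; exact h1.1
      have h4 : Φ.par τ (w * ge gen e * ge gen e) = e := by rw [cancel]; exact h1.2
      rw [y2 Y e τ (w * ge gen e) h2 h3 h4, cancel]
    · by_cases h2 : ¬ Φ.root τ (w * ge gen e) ∧ Φ.par τ (w * ge gen e) = e
      · rw [y1 Y e τ (w * ge gen e) h2.1 h2.2, y2 Y e τ w h1 h2.1 h2.2]
      · have hf : ¬ Φ.forest e τ w := fun h => h.elim h1 h2
        have hf' : ¬ Φ.forest e τ (w * ge gen e) := by
          rintro (h | h)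
          · exact h2 h
          · rw [cancel] at h; exact h1 h
        rw [y3 Y e τ w hf, y3 Y e τ _ hf', Φ.ev_e, cancel]
        by_cases hw : Φ.ev w = true
        · simp [hw]
        · have hw' : Φ.ev w = false := by simpa using hw
          simp [hw']
  · intro e τ w hw _ hf
    rw [y3 Y e τ w hf, hw]
    simp
  · intro τ w hr
    exact hY τ w hr (by omega)

theorem solve0 (R : RAC gen X.adj) (Φ : Frs X (ge gen))
    (hru : ∀ τ τ' w, Φ.root τ w → Φ.root τ' w → τ = τ')
    (φ1 φ2 : P → E → T → W → ℤ) (φ3 : E → W → ℤ)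
    (φ4 : E → T → W → ℤ) (φ5 : W → ℤ)
    (e1 : ∀ p e τ w, X.pe p e → X.et e τ → φ1 p e τ (w * ge gen e) = - φ1 p e τ w)
    (e2 : ∀ p e τ w, X.pe p e → X.et e τ → φ2 p e τ (w * ge gen e) = - φ2 p e τ w) :
    ∃ (β : P → W → ℤ) (μ ν : P → T → W → ℤ) (gP : P → E → W → ℤ) (gT : T → E → W → ℤ)
      (gM : P → E → T → W → ℤ) (δ : W → ℤ), IsSol Φ φ1 φ2 φ3 φ4 φ5 β μ ν gP gT gM δ := by
  classical
  have sq : ∀ e, ge gen e * ge gen e = 1 := fun e => R.sq _
  have cancel : ∀ (w : W) e, w * ge gen e * ge gen e = w := fun w e => by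
    rw [mul_assoc, sq, mul_one]
  let ψ : E → T → W → ℤ := fun e τ w =>
    (φ2 (X.s e) e τ w - φ1 (X.s e) e τ w) - (φ2 (X.t e) e τ w - φ1 (X.t e) e τ w)
  have hψ : ∀ e τ w, X.et e τ → ψ e τ (w * ge gen e) = - ψ e τ w := by
    intro e τ w h
    simp only [ψ]
    rw [e1 _ e τ w (X.pe_s e) h, e1 _ e τ w (X.pe_t e) h, e2 _ e τ w (X.pe_s e) h,
      e2 _ e τ w (X.pe_t e) h]
    ring
  let rhs : T → W → ℤ := fun τ w => if Φ.ev w = true then
    (φ3 (X.x τ) w + ψ (X.x τ) τ w) + (φ3 (X.y τ) w + ψ (X.y τ) τ w)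
      - (φ3 (X.z τ) w + ψ (X.z τ) τ w) else 0
  obtain ⟨y, yE, yN, yR⟩ := solveForest sq Φ φ4 rhs
  let δ : W → ℤ := fun w => if h : ∃ τ, Φ.root τ w then
    (y (X.x h.choose) h.choose w + y (X.y h.choose) h.choose w - y (X.z h.choose) h.choose w)
      - rhs h.choose w else φ5 w
  have hδ : ∀ τ w, Φ.root τ w → δ w = (y (X.x τ) τ w + y (X.y τ) τ w - y (X.z τ) τ w)
      - rhs τ w := by
    intro τ w h
    have hex : ∃ τ, Φ.root τ w := ⟨τ, h⟩
    have : hex.choose = τ := hru _ _ w hex.choose_spec h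
    simp only [δ, dif_pos hex, this]
  have hδ' : ∀ w, (∀ τ, ¬ Φ.root τ w) → δ w = φ5 w := by
    intro w h
    have hex : ¬ ∃ τ, Φ.root τ w := fun ⟨τ, hτ⟩ => h τ hτ
    simp only [δ, dif_neg hex]
  let c : E → W → ℤ := fun e w => if Φ.ev w = true then Φ.bw e w * δ w + φ3 e w
    else - (Φ.bw e (w * ge gen e) * δ (w * ge gen e) + φ3 e (w * ge gen e))
  have cev : ∀ e w, Φ.ev w = true → c e w = Φ.bw e w * δ w + φ3 e w := by
    intro e w h; simp only [c, h, if_true]
  have cE : ∀ e w, c e (w * ge gen e) = - c e w := by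
    intro e w
    by_cases hw : Φ.ev w = true
    · have h2 : Φ.ev (w * ge gen e) = false := by rw [Φ.ev_e, hw]; rfl
      simp only [c, hw, h2, if_true, cancel]
      simp
    · have hw' : Φ.ev w = false := by simpa using hw
      have h2 : Φ.ev (w * ge gen e) = true := by rw [Φ.ev_e, hw']; rfl
      simp only [c, hw', h2, if_true]
      simp
  let z : E → T → W → ℤ := fun e τ w => if Φ.ev w = true then y e τ w - c e w - ψ e τ w
    else y e τ w
  have zE : ∀ e τ w, X.et e τ → z e τ (w * ge gen e) - z e τ w = c e w + ψ e τ w := by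
    intro e τ w h
    by_cases hw : Φ.ev w = true
    · have h2 : Φ.ev (w * ge gen e) = false := by rw [Φ.ev_e, hw]; rfl
      simp only [z, hw, h2, if_true, yE e τ w h]
      simp
      ring
    · have hw' : Φ.ev w = false := by simpa using hw
      have h2 : Φ.ev (w * ge gen e) = true := by rw [Φ.ev_e, hw']; rfl
      simp only [z, hw', h2, if_true, yE e τ w h, cE, hψ e τ w h]
      simp
      ring
  have zsum : ∀ τ w, z (X.x τ) τ w + z (X.y τ) τ w = z (X.z τ) τ w := by
    intro τ w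
    by_cases hw : Φ.ev w = true
    · simp only [z, hw, if_true, cev _ w hw]
      have hrhs : rhs τ w = (φ3 (X.x τ) w + ψ (X.x τ) τ w) + (φ3 (X.y τ) w + ψ (X.y τ) τ w)
        - (φ3 (X.z τ) w + ψ (X.z τ) τ w) := by simp only [rhs, hw, if_true]
      by_cases hr : Φ.root τ w
      · have h1 := hδ τ w hr
        have h2 := Φ.bw_root τ w hr
        have h3 : Φ.bw (X.x τ) w * δ w + Φ.bw (X.y τ) w * δ w = Φ.bw (X.z τ) w * δ w + δ w := by
          rw [← add_mul, h2]; ring
        linarith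
      · have h1 := yR τ w hr
        have h2 := Φ.bw_not τ w hr
        have h3 : Φ.bw (X.x τ) w * δ w + Φ.bw (X.y τ) w * δ w = Φ.bw (X.z τ) w * δ w := by
          rw [← add_mul, h2]
        linarith
    · have hw' : Φ.ev w = false := by simpa using hw
      have hr : ¬ Φ.root τ w := fun h => by
        have := Φ.root_ev τ w h; rw [hw'] at this; exact absurd this (by simp)
      have h1 := yR τ w hr
      simp only [z, hw', rhs] at h1 ⊢
      simp at h1 ⊢
      linarith
  let μ : P → T → W → ℤ := fun p τ w => if p = X.a τ then z (X.z τ) τ w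
    else if p = X.b τ then z (X.y τ) τ w else 0
  have μa : ∀ τ w, μ (X.a τ) τ w = z (X.z τ) τ w := fun τ w => by simp only [μ, if_true]
  have μb : ∀ τ w, μ (X.b τ) τ w = z (X.y τ) τ w := fun τ w => by
    simp only [μ, (X.ab τ).symm, if_false, if_true]
  have μc : ∀ τ w, μ (X.c τ) τ w = 0 := fun τ w => by
    simp only [μ, (X.ac τ).symm, (X.bc τ).symm, if_false]
  have μz : ∀ e τ w, X.et e τ → μ (X.s e) τ w - μ (X.t e) τ w = z e τ w := by
    intro e τ w h
    have h0 := zsum τ w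
    rcases h with rfl | rfl | rfl
    · rw [X.sx, X.tx, μa, μb]; linarith
    · rw [X.sy, X.ty, μb, μc]; linarith
    · rw [X.sz, X.tz, μa, μc]; linarith
  let gP : P → E → W → ℤ := fun p e w => if p = X.t e then c e w else 0
  have gPt : ∀ e w, gP (X.t e) e w = c e w := fun e w => by simp only [gP, if_true]
  have gPs : ∀ e w, gP (X.s e) e w = 0 := fun e w => by simp only [gP, X.st e, if_false]
  let gT : T → E → W → ℤ := fun τ e w => - μ (X.s e) τ w + μ (X.s e) τ (w * ge gen e)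
    + φ1 (X.s e) e τ w - φ2 (X.s e) e τ w
  have gT' : ∀ p e τ w, X.pe p e → X.et e τ → gT τ e w = gP p e w - μ p τ w
      + μ p τ (w * ge gen e) + φ1 p e τ w - φ2 p e τ w := by
    intro p e τ w hp he
    rcases hp with rfl | rfl
    · rw [gPs]; simp only [gT]; ring
    · rw [gPt]; simp only [gT]
      have h1 := μz e τ w he
      have h2 := μz e τ (w * ge gen e) he
      have h3 := zE e τ w he
      simp only [ψ] at h3
      linarith
  refine ⟨fun _ _ => 0, μ, fun _ _ _ => 0, gP, gT, fun p e τ w => gT τ e w + φ2 p e τ w, δ,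
    ?_, ?_, ?_, ?_, ?_, ?_, ?_, ?_⟩
  · intro p e w _
    simp only [gP]
    split_ifs
    · exact cE e w
    · simp
  · intro τ e w h
    simp only [gT]
    rw [cancel, e1 _ e τ w (X.pe_s e) h, e2 _ e τ w (X.pe_s e) h]
    ring
  · intro p e τ w hp h
    show gT τ e (w * ge gen e) + φ2 p e τ (w * ge gen e) = -(gT τ e w + φ2 p e τ w)
    rw [e2 p e τ w hp h]
    simp only [gT]
    rw [cancel, e1 _ e τ w (X.pe_s e) h, e2 _ e τ w (X.pe_s e) h]
    ring
  · intro p e τ w hp h
    have := gT' p e τ w hp h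
    show μ p τ w + (gT τ e w + φ2 p e τ w) - μ p τ (w * ge gen e) - gP p e w = φ1 p e τ w
    linarith
  · intro p e τ w hp h
    show 0 + (gT τ e w + φ2 p e τ w) - 0 - gT τ e w = φ2 p e τ w
    ring
  · intro e w hw
    show (0 + gP (X.t e) e w - 0) - (0 + gP (X.s e) e w - 0) - Φ.bw e w * δ w = φ3 e w
    rw [gPt, gPs, cev e w hw]; ring
  · intro e τ w hw he hf
    show (0 + μ (X.s e) τ w - 0) - (0 + μ (X.t e) τ w - 0) = φ4 e τ w
    have h1 := μz e τ w he
    have h2 : z e τ w = y e τ w := by simp only [z, hw]; simp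
    have h3 := yN e τ w hw he hf
    linarith
  · exact hδ'

end CoreC

end Pool.Agent.EG11
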