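import Pool.Agent.EG11.CoreC

/-! Making the solutions invariant under the vertex and triangle generators. -/

namespace Pool.Agent.EG11

section CoreD

variable {P E T : Type} {X : Cx P E T} {W : Type} [Group W] {gen : P ⊕ E ⊕ T → W}

/-- Additive version of `pot` with integer values. -/
theorem potZ {S W : Type} [Group W] {gen : S → W} {adj : S → S → Prop}
    (R : RAC gen adj) (J : Set S) (h : W → S → ℤ)
    (h1 : ∀ w, ∀ s ∈ J, h w s + h (w * gen s) s = 0)
    (h2 : ∀ w, ∀ s ∈ J, ∀ s' ∈ J, adj s s' →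
      h w s + h (w * gen s) s' = h w s' + h (w * gen s') s) :
    ∃ F : W → ℤ, ∀ w, ∀ s ∈ J, F (w * gen s) = F w + h w s := by
  obtain ⟨F, hF⟩ := pot (A := Multiplicative ℤ) R J (fun w s => Multiplicative.ofAdd (h w s))
    (fun w s hs => by rw [← ofAdd_add, h1 w s hs]; rfl)
    (fun w s hs s' hs' ha => by rw [← ofAdd_add, ← ofAdd_add, h2 w s hs s' hs' ha])
  refine ⟨fun w => (F w).toAdd, fun w s hs => ?_⟩
  show (F (w * gen s)).toAdd = (F w).toAdd + h w s
  rw [hF w s hs]; rfl

/-- invariance under the vertex generators -/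
structure InvP (X : Cx P E T) (gen : P ⊕ E ⊕ T → W) (μ : P → T → W → ℤ) (gP : P → E → W → ℤ)
    (gM : P → E → T → W → ℤ) : Prop where
  μ : ∀ p τ w, X.pt p τ → μ p τ (w * gp gen p) = μ p τ w
  gP : ∀ p e w, X.pe p e → gP p e (w * gp gen p) = gP p e w
  gM : ∀ p e τ w, X.pe p e → X.et e τ → gM p e τ (w * gp gen p) = gM p e τ w

/-- invariance under the triangle generators -/
structure InvT (X : Cx P E T) (gen : P ⊕ E ⊕ T → W) (ν : P → T → W → ℤ) (gT : T → E → W → ℤ)
    (gM : P → E → T → W → ℤ) : Prop where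
  ν : ∀ p τ w, X.pt p τ → ν p τ (w * gt gen τ) = ν p τ w
  gT : ∀ τ e w, X.et e τ → gT τ e (w * gt gen τ) = gT τ e w
  gM : ∀ p e τ w, X.pe p e → X.et e τ → gM p e τ (w * gt gen τ) = gM p e τ w

variable {Φ : Frs X (ge gen)} {φ1 φ2 : P → E → T → W → ℤ} {φ3 : E → W → ℤ}
    {φ4 : E → T → W → ℤ} {φ5 : W → ℤ}
    {β : P → W → ℤ} {μ ν : P → T → W → ℤ} {gP : P → E → W → ℤ} {gT : T → E → W → ℤ}
    {gM : P → E → T → W → ℤ} {δ : W → ℤ}

theorem fixP (R : RAC gen X.adj) (c0 : W → Bool)
    (c0p : ∀ w p, c0 (w * gp gen p) = !c0 w) (c0e : ∀ w e, c0 (w * ge gen e) = c0 w)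
    (p1 : ∀ p e τ w, X.pe p e → X.et e τ → φ1 p e τ (w * gp gen p) = φ1 p e τ w)
    (S : IsSol Φ φ1 φ2 φ3 φ4 φ5 β μ ν gP gT gM δ) :
    ∃ (β' : P → W → ℤ) (μ' ν' : P → T → W → ℤ) (gP' : P → E → W → ℤ) (gT' : T → E → W → ℤ)
      (gM' : P → E → T → W → ℤ) (δ' : W → ℤ), IsSol Φ φ1 φ2 φ3 φ4 φ5 β' μ' ν' gP' gT' gM' δ' ∧
      InvP X gen μ' gP' gM' := by
  classical
  have cancel : ∀ (w : W) s, w * gen s * gen s = w := fun w s => by
    rw [mul_assoc, R.sq, mul_one]
  have cpe : ∀ (w : W) p e, X.pe p e → w * gp gen p * ge gen e = w * ge gen e * gp gen p :=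
    fun w p e h => by rw [mul_assoc, mul_assoc, R.comm (Sum.inl p) (Sum.inr (Sum.inl e)) h]
  have key : ∀ p, ∃ F : W → ℤ, ∀ w e, X.pe p e →
      F (w * ge gen e) = F w + (gP p e (w * gp gen p) - gP p e w) := by
    intro p
    obtain ⟨F, hF⟩ := potZ R {s | ∃ e, s = Sum.inr (Sum.inl e) ∧ X.pe p e}
      (fun w s => match s with
        | Sum.inr (Sum.inl e) => gP p e (w * gp gen p) - gP p e w
        | _ => 0) (by
      rintro w s ⟨e, rfl, he⟩
      show gP p e (w * gp gen p) - gP p e w + (gP p e (w * ge gen e * gp gen p)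
        - gP p e (w * ge gen e)) = 0
      rw [← cpe w p e he, S.gPe p e _ he, S.gPe p e _ he]; ring) (by
      rintro w s ⟨e, rfl, he⟩ s' ⟨e', rfl, he'⟩ h
      exact h.elim)
    exact ⟨F, fun w e he => hF w _ ⟨e, rfl, he⟩⟩
  choose F hF using key
  let fM : P → T → W → ℤ := fun p τ w => F p w + μ p τ (w * gp gen p) - μ p τ w
  let GP : P → W → ℤ := fun p w => if c0 w = true then - F p (w * gp gen p) else 0
  let GM : P → T → W → ℤ := fun p τ w => if c0 w = true then - fM p τ (w * gp gen p) else 0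
  -- differences of the potentials
  have hfM : ∀ p e τ w, X.pe p e → X.et e τ → fM p τ (w * ge gen e)
      = fM p τ w + (gM p e τ (w * gp gen p) - gM p e τ w) := by
    intro p e τ w hp he
    have h1 := S.S1 p e τ w hp he
    have h2 := S.S1 p e τ (w * gp gen p) hp he
    rw [p1 p e τ w hp he, cpe w p e hp] at h2
    simp only [fM]
    rw [hF p w e hp]
    linarith
  have gpc : ∀ (p : P) (w : W) (f : W → ℤ) (G : W → ℤ),
      (∀ w, c0 w = false → G w = 0) → (∀ w, c0 w = true → G w = - f (w * gp gen p)) →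
      c0 w = false → G (w * gp gen p) = - f w := by
    intro p w f G _ h2 h3
    have : c0 (w * gp gen p) = true := by rw [c0p, h3]; rfl
    rw [h2 _ this, cancel]
  -- invariance of a corrected function
  have inv : ∀ (p : P) (f : W → ℤ), (∀ w, c0 w = false → f (w * gp gen p) = f w) →
      ∀ w, f (w * gp gen p) = f w := by
    intro p f h w
    by_cases hw : c0 w = true
    · have h2 : c0 (w * gp gen p) = false := by rw [c0p, hw]; rfl
      have := h _ h2
      rw [cancel] at this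
      exact this.symm
    · exact h w (by simpa using hw)
  have GP0 : ∀ p w, c0 w = false → GP p w = 0 := fun p w h => by simp only [GP, h]; simp
  have GP1 : ∀ p w, c0 w = false → GP p (w * gp gen p) = - F p w := fun p w h => by
    have : c0 (w * gp gen p) = true := by rw [c0p, h]; rfl
    simp only [GP, this, if_true]; rw [cancel]
  have GM0 : ∀ p τ w, c0 w = false → GM p τ w = 0 := fun p τ w h => by simp only [GM, h]; simp
  have GM1 : ∀ p τ w, c0 w = false → GM p τ (w * gp gen p) = - fM p τ w := fun p τ w h => by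
    have : c0 (w * gp gen p) = true := by rw [c0p, h]; rfl
    simp only [GM, this, if_true]; rw [cancel]
  refine ⟨fun p w => β p w + GP p w, fun p τ w => μ p τ w + GM p τ w - GP p w,
    fun p τ w => ν p τ w + GM p τ w, fun p e w => gP p e w + GP p (w * ge gen e) - GP p w, gT,
    fun p e τ w => gM p e τ w + GM p τ (w * ge gen e) - GM p τ w, δ, ?_, ?_⟩
  · refine ⟨?_, S.gTe, ?_, ?_, ?_, ?_, ?_, S.K3⟩
    · intro p e w hp
      have := S.gPe p e w hp
      show gP p e (w * ge gen e) + GP p (w * ge gen e * ge gen e) - GP p (w * ge gen e)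
        = -(gP p e w + GP p (w * ge gen e) - GP p w)
      rw [cancel]; linarith
    · intro p e τ w hp he
      have := S.gMe p e τ w hp he
      show gM p e τ (w * ge gen e) + GM p τ (w * ge gen e * ge gen e) - GM p τ (w * ge gen e)
        = -(gM p e τ w + GM p τ (w * ge gen e) - GM p τ w)
      rw [cancel]; linarith
    · intro p e τ w hp he
      have := S.S1 p e τ w hp he
      linarith
    · intro p e τ w hp he
      have := S.S2 p e τ w hp he
      linarith
    · intro e w hw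
      have := S.K1 e w hw
      linarith
    · intro e τ w hw he hf
      have := S.K2 e τ w hw he hf
      linarith
  · refine ⟨?_, ?_, ?_⟩
    · intro p τ w _
      refine inv p (fun w => μ p τ w + GM p τ w - GP p w) (fun w hw => ?_) w
      show μ p τ (w * gp gen p) + GM p τ (w * gp gen p) - GP p (w * gp gen p)
        = μ p τ w + GM p τ w - GP p w
      rw [GP1 p w hw, GM1 p τ w hw, GP0 p w hw, GM0 p τ w hw]
      simp only [fM]; ring
    · intro p e w hp
      refine inv p (fun w => gP p e w + GP p (w * ge gen e) - GP p w) (fun w hw => ?_) w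
      show gP p e (w * gp gen p) + GP p (w * gp gen p * ge gen e) - GP p (w * gp gen p)
        = gP p e w + GP p (w * ge gen e) - GP p w
      have hw' : c0 (w * ge gen e) = false := by rw [c0e, hw]
      rw [cpe w p e hp, GP1 p w hw, GP1 p _ hw', GP0 p w hw, GP0 p _ hw', hF p w e hp]
      ring
    · intro p e τ w hp he
      refine inv p (fun w => gM p e τ w + GM p τ (w * ge gen e) - GM p τ w) (fun w hw => ?_) w
      show gM p e τ (w * gp gen p) + GM p τ (w * gp gen p * ge gen e) - GM p τ (w * gp gen p)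
        = gM p e τ w + GM p τ (w * ge gen e) - GM p τ w
      have hw' : c0 (w * ge gen e) = false := by rw [c0e, hw]
      rw [cpe w p e hp, GM1 p τ w hw, GM1 p τ _ hw', GM0 p τ w hw, GM0 p τ _ hw',
        hfM p e τ w hp he]
      ring

theorem fixT (R : RAC gen X.adj) (c2 : W → Bool)
    (c2t : ∀ w τ, c2 (w * gt gen τ) = !c2 w) (c2e : ∀ w e, c2 (w * ge gen e) = c2 w)
    (c2p : ∀ w p, c2 (w * gp gen p) = c2 w)
    (t2 : ∀ p e τ w, X.pe p e → X.et e τ → φ2 p e τ (w * gt gen τ) = φ2 p e τ w)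
    (S : IsSol Φ φ1 φ2 φ3 φ4 φ5 β μ ν gP gT gM δ) (I : InvP X gen μ gP gM) :
    ∃ (β' : P → W → ℤ) (μ' ν' : P → T → W → ℤ) (gP' : P → E → W → ℤ) (gT' : T → E → W → ℤ)
      (gM' : P → E → T → W → ℤ) (δ' : W → ℤ), IsSol Φ φ1 φ2 φ3 φ4 φ5 β' μ' ν' gP' gT' gM' δ' ∧
      InvP X gen μ' gP' gM' ∧ InvT X gen ν' gT' gM' := by
  classical
  have cancel : ∀ (w : W) s, w * gen s * gen s = w := fun w s => by
    rw [mul_assoc, R.sq, mul_one]
  have cpe : ∀ (w : W) p e, X.pe p e → w * gp gen p * ge gen e = w * ge gen e * gp gen p :=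
    fun w p e h => by rw [mul_assoc, mul_assoc, R.comm (Sum.inl p) (Sum.inr (Sum.inl e)) h]
  have cte : ∀ (w : W) τ e, X.et e τ → w * gt gen τ * ge gen e = w * ge gen e * gt gen τ :=
    fun w τ e h => by
      rw [mul_assoc, mul_assoc, R.comm (Sum.inr (Sum.inr τ)) (Sum.inr (Sum.inl e)) h]
  have cpt : ∀ (w : W) p τ, X.pt p τ → w * gp gen p * gt gen τ = w * gt gen τ * gp gen p :=
    fun w p τ h => by rw [mul_assoc, mul_assoc, R.comm (Sum.inl p) (Sum.inr (Sum.inr τ)) h]
  -- discrepancies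
  let κν : P → T → W → ℤ := fun p τ w => ν p τ (w * gt gen τ) - ν p τ w
  let κT : T → E → W → ℤ := fun τ e w => gT τ e (w * gt gen τ) - gT τ e w
  let κM : P → E → T → W → ℤ := fun p e τ w => gM p e τ (w * gt gen τ) - gM p e τ w
  have hκ : ∀ p e τ w, X.pe p e → X.et e τ →
      κν p τ w + κM p e τ w - κν p τ (w * ge gen e) - κT τ e w = 0 := by
    intro p e τ w hp he
    have h1 := S.S2 p e τ w hp he
    have h2 := S.S2 p e τ (w * gt gen τ) hp he
    rw [t2 p e τ w hp he, cte w τ e he] at h2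
    simp only [κν, κT, κM]
    linarith
  have hκMp : ∀ p e τ w, X.pe p e → X.et e τ → κM p e τ (w * gp gen p) = κM p e τ w := by
    intro p e τ w hp he
    simp only [κM]
    rw [cpt w p τ (X.pt_of hp he), I.gM p e τ _ hp he, I.gM p e τ _ hp he]
  have hκTe : ∀ τ e w, X.et e τ → κT τ e (w * ge gen e) = - κT τ e w := by
    intro τ e w he
    simp only [κT]
    rw [← cte w τ e he, S.gTe τ e _ he, S.gTe τ e _ he]; ring
  have key : ∀ τ, ∃ F : W → ℤ,
      (∀ w e, X.et e τ → F (w * ge gen e) = F w + κT τ e w) ∧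
      (∀ w p, X.pt p τ → F (w * gp gen p) = F w + (κν p τ w - κν p τ (w * gp gen p))) := by
    intro τ
    have hc : ∀ w p e, X.pt p τ → X.et e τ → X.pe p e →
        κν p τ w - κν p τ (w * gp gen p) + κT τ e (w * gp gen p)
          = κT τ e w + (κν p τ (w * ge gen e) - κν p τ (w * ge gen e * gp gen p)) := by
      intro w p e _ het hpe
      have h1 := hκ p e τ w hpe het
      have h2 := hκ p e τ (w * gp gen p) hpe het
      rw [hκMp p e τ w hpe het, cpe w p e hpe] at h2
      linarith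
    obtain ⟨F, hF⟩ := potZ R {s | (∃ e, s = Sum.inr (Sum.inl e) ∧ X.et e τ) ∨
        (∃ p, s = Sum.inl p ∧ X.pt p τ)}
      (fun w s => match s with
        | Sum.inr (Sum.inl e) => κT τ e w
        | Sum.inl p => κν p τ w - κν p τ (w * gp gen p)
        | _ => 0) (by
      rintro w s (⟨e, rfl, he⟩ | ⟨p, rfl, hp⟩)
      · show κT τ e w + κT τ e (w * ge gen e) = 0
        rw [hκTe τ e w he]; ring
      · show κν p τ w - κν p τ (w * gp gen p) + (κν p τ (w * gp gen p)
          - κν p τ (w * gp gen p * gp gen p)) = 0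
        rw [cancel]; ring) (by
      rintro w s (⟨e, rfl, he⟩ | ⟨p, rfl, hp⟩) s' (⟨e', rfl, he'⟩ | ⟨p', rfl, hp'⟩) h
      · exact h.elim
      · exact (hc w p' e hp' he h).symm
      · exact hc w p e' hp he' h
      · exact h.elim)
    exact ⟨F, fun w e he => hF w _ (Or.inl ⟨e, rfl, he⟩),
      fun w p hp => hF w _ (Or.inr ⟨p, rfl, hp⟩)⟩
  choose F hFe hFp using key
  let fM : P → T → W → ℤ := fun p τ w => F τ w + κν p τ w
  have hfMp : ∀ p τ w, X.pt p τ → fM p τ (w * gp gen p) = fM p τ w := by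
    intro p τ w hp
    simp only [fM]
    rw [hFp τ w p hp]; ring
  have hfMe : ∀ p e τ w, X.pe p e → X.et e τ →
      fM p τ (w * ge gen e) = fM p τ w + κM p e τ w := by
    intro p e τ w hp he
    have := hκ p e τ w hp he
    simp only [fM]
    rw [hFe τ w e he]; linarith
  let GT : T → W → ℤ := fun τ w => if c2 w = true then - F τ (w * gt gen τ) else 0
  let GM : P → T → W → ℤ := fun p τ w => if c2 w = true then - fM p τ (w * gt gen τ) else 0
  have inv : ∀ (τ : T) (f : W → ℤ), (∀ w, c2 w = false → f (w * gt gen τ) = f w) →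
      ∀ w, f (w * gt gen τ) = f w := by
    intro τ f h w
    by_cases hw : c2 w = true
    · have h2 : c2 (w * gt gen τ) = false := by rw [c2t, hw]; rfl
      have := h _ h2
      rw [cancel] at this
      exact this.symm
    · exact h w (by simpa using hw)
  have GT0 : ∀ τ w, c2 w = false → GT τ w = 0 := fun τ w h => by simp only [GT, h]; simp
  have GT1 : ∀ τ w, c2 w = false → GT τ (w * gt gen τ) = - F τ w := fun τ w h => by
    have : c2 (w * gt gen τ) = true := by rw [c2t, h]; rfl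
    simp only [GT, this, if_true]; rw [cancel]
  have GM0 : ∀ p τ w, c2 w = false → GM p τ w = 0 := fun p τ w h => by simp only [GM, h]; simp
  have GM1 : ∀ p τ w, c2 w = false → GM p τ (w * gt gen τ) = - fM p τ w := fun p τ w h => by
    have : c2 (w * gt gen τ) = true := by rw [c2t, h]; rfl
    simp only [GM, this, if_true]; rw [cancel]
  have GMp : ∀ p τ w, X.pt p τ → GM p τ (w * gp gen p) = GM p τ w := by
    intro p τ w hp
    simp only [GM]
    rw [c2p, cpt w p τ hp, hfMp p τ _ hp]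
  refine ⟨β, fun p τ w => μ p τ w + GM p τ w, fun p τ w => ν p τ w + GM p τ w - GT τ w, gP,
    fun τ e w => gT τ e w + GT τ (w * ge gen e) - GT τ w,
    fun p e τ w => gM p e τ w + GM p τ (w * ge gen e) - GM p τ w, δ, ?_, ?_, ?_⟩
  · refine ⟨S.gPe, ?_, ?_, ?_, ?_, S.K1, ?_, S.K3⟩
    · intro τ e w he
      have := S.gTe τ e w he
      show gT τ e (w * ge gen e) + GT τ (w * ge gen e * ge gen e) - GT τ (w * ge gen e)
        = -(gT τ e w + GT τ (w * ge gen e) - GT τ w)
      rw [cancel]; linarith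
    · intro p e τ w hp he
      have := S.gMe p e τ w hp he
      show gM p e τ (w * ge gen e) + GM p τ (w * ge gen e * ge gen e) - GM p τ (w * ge gen e)
        = -(gM p e τ w + GM p τ (w * ge gen e) - GM p τ w)
      rw [cancel]; linarith
    · intro p e τ w hp he
      have := S.S1 p e τ w hp he
      linarith
    · intro p e τ w hp he
      have := S.S2 p e τ w hp he
      linarith
    · intro e τ w hw he hf
      have := S.K2 e τ w hw he hf
      linarith
  · refine ⟨?_, I.gP, ?_⟩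
    · intro p τ w hp
      show μ p τ (w * gp gen p) + GM p τ (w * gp gen p) = μ p τ w + GM p τ w
      rw [I.μ p τ w hp, GMp p τ w hp]
    · intro p e τ w hp he
      show gM p e τ (w * gp gen p) + GM p τ (w * gp gen p * ge gen e) - GM p τ (w * gp gen p)
        = gM p e τ w + GM p τ (w * ge gen e) - GM p τ w
      have hpt := X.pt_of hp he
      rw [I.gM p e τ w hp he, cpe w p e hp, GMp p τ _ hpt, GMp p τ _ hpt]
  · refine ⟨?_, ?_, ?_⟩
    · intro p τ w _
      refine inv τ (fun w => ν p τ w + GM p τ w - GT τ w) (fun w hw => ?_) w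
      show ν p τ (w * gt gen τ) + GM p τ (w * gt gen τ) - GT τ (w * gt gen τ)
        = ν p τ w + GM p τ w - GT τ w
      rw [GT1 τ w hw, GM1 p τ w hw, GT0 τ w hw, GM0 p τ w hw]
      simp only [fM, κν]; ring
    · intro τ e w he
      refine inv τ (fun w => gT τ e w + GT τ (w * ge gen e) - GT τ w) (fun w hw => ?_) w
      show gT τ e (w * gt gen τ) + GT τ (w * gt gen τ * ge gen e) - GT τ (w * gt gen τ)
        = gT τ e w + GT τ (w * ge gen e) - GT τ w
      have hw' : c2 (w * ge gen e) = false := by rw [c2e, hw]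
      rw [cte w τ e he, GT1 τ w hw, GT1 τ _ hw', GT0 τ w hw, GT0 τ _ hw', hFe τ w e he]
      simp only [κT]; ring
    · intro p e τ w hp he
      refine inv τ (fun w => gM p e τ w + GM p τ (w * ge gen e) - GM p τ w) (fun w hw => ?_) w
      show gM p e τ (w * gt gen τ) + GM p τ (w * gt gen τ * ge gen e) - GM p τ (w * gt gen τ)
        = gM p e τ w + GM p τ (w * ge gen e) - GM p τ w
      have hw' : c2 (w * ge gen e) = false := by rw [c2e, hw]
      rw [cte w τ e he, GM1 p τ w hw, GM1 p τ _ hw', GM0 p τ w hw, GM0 p τ _ hw',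
        hfMe p e τ w hp he]
      simp only [κM]; ring

/-- The inhomogeneous system has an invariant solution. -/
theorem coreC (R : RAC gen X.adj) (Φ : Frs X (ge gen))
    (hru : ∀ τ τ' w, Φ.root τ w → Φ.root τ' w → τ = τ')
    (c0 c2 : W → Bool)
    (c0p : ∀ w p, c0 (w * gp gen p) = !c0 w) (c0e : ∀ w e, c0 (w * ge gen e) = c0 w)
    (c2t : ∀ w τ, c2 (w * gt gen τ) = !c2 w) (c2e : ∀ w e, c2 (w * ge gen e) = c2 w)
    (c2p : ∀ w p, c2 (w * gp gen p) = c2 w)
    (φ1 φ2 : P → E → T → W → ℤ) (φ3 : E → W → ℤ)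
    (φ4 : E → T → W → ℤ) (φ5 : W → ℤ)
    (e1 : ∀ p e τ w, X.pe p e → X.et e τ → φ1 p e τ (w * ge gen e) = - φ1 p e τ w)
    (e2 : ∀ p e τ w, X.pe p e → X.et e τ → φ2 p e τ (w * ge gen e) = - φ2 p e τ w)
    (p1 : ∀ p e τ w, X.pe p e → X.et e τ → φ1 p e τ (w * gp gen p) = φ1 p e τ w)
    (t2 : ∀ p e τ w, X.pe p e → X.et e τ → φ2 p e τ (w * gt gen τ) = φ2 p e τ w) :
    ∃ (β : P → W → ℤ) (μ ν : P → T → W → ℤ) (gP : P → E → W → ℤ) (gT : T → E → W → ℤ)
      (gM : P → E → T → W → ℤ) (δ : W → ℤ), IsSol Φ φ1 φ2 φ3 φ4 φ5 β μ ν gP gT gM δ ∧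
      InvP X gen μ gP gM ∧ InvT X gen ν gT gM := by
  obtain ⟨β, μ, ν, gP, gT, gM, δ, S⟩ := solve0 R Φ hru φ1 φ2 φ3 φ4 φ5 e1 e2
  obtain ⟨β', μ', ν', gP', gT', gM', δ', S', I'⟩ := fixP R c0 c0p c0e p1 S
  exact fixT R c2 c2t c2e c2p t2 S' I'

end CoreD

end Pool.Agent.EG11
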