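import Mathlib

/-! Definitions used in the statement of the result on `MP_e51632_al`. -/

namespace Pool.Agent.EG11

/-! ### Combinatorial 2-complexes -/

/-- `l` is an edge path from `u` to `v` in the graph with edges `E`, where the oriented edge
`(e, true)` goes from `src e` to `tgt e` and `(e, false)` goes from `tgt e` to `src e`. -/
def IsPath {V E : Type} (src tgt : E → V) : V → List (E × Bool) → V → Prop
  | u, [], v => u = v
  | u, a :: l, v => (if a.2 then src a.1 else tgt a.1) = u ∧
      IsPath src tgt (if a.2 then tgt a.1 else src a.1) l v

/-- A combinatorial 2-complex: a graph with vertices `V` and edges `E`, and 2-cells `F`, the 2-cell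
`f` being attached along the closed edge path `bd f` based at `base f`. -/
structure TwoComplex where
  V : Type
  E : Type
  F : Type
  src : E → V
  tgt : E → V
  base : F → V
  bd : F → List (E × Bool)
  closed : ∀ f, IsPath src tgt (base f) (bd f) (base f)

namespace TwoComplex

variable (X : TwoComplex)

/-- `X` is nonempty and connected. -/
def Connected : Prop := Nonempty X.V ∧ ∀ u v : X.V, ∃ l, IsPath X.src X.tgt u l v

/-- Elementary homotopies of edge paths: removal of a backtracking, removal of the boundary of a
2-cell. -/
inductive Step : List (X.E × Bool) → List (X.E × Bool) → Prop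
  | backtrack (l l' : List (X.E × Bool)) (e : X.E) (b : Bool) :
      Step (l ++ (e, b) :: (e, !b) :: l') (l ++ l')
  | face (l l' : List (X.E × Bool)) (f : X.F) : Step (l ++ X.bd f ++ l') (l ++ l')

/-- Every closed edge path is homotopic to the constant one, through closed edge paths at the same
vertex, by elementary homotopies and their inverses. -/
def SimplyConnected : Prop := ∀ (v : X.V) (l : List (X.E × Bool)), IsPath X.src X.tgt v l v →
  Relation.EqvGen (fun k k' => IsPath X.src X.tgt v k v ∧ IsPath X.src X.tgt v k' v ∧ X.Step k k')
    l []

/-- The cellular boundary of a 2-cell. -/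
noncomputable def bdChain (f : X.F) : X.E →₀ ℤ :=
  ((X.bd f).map (fun a => Finsupp.single a.1 (if a.2 then (1 : ℤ) else -1))).sum

/-- The second integral homology group of `X`, the kernel of the cellular boundary from 2-chains
to 1-chains, is zero. -/
def H2Zero : Prop := Function.Injective (Finsupp.linearCombination ℤ X.bdChain)

/-- `X` is contractible: nonempty, connected, simply connected and `H₂(X; ℤ) = 0`. -/
def Contractible : Prop := X.Connected ∧ X.SimplyConnected ∧ X.H2Zero

/-- The group `G` acts on `X` by automorphisms (preserving the chosen orientations of the edges and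
the attaching paths), and the action is free on vertices (hence on edges and on 2-cells). -/
def ActsFreely (G : Type) [Group G] [MulAction G X.V] [MulAction G X.E] [MulAction G X.F] : Prop :=
  (∀ (g : G) e, X.src (g • e) = g • X.src e) ∧ (∀ (g : G) e, X.tgt (g • e) = g • X.tgt e) ∧
  (∀ (g : G) f, X.base (g • f) = g • X.base f) ∧
  (∀ (g : G) f, X.bd (g • f) = (X.bd f).map (fun a => (g • a.1, a.2))) ∧
  (∀ (g : G) v, g • v = (v : X.V) → g = 1)

end TwoComplex

/-- `G` has a finite 2-dimensional classifying space: `G` acts freely, with finitely many orbits of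
cells, on a contractible combinatorial 2-complex `X`; the quotient `X / G` is the finite
2-dimensional `K(G, 1)`. -/
def HasFiniteTwoDimClassifyingSpace (G : Type) [Group G] : Prop :=
  ∃ (X : TwoComplex) (_ : MulAction G X.V) (_ : MulAction G X.E) (_ : MulAction G X.F),
    X.Contractible ∧ X.ActsFreely G ∧
    Finite (MulAction.orbitRel.Quotient G X.V) ∧ Finite (MulAction.orbitRel.Quotient G X.E) ∧
    Finite (MulAction.orbitRel.Quotient G X.F)

/-! ### Simplicial complexes and their homology -/

section Simplicial

variable {ι : Type} [Fintype ι] [LinearOrder ι]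

/-- The simplicial boundary of an integral chain `c` (a function on finite sets of vertices):
`(∂ c) τ = ∑ ± c (τ ∪ {v})`, over the `v` not in `τ`, with sign `(-1) ^ #{u ∈ τ | u < v}`. -/
def boundary (c : Finset ι → ℤ) (τ : Finset ι) : ℤ :=
  ∑ v ∈ τᶜ, (-1) ^ (τ.filter (· < v)).card * c (insert v τ)

/-- `c` is an integral chain of `K` supported on simplices with `n` vertices (for `n = 0`: on the
empty simplex, as in the augmented chain complex). -/
def IsChain (K : AbstractSimplicialComplex ι) (n : ℕ) (c : Finset ι → ℤ) : Prop :=
  ∀ σ, c σ ≠ 0 → σ.card = n ∧ (σ = ∅ ∨ σ ∈ K)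

/-- All reduced integral simplicial homology groups of `K` vanish. -/
def Acyclic (K : AbstractSimplicialComplex ι) : Prop :=
  ∀ (n : ℕ) (c : Finset ι → ℤ), IsChain K n c → boundary c = 0 →
    ∃ b : Finset ι → ℤ, IsChain K (n + 1) b ∧ boundary b = c

/-- The Coxeter matrix on the set of simplices of `K`: `m(σ, τ) = 2` if one of the distinct
simplices `σ, τ` is a face of the other one, and `m(σ, τ) = ∞` (encoded by `0`) otherwise. -/
def coxeterMatrix (K : AbstractSimplicialComplex ι) : CoxeterMatrix K where
  M := Matrix.of fun σ τ => if σ = τ then 1 else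
    if (σ : Finset ι) ⊂ τ ∨ (τ : Finset ι) ⊂ σ then 2 else 0
  isSymm := by
    ext σ τ
    simp only [Matrix.transpose_apply, Matrix.of_apply, eq_comm (a := τ) (b := σ), or_comm]
  diagonal := fun σ => by simp
  off_diagonal := fun σ τ h => by
    simp only [Matrix.of_apply, h, if_false]
    split_ifs <;> decide

end Simplicial

end Pool.Agent.EG11
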