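import Pool.Agent.EG11.Build

/-! The complex is simply connected and has `H₂ = 0`. -/

namespace Pool.Agent.EG11

/-- value of a labelling on a path -/
def pval {E A : Type} [Group A] (lam : E → A) (l : List (E × Bool)) : A :=
  (l.map (fun a => if a.2 then lam a.1 else (lam a.1)⁻¹)).prod

theorem pval_nil {E A : Type} [Group A] (lam : E → A) : pval lam [] = 1 := rfl

theorem pval_true {E A : Type} [Group A] (lam : E → A) (e : E) (l : List (E × Bool)) :
    pval lam ((e, true) :: l) = lam e * pval lam l := by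
  simp [pval]

theorem pval_false {E A : Type} [Group A] (lam : E → A) (e : E) (l : List (E × Bool)) :
    pval lam ((e, false) :: l) = (lam e)⁻¹ * pval lam l := by
  simp [pval]

theorem pval_append {E A : Type} [Group A] (lam : E → A) (l l' : List (E × Bool)) :
    pval lam (l ++ l') = pval lam l * pval lam l' := by
  simp [pval]

theorem pval_replicate {E A : Type} [Group A] (lam : E → A) (e : E) (n : ℤ) :
    pval lam (List.replicate n.natAbs (e, decide (n < 0))) = (lam e ^ n)⁻¹ := by
  unfold pval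
  rw [List.map_replicate, List.prod_replicate]
  by_cases hb : n < 0
  · simp only [hb, decide_true, if_true]
    rw [← zpow_neg, ← zpow_natCast]
    congr 1
    omega
  · simp only [hb, decide_false, Bool.false_eq_true, if_false]
    rw [inv_pow, ← zpow_natCast]
    congr 2
    omega

namespace Setup

variable {P E T W : Type} [Group W] (S : Setup P E T W)

theorem ev_ge {w : W} (e : E) (h : ¬ S.Φ.ev w = true) : S.Φ.ev (w * ge S.gen e) = true := by
  rw [S.Φ.ev_e]; simpa using h

section Flat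

variable {A : Type} [Group A]

open Classical in
/-- extend a function on even elements to all elements -/
noncomputable def ori (e : E) (f : ∀ w, S.Φ.ev w = true → A) (w : W) : A :=
  if h : S.Φ.ev w = true then f w h else (f (w * ge S.gen e) (S.ev_ge e h))⁻¹

theorem ori_ev (e : E) (f : ∀ w, S.Φ.ev w = true → A) {w : W} (h : S.Φ.ev w = true) :
    S.ori e f w = f w h := by
  unfold ori; rw [dif_pos h]

theorem ori_ge (e : E) (f : ∀ w, S.Φ.ev w = true → A) (w : W) :
    S.ori e f w * S.ori e f (w * ge S.gen e) = 1 := by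
  by_cases h : S.Φ.ev w = true
  · have h' : ¬ S.Φ.ev (w * ge S.gen e) = true := by rw [S.Φ.ev_e, h]; decide
    unfold ori
    rw [dif_pos h, dif_neg h']
    have : ∀ (w' : W) (hw' : S.Φ.ev w' = true), w' = w → f w h * (f w' hw')⁻¹ = 1 := by
      intro w' hw' q; subst q; rw [mul_inv_cancel]
    exact this _ _ (S.cancel w _)
  · have h' : S.Φ.ev (w * ge S.gen e) = true := S.ev_ge e h
    unfold ori
    rw [dif_neg h, dif_pos h', inv_mul_cancel]

theorem ori_inv (e : E) (f : ∀ w, S.Φ.ev w = true → A) (g : W)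
    (hg : ∀ w, S.Φ.ev (w * g) = S.Φ.ev w) (hc : ∀ w, w * g * ge S.gen e = w * ge S.gen e * g)
    (hf : ∀ w h h', f (w * g) h = f w h') (w : W) :
    S.ori e f (w * g) = S.ori e f w := by
  by_cases h : S.Φ.ev w = true
  · have h' : S.Φ.ev (w * g) = true := by rw [hg, h]
    rw [S.ori_ev e f h, S.ori_ev e f h', hf]
  · have h' : ¬ S.Φ.ev (w * g) = true := by rw [hg]; exact h
    unfold ori
    rw [dif_neg h, dif_neg h']
    congr 1
    have : ∀ (w' : W) (hw' : S.Φ.ev w' = true), w' = w * ge S.gen e * g →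
        f w' hw' = f (w * ge S.gen e) (S.ev_ge e h) := by
      intro w' hw' q; subst q; exact hf _ _ _
    exact this _ _ (hc w)

open Classical in
theorem potential (lam : EC S → A) (hl : S.cplx.Flat lam) :
    ∃ pot : VC S → A, ∀ e, lam e = (pot (S.src e))⁻¹ * pot (S.tgt e) := by
  have flat : ∀ f : FC S, pval lam (S.bd f) = 1 := hl
  let μ : P → T → W → A := fun p τ w => if h : S.X.pt p τ then lam (ePM p τ h w) else 1
  let ν : P → T → W → A := fun p τ w => if h : S.X.pt p τ then lam (eTM p τ h w) else 1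
  let gP : P → E → W → A := fun p e w =>
    if h : S.X.pe p e then S.ori e (fun w hv => lam (ePE p e h w hv)) w else 1
  let gT : T → E → W → A := fun τ e w =>
    if h : S.X.et e τ then S.ori e (fun w hv => lam (eTE τ e h w hv)) w else 1
  let gM : P → E → T → W → A := fun p e τ w =>
    if h : S.X.pe p e ∧ S.X.et e τ then S.ori e (fun w hv => lam (eME p e τ h.1 h.2 w hv)) w
    else 1
  have hμ : ∀ p τ (h : S.X.pt p τ) w, μ p τ w = lam (ePM p τ h w) := fun p τ h w => dif_pos h
  have hν : ∀ p τ (h : S.X.pt p τ) w, ν p τ w = lam (eTM p τ h w) := fun p τ h w => dif_pos h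
  have hgP : ∀ p e (h : S.X.pe p e) w, gP p e w = S.ori e (fun w hv => lam (ePE p e h w hv)) w :=
    fun p e h w => dif_pos h
  have hgT : ∀ τ e (h : S.X.et e τ) w, gT τ e w = S.ori e (fun w hv => lam (eTE τ e h w hv)) w :=
    fun p e h w => dif_pos h
  have hgM : ∀ p e τ (h : S.X.pe p e) (h' : S.X.et e τ) w,
      gM p e τ w = S.ori e (fun w hv => lam (eME p e τ h h' w hv)) w :=
    fun p e τ h h' w => dif_pos ⟨h, h'⟩
  have S1e : ∀ p e τ w, S.X.pe p e → S.X.et e τ → S.Φ.ev w = true →
      μ p τ w * gM p e τ w = gP p e w * μ p τ (w * ge S.gen e) := by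
    intro p e τ w h h' hv
    have hpt := S.X.pt_of h h'
    rw [hμ p τ hpt, hμ p τ hpt, hgM p e τ h h', hgP p e h, S.ori_ev _ _ hv, S.ori_ev _ _ hv]
    have hv0 : S.Φ.ev (S.r0 p w) = true := by rw [S.ev_r0, hv]
    have := flat (FC.s1 p e τ h h' (S.r0 p w) (S.c0_r0 p w) hv0)
    simp only [bd, pval_true, pval_false, pval_nil, mul_one] at this
    have q1 : (eME p e τ h h' (S.r0 p w) hv0 : EC S) = eME p e τ h h' w hv :=
      EC.me_eq (S.rM_r0 p τ w)
    have q2 : EC.pm (S := S) p τ hpt (S.r0 p w * ge S.gen e) (by rw [S.c0e, S.c0_r0])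
        = ePM p τ hpt (w * ge S.gen e) := EC.pm_eq (S.r0_ge h w).symm
    rw [q1, q2] at this
    change lam (ePM p τ hpt w) * (lam (eME p e τ h h' w hv) *
      ((lam (ePM p τ hpt (w * ge S.gen e)))⁻¹ * (lam (ePE p e h w hv))⁻¹)) = 1 at this
    rw [← mul_assoc, ← mul_inv_rev] at this
    exact mul_inv_eq_one.1 this
  have S2e : ∀ p e τ w, S.X.pe p e → S.X.et e τ → S.Φ.ev w = true →
      ν p τ w * gM p e τ w = gT τ e w * ν p τ (w * ge S.gen e) := by
    intro p e τ w h h' hv
    have hpt := S.X.pt_of h h'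
    rw [hν p τ hpt, hν p τ hpt, hgM p e τ h h', hgT τ e h', S.ori_ev _ _ hv, S.ori_ev _ _ hv]
    have hv0 : S.Φ.ev (S.r2 τ w) = true := by rw [S.ev_r2, hv]
    have := flat (FC.s2 p e τ h h' (S.r2 τ w) (S.c2_r2 τ w) hv0)
    simp only [bd, pval_true, pval_false, pval_nil, mul_one] at this
    have q1 : (eME p e τ h h' (S.r2 τ w) hv0 : EC S) = eME p e τ h h' w hv :=
      EC.me_eq (S.rM_r2 hpt w)
    have q2 : EC.tm (S := S) p τ hpt (S.r2 τ w * ge S.gen e) (by rw [S.c2e, S.c2_r2])
        = eTM p τ hpt (w * ge S.gen e) := EC.tm_eq (S.r2_ge h' w).symm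
    rw [q1, q2] at this
    change lam (eTM p τ hpt w) * (lam (eME p e τ h h' w hv) *
      ((lam (eTM p τ hpt (w * ge S.gen e)))⁻¹ * (lam (eTE τ e h' w hv))⁻¹)) = 1 at this
    rw [← mul_assoc, ← mul_inv_rev] at this
    exact mul_inv_eq_one.1 this
  have gMe : ∀ p e τ w, S.X.pe p e → S.X.et e τ → gM p e τ w * gM p e τ (w * ge S.gen e) = 1 := by
    intro p e τ w h h'
    rw [hgM p e τ h h', hgM p e τ h h', S.ori_ge]
  have gPe : ∀ p e w, S.X.pe p e → gP p e w * gP p e (w * ge S.gen e) = 1 := by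
    intro p e w h
    rw [hgP p e h, hgP p e h, S.ori_ge]
  have gTe : ∀ τ e w, S.X.et e τ → gT τ e w * gT τ e (w * ge S.gen e) = 1 := by
    intro p e w h
    rw [hgT p e h, hgT p e h, S.ori_ge]
  obtain ⟨fb, fP, fT, fM, hPp, hTt, hMp, hMt, hPb, hMP, hMT, hPe, hTe, hMe, hδ⟩ :=
    coreB S.R S.Φ (fun p w => lam (EC.bp p w)) μ ν gP gT gM (fun w => lam (EC.d w))
    (by
      intro p τ w h
      rw [hμ p τ h, hμ p τ h]
      exact congrArg lam (EC.pm_eq (S.r0_gp p w)))
    (by
      intro p τ w h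
      rw [hν p τ h, hν p τ h]
      exact congrArg lam (EC.tm_eq (S.r2_gt τ w)))
    (by
      intro p e w h
      rw [hgP p e h, hgP p e h]
      exact S.ori_inv e _ _ (fun w => S.evp w p) (fun w => S.cpe w h)
        (fun w _ _ => congrArg lam (EC.pe_eq (S.r0_gp p w))) w)
    gPe
    (by
      intro τ e w h
      rw [hgT τ e h, hgT τ e h]
      exact S.ori_inv e _ _ (fun w => S.evt w τ) (fun w => S.cte w h)
        (fun w _ _ => congrArg lam (EC.te_eq (S.r2_gt τ w))) w)
    (by
      intro p e τ w h h'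
      by_cases hv : S.Φ.ev w = true
      · exact S1e p e τ w h h' hv
      · have h1 := S1e p e τ (w * ge S.gen e) h h' (S.ev_ge e hv)
        rw [S.cancel] at h1
        have h2 := gMe p e τ w h h'
        have h3 := gPe p e w h
        rw [mul_eq_one_iff_eq_inv] at h2 h3
        rw [h2, h3, mul_inv_eq_iff_eq_mul, mul_assoc, h1, ← mul_assoc, inv_mul_cancel, one_mul])
    (by
      intro p e τ w h h'
      by_cases hv : S.Φ.ev w = true
      · exact S2e p e τ w h h' hv
      · have h1 := S2e p e τ (w * ge S.gen e) h h' (S.ev_ge e hv)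
        rw [S.cancel] at h1
        have h2 := gMe p e τ w h h'
        have h3 := gTe τ e w h'
        rw [mul_eq_one_iff_eq_inv] at h2 h3
        rw [h2, h3, mul_inv_eq_iff_eq_mul, mul_assoc, h1, ← mul_assoc, inv_mul_cancel, one_mul])
    (by
      intro e w hv
      have := flat (FC.k1 e w hv)
      rw [hgP _ e (S.X.pe_t e), hgP _ e (S.X.pe_s e), S.ori_ev _ _ hv, S.ori_ev _ _ hv]
      rw [bd, pval_append, pval_replicate] at this
      simp only [pval_true, pval_false, pval_nil, mul_one] at this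
      rw [← mul_inv_eq_one, ← this]
      group)
    (by
      intro e τ w hv h hf
      have := flat (FC.k2 e τ h w hv hf)
      have hs := S.X.pt_of (S.X.pe_s e) h
      have ht := S.X.pt_of (S.X.pe_t e) h
      rw [hμ _ τ hs, hμ _ τ ht, hν _ τ hs, hν _ τ ht]
      simp only [bd, pval_true, pval_false, pval_nil, mul_one] at this
      rw [← mul_inv_eq_one, ← this]
      group)
    (by
      intro w hr
      have := flat (FC.k3 w hr)
      simpa [bd, pval_true, pval_nil] using this)
  have hP0 : ∀ p w, fP p (S.r0 p w) = fP p w := by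
    intro p w; unfold r0; split_ifs
    · rfl
    · rw [hPp]
  have hM0 : ∀ p τ w, S.X.pt p τ → fM p τ (S.rM p τ w) = fM p τ w := by
    intro p τ w h
    have h0 : fM p τ (S.r0 p w) = fM p τ w := by
      unfold r0; split_ifs
      · rfl
      · rw [hMp p τ w h]
    unfold rM
    rw [← h0]
    generalize S.r0 p w = w'
    unfold r2; split_ifs
    · rfl
    · rw [hMt p τ w' h]
  refine ⟨fun v => match v with
    | VC.b w => fb w
    | VC.p p w _ => fP p w
    | VC.t τ w _ => fT τ w
    | VC.m p τ _ w _ _ => fM p τ w, ?_⟩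
  intro e
  cases e with
  | bp p w =>
    show lam (EC.bp p w) = (fb w)⁻¹ * fP p (S.r0 p w)
    rw [hP0, hPb]; group
  | pm p τ hi w h =>
    show lam (EC.pm p τ hi w h) = (fP p w)⁻¹ * fM p τ (S.rM p τ w)
    rw [hM0 p τ w hi, hMP p τ w hi, hμ p τ hi]
    have : (ePM p τ hi w : EC S) = EC.pm p τ hi w h := EC.pm_eq (S.r0_of p h)
    rw [this]; group
  | tm p τ hi w h =>
    show lam (EC.tm p τ hi w h) = (fT τ w)⁻¹ * fM p τ (S.rM p τ w)
    rw [hM0 p τ w hi, hMT p τ w hi, hν p τ hi]
    have : (eTM p τ hi w : EC S) = EC.tm p τ hi w h := EC.tm_eq (S.r2_of τ h)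
    rw [this]; group
  | pe p e hi w h hv =>
    show lam (EC.pe p e hi w h hv) = (fP p w)⁻¹ * fP p (w * ge S.gen e)
    rw [hPe p e w hi, hgP p e hi, S.ori_ev _ _ hv]
    have : (ePE p e hi w hv : EC S) = EC.pe p e hi w h hv := EC.pe_eq (S.r0_of p h)
    rw [this]; group
  | te τ e hi w h hv =>
    show lam (EC.te τ e hi w h hv) = (fT τ w)⁻¹ * fT τ (w * ge S.gen e)
    rw [hTe τ e w hi, hgT τ e hi, S.ori_ev _ _ hv]
    have : (eTE τ e hi w hv : EC S) = EC.te τ e hi w h hv := EC.te_eq (S.r2_of τ h)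
    rw [this]; group
  | me p e τ hi hi' w h h' hv =>
    show lam (EC.me p e τ hi hi' w h h' hv) = (fM p τ w)⁻¹ * fM p τ (w * ge S.gen e)
    rw [hMe p e τ w hi hi', hgM p e τ hi hi', S.ori_ev _ _ hv]
    have : (eME p e τ hi hi' w hv : EC S) = EC.me p e τ hi hi' w h h' hv :=
      EC.me_eq (by unfold rM; rw [S.r0_of p h, S.r2_of τ h'])
    rw [this]; group
  | d w =>
    show lam (EC.d w) = (fb w)⁻¹ * fb w
    rw [inv_mul_cancel]; exact hδ w

end Flat

end Setup

end Pool.Agent.EG11
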