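import Pool.Agent.EG11.Defs
import Pool.Agent.EG11.Core

/-! From the vanishing of homology to the cochains `B`. -/

namespace Pool.Agent.EG11

variable {ι : Type} [Fintype ι] [LinearOrder ι]

/-- the boundary as a linear map -/
def bdL : (Finset ι → ℤ) →ₗ[ℤ] (Finset ι → ℤ) where
  toFun c := boundary c
  map_add' c c' := by
    ext τ
    simp only [boundary, Pi.add_apply, mul_add, Finset.sum_add_distrib]
  map_smul' n c := by
    ext τ
    simp only [boundary, Pi.smul_apply, smul_eq_mul, RingHom.id_apply, Finset.mul_sum]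
    exact Finset.sum_congr rfl (fun v _ => by ring)

theorem card_filter_insert {τ : Finset ι} {v u : ι} (hv : v ∉ τ) :
    ((insert v τ).filter (· < u)).card = (τ.filter (· < u)).card + if v < u then 1 else 0 := by
  rw [Finset.filter_insert]
  split_ifs with h
  · rw [Finset.card_insert_of_notMem]
    simp [hv]
  · simp

theorem bdL_bdL (c : Finset ι → ℤ) : bdL (bdL c) = 0 := by
  ext τ
  show ∑ v ∈ τᶜ, (-1) ^ (τ.filter (· < v)).card *
    (∑ u ∈ (insert v τ)ᶜ, (-1) ^ ((insert v τ).filter (· < u)).card * c (insert u (insert v τ))) = 0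
  have h1 : ∀ v ∈ τᶜ, (-1 : ℤ) ^ (τ.filter (· < v)).card *
      (∑ u ∈ (insert v τ)ᶜ, (-1) ^ ((insert v τ).filter (· < u)).card * c (insert u (insert v τ)))
      = ∑ u ∈ τᶜ, if u = v then 0 else (-1) ^ (τ.filter (· < v)).card *
        ((-1) ^ (τ.filter (· < u)).card * (if v < u then -1 else 1)) *
          c (insert u (insert v τ)) := by
    intro v hv
    have hv' : v ∉ τ := by simpa using hv
    have e : (insert v τ)ᶜ = τᶜ.filter (fun u => ¬ u = v) := by
      ext u; simp only [Finset.mem_compl, Finset.mem_insert, Finset.mem_filter]; tauto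
    rw [e, Finset.mul_sum, Finset.sum_filter]
    refine Finset.sum_congr rfl (fun u hu => ?_)
    by_cases huv : u = v
    · simp [huv]
    · rw [if_pos huv, if_neg huv, card_filter_insert hv']
      split_ifs
      · ring
      · ring
  rw [Finset.sum_congr rfl h1]
  -- antisymmetry
  set S : ℤ := ∑ v ∈ τᶜ, ∑ u ∈ τᶜ, if u = v then 0 else (-1) ^ (τ.filter (· < v)).card *
        ((-1) ^ (τ.filter (· < u)).card * (if v < u then -1 else 1)) *
          c (insert u (insert v τ)) with hS
  have h2 : S = -S := by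
    conv_lhs => rw [hS, Finset.sum_comm]
    rw [hS, ← Finset.sum_neg_distrib]
    refine Finset.sum_congr rfl (fun v _ => ?_)
    rw [← Finset.sum_neg_distrib]
    refine Finset.sum_congr rfl (fun u _ => ?_)
    by_cases huv : u = v
    · simp [huv]
    · rw [if_neg huv, if_neg (fun h => huv h.symm), Finset.insert_comm]
      rcases lt_or_gt_of_ne huv with h | h
      · rw [if_pos h, if_neg (not_lt.2 h.le)]; ring
      · rw [if_neg (not_lt.2 h.le), if_pos h]; ring
  have : S = 0 := by omega
  exact this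

/-- the chains as a submodule -/
def chainM (K : AbstractSimplicialComplex ι) (n : ℕ) : Submodule ℤ (Finset ι → ℤ) where
  carrier := {c | IsChain K n c}
  add_mem' := by
    intro a b ha hb σ hσ
    by_cases h : a σ = 0
    · refine hb σ (fun h' => hσ ?_)
      show a σ + b σ = 0
      rw [h, h', add_zero]
    · exact ha σ h
  zero_mem' := by
    intro σ hσ
    exact absurd rfl hσ
  smul_mem' := by
    intro n a ha σ hσ
    refine ha σ (fun h => hσ ?_)
    show n * a σ = 0
    rw [h, mul_zero]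

theorem mem_chainM {K : AbstractSimplicialComplex ι} {n : ℕ} {c : Finset ι → ℤ} :
    c ∈ chainM K n ↔ IsChain K n c := Iff.rfl

theorem mem_of_subset {K : AbstractSimplicialComplex ι} {σ τ : Finset ι} (h : σ ∈ K)
    (hs : τ ⊆ σ) (hn : τ.Nonempty) : τ ∈ K :=
  (K.isRelLowerSet_faces h).2 hs hn

theorem bdL_mem {K : AbstractSimplicialComplex ι} {n : ℕ} {c : Finset ι → ℤ}
    (h : c ∈ chainM K (n + 1)) : bdL c ∈ chainM K n := by
  intro τ hτ
  obtain ⟨v, hv, hv'⟩ := Finset.exists_ne_zero_of_sum_ne_zero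
    (s := τᶜ) (f := fun v => (-1) ^ (τ.filter (· < v)).card * c (insert v τ)) hτ
  have hc : c (insert v τ) ≠ 0 := fun h' => hv' (by rw [h', mul_zero])
  have hvτ : v ∉ τ := by simpa using hv
  obtain ⟨h1, h2⟩ := h _ hc
  rw [Finset.card_insert_of_notMem hvτ] at h1
  refine ⟨by omega, ?_⟩
  rcases τ.eq_empty_or_nonempty with h3 | h3
  · exact Or.inl h3
  · right
    rcases h2 with h2 | h2
    · exact absurd h2 (Finset.insert_ne_empty _ _)
    · exact mem_of_subset h2 (Finset.subset_insert _ _) h3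

/-- A left inverse of the boundary on the chains of top dimension 2. -/
theorem left_inverse {K : AbstractSimplicialComplex ι} (hdim : ∀ σ ∈ K, σ.card ≤ 3)
    (hac : Acyclic K) : ∃ L : chainM K 2 →ₗ[ℤ] chainM K 3,
      ∀ b : chainM K 3, L ⟨bdL b.1, bdL_mem b.2⟩ = b := by
  let d1 : chainM K 2 →ₗ[ℤ] (Finset ι → ℤ) := bdL.comp (chainM K 2).subtype
  let d2 : chainM K 3 →ₗ[ℤ] chainM K 2 :=
    (bdL.comp (chainM K 3).subtype).codRestrict (chainM K 2) (fun b => bdL_mem b.2)
  have hd1 : ∀ c : chainM K 2, d1 c = bdL c.1 := fun _ => rfl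
  have hd2 : ∀ c : chainM K 3, (d2 c).1 = bdL c.1 := fun _ => rfl
  have inj : Function.Injective d2 := by
    rw [injective_iff_map_eq_zero]
    intro b hb
    have h0 : bdL b.1 = 0 := by rw [← hd2, hb]; rfl
    obtain ⟨c, hc, hc'⟩ := hac 3 b.1 b.2 h0
    have : c = 0 := by
      ext σ
      by_contra h
      obtain ⟨h1, h2⟩ := hc σ h
      rcases h2 with h2 | h2
      · subst h2; simp at h1
      · have := hdim σ h2; omega
    subst this
    ext1
    rw [← hc']
    exact map_zero bdL
  have : Module.Free ℤ (LinearMap.range d1) := inferInstance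
  obtain ⟨s, hs⟩ := Module.projective_lifting_property d1.rangeRestrict
    (LinearMap.id : LinearMap.range d1 →ₗ[ℤ] LinearMap.range d1) d1.surjective_rangeRestrict
  have hs' : ∀ c : chainM K 2, d1 (s (d1.rangeRestrict c)) = d1 c := by
    intro c
    have := LinearMap.congr_fun hs (d1.rangeRestrict c)
    exact congrArg Subtype.val this
  let e := LinearEquiv.ofInjective d2 inj
  let q : chainM K 2 →ₗ[ℤ] chainM K 2 := LinearMap.id - s.comp d1.rangeRestrict
  have hq : ∀ c, q c ∈ LinearMap.range d2 := by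
    intro c
    have h0 : bdL (q c).1 = 0 := by
      have : d1 (q c) = 0 := by
        show d1 (c - s (d1.rangeRestrict c)) = 0
        rw [map_sub, hs', sub_self]
      exact this
    obtain ⟨b, hb, hb'⟩ := hac 2 (q c).1 (q c).2 h0
    exact ⟨⟨b, hb⟩, Subtype.ext hb'⟩
  let L : chainM K 2 →ₗ[ℤ] chainM K 3 := e.symm.toLinearMap.comp (q.codRestrict _ hq)
  refine ⟨L, fun b => ?_⟩
  have h1 : (⟨bdL b.1, bdL_mem b.2⟩ : chainM K 2) = d2 b := Subtype.ext rfl
  rw [h1]
  show e.symm (q.codRestrict _ hq (d2 b)) = b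
  rw [LinearEquiv.symm_apply_eq]
  ext1
  show q (d2 b) = d2 b
  show d2 b - s (d1.rangeRestrict (d2 b)) = d2 b
  have : d1.rangeRestrict (d2 b) = 0 := by
    ext1
    show bdL (bdL b.1) = 0
    exact bdL_bdL _
  rw [this, map_zero, sub_zero]

/-- the boundary of a simplex -/
theorem bdL_single (σ : Finset ι) :
    bdL (Pi.single σ 1) = ∑ v ∈ σ, (-1 : ℤ) ^ (σ.filter (· < v)).card •
      (Pi.single (σ.erase v) 1 : Finset ι → ℤ) := by
  ext τ
  show ∑ v ∈ τᶜ, (-1) ^ (τ.filter (· < v)).card * (Pi.single σ 1 : Finset ι → ℤ) (insert v τ) = _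
  rw [Finset.sum_apply]
  simp only [Pi.smul_apply, smul_eq_mul]
  rw [← Finset.sum_filter_add_sum_filter_not τᶜ (· ∈ σ)]
  rw [← Finset.sum_filter_add_sum_filter_not σ (· ∈ τᶜ)]
  have h1 : ∑ x ∈ τᶜ with x ∉ σ, (-1) ^ (τ.filter (· < x)).card *
      (Pi.single σ 1 : Finset ι → ℤ) (insert x τ) = 0 := by
    refine Finset.sum_eq_zero (fun v hv => ?_)
    rw [Finset.mem_filter] at hv
    rw [Pi.single_eq_of_ne, mul_zero]
    rintro rfl
    exact hv.2 (Finset.mem_insert_self _ _)
  have h2 : ∑ x ∈ σ with x ∉ τᶜ, (-1) ^ (σ.filter (· < x)).card *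
      (Pi.single (σ.erase x) 1 : Finset ι → ℤ) τ = 0 := by
    refine Finset.sum_eq_zero (fun v hv => ?_)
    rw [Finset.mem_filter] at hv
    rw [Pi.single_eq_of_ne, mul_zero]
    rintro rfl
    exact hv.2 (by simp)
  rw [h1, h2, add_zero, add_zero]
  have h3 : τᶜ.filter (· ∈ σ) = σ.filter (· ∈ τᶜ) := by
    ext v; simp only [Finset.mem_filter]; tauto
  rw [h3]
  refine Finset.sum_congr rfl (fun v hv => ?_)
  rw [Finset.mem_filter, Finset.mem_compl] at hv
  by_cases h : τ = σ.erase v
  · have e1 : insert v τ = σ := by rw [h, Finset.insert_erase hv.1]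
    rw [e1, h, Pi.single_eq_same, Pi.single_eq_same]
    congr 3
    ext u
    simp only [Finset.mem_filter, Finset.mem_erase]
    constructor
    · rintro ⟨⟨_, a⟩, b⟩; exact ⟨a, b⟩
    · rintro ⟨a, b⟩; exact ⟨⟨b.ne, a⟩, b⟩
  · have e1 : insert v τ ≠ σ := by
      rintro rfl
      exact h (Finset.erase_insert hv.2).symm
    rw [Pi.single_eq_of_ne e1, Pi.single_eq_of_ne h]
    simp

theorem bdL_triangle {i j k : ι} (hij : i < j) (hjk : j < k) :
    bdL (Pi.single ({i, j, k} : Finset ι) 1) =
      Pi.single {i, j} 1 + Pi.single {j, k} 1 - Pi.single {i, k} 1 := by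
  have hik := hij.trans hjk
  rw [bdL_single]
  have hi : i ∉ ({j, k} : Finset ι) := by simp [hij.ne, hik.ne]
  have hj : j ∉ ({k} : Finset ι) := by simp [hjk.ne]
  rw [Finset.sum_insert hi, Finset.sum_insert hj, Finset.sum_singleton]
  have f1 : ({i, j, k} : Finset ι).filter (· < i) = ∅ := by
    ext u; simp only [Finset.mem_filter, Finset.mem_insert, Finset.mem_singleton,
      Finset.notMem_empty, iff_false, not_and, not_lt]
    rintro (rfl | rfl | rfl)
    · exact le_rfl
    · exact hij.le
    · exact hik.le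
  have f2 : ({i, j, k} : Finset ι).filter (· < j) = {i} := by
    ext u; simp only [Finset.mem_filter, Finset.mem_insert, Finset.mem_singleton]
    constructor
    · rintro ⟨rfl | rfl | rfl, h⟩
      · rfl
      · exact absurd h (lt_irrefl _)
      · exact absurd h (not_lt.2 hjk.le)
    · rintro rfl; exact ⟨Or.inl rfl, hij⟩
  have f3 : ({i, j, k} : Finset ι).filter (· < k) = {i, j} := by
    ext u; simp only [Finset.mem_filter, Finset.mem_insert, Finset.mem_singleton]
    constructor
    · rintro ⟨rfl | rfl | rfl, h⟩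
      · exact Or.inl rfl
      · exact Or.inr rfl
      · exact absurd h (lt_irrefl _)
    · rintro (rfl | rfl)
      · exact ⟨Or.inl rfl, hik⟩
      · exact ⟨Or.inr (Or.inl rfl), hjk⟩
  have e1 : ({i, j, k} : Finset ι).erase i = {j, k} := Finset.erase_insert hi
  have e2 : ({i, j, k} : Finset ι).erase j = {i, k} := by
    ext u; simp only [Finset.mem_erase, Finset.mem_insert, Finset.mem_singleton]
    constructor
    · rintro ⟨h, rfl | rfl | rfl⟩
      · exact Or.inl rfl
      · exact absurd rfl h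
      · exact Or.inr rfl
    · rintro (rfl | rfl)
      · exact ⟨hij.ne, Or.inl rfl⟩
      · exact ⟨hjk.ne', Or.inr (Or.inr rfl)⟩
  have e3 : ({i, j, k} : Finset ι).erase k = {i, j} := by
    ext u; simp only [Finset.mem_erase, Finset.mem_insert, Finset.mem_singleton]
    constructor
    · rintro ⟨h, rfl | rfl | rfl⟩
      · exact Or.inl rfl
      · exact Or.inr rfl
      · exact absurd rfl h
    · rintro (rfl | rfl)
      · exact ⟨hik.ne, Or.inl rfl⟩
      · exact ⟨hjk.ne, Or.inr (Or.inl rfl)⟩
  rw [f1, f2, f3, e1, e2, e3, Finset.card_empty, Finset.card_singleton,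
    Finset.card_pair hij.ne]
  simp only [pow_zero, pow_one, one_smul, neg_smul, even_two, Even.neg_pow, one_pow]
  abel

end Pool.Agent.EG11
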