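import Mathlib

/-! Potentials on groups given by involutive generators and commutation relations. -/

namespace Pool.Agent.EG11

/-- `gen : S → W` is a family of generators of `W`, subject only to `s ^ 2 = 1` and to the
commutation relations given by `adj` (as far as maps to groups in `Type` are concerned). -/
structure RAC {S W : Type} [Group W] (gen : S → W) (adj : S → S → Prop) : Prop where
  sq : ∀ s, gen s * gen s = 1
  comm : ∀ s s', adj s s' → gen s * gen s' = gen s' * gen s
  closure : Subgroup.closure (Set.range gen) = ⊤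
  lift : ∀ (G : Type) [Group G] (f : S → G), (∀ s, f s * f s = 1) →
    (∀ s s', adj s s' → f s * f s' = f s' * f s) → ∃ φ : W →* G, ∀ s, φ (gen s) = f s

section Pot

variable {S W A : Type} [Group W] [Group A] {gen : S → W} {adj : S → S → Prop}

theorem pot (R : RAC gen adj) (J : Set S) (h : W → S → A)
    (h1 : ∀ w, ∀ s ∈ J, h w s * h (w * gen s) s = 1)
    (h2 : ∀ w, ∀ s ∈ J, ∀ s' ∈ J, adj s s' →
      h w s * h (w * gen s) s' = h w s' * h (w * gen s') s) :
    ∃ F : W → A, ∀ w, ∀ s ∈ J, F (w * gen s) = F w * h w s := by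
  classical
  have cancel : ∀ (w : W) s, w * gen s * gen s = w := fun w s => by
    rw [mul_assoc, R.sq, mul_one]
  let σ : S → Equiv.Perm (W × A) := fun s =>
    if hs : s ∈ J then
      { toFun := fun q => (q.1 * gen s, q.2 * h q.1 s)
        invFun := fun q => (q.1 * gen s, q.2 * h q.1 s)
        left_inv := fun q => by
          ext
          · exact cancel _ _
          · show q.2 * h q.1 s * h (q.1 * gen s) s = q.2
            rw [mul_assoc, h1 _ s hs, mul_one]
        right_inv := fun q => by
          ext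
          · exact cancel _ _
          · show q.2 * h q.1 s * h (q.1 * gen s) s = q.2
            rw [mul_assoc, h1 _ s hs, mul_one] }
    else 1
  have hσ : ∀ s ∈ J, ∀ q, σ s q = (q.1 * gen s, q.2 * h q.1 s) := by
    intro s hs q
    simp only [σ, dif_pos hs]
    rfl
  have hσ' : ∀ s, s ∉ J → σ s = 1 := by
    intro s hs
    simp only [σ, dif_neg hs]
  obtain ⟨φ, hφ⟩ := R.lift (Equiv.Perm (W × A)) σ (by
    intro s
    by_cases hs : s ∈ J
    · ext q
      · rw [Equiv.Perm.mul_apply, hσ s hs, hσ s hs]; exact cancel _ _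
      · rw [Equiv.Perm.mul_apply, hσ s hs, hσ s hs]
        show q.2 * h q.1 s * h (q.1 * gen s) s = q.2
        rw [mul_assoc, h1 _ s hs, mul_one]
    · rw [hσ' s hs, mul_one]) (by
    intro s s' hadj
    by_cases hs : s ∈ J
    · by_cases hs' : s' ∈ J
      · ext q
        · rw [Equiv.Perm.mul_apply, Equiv.Perm.mul_apply, hσ s hs, hσ s' hs', hσ s hs, hσ s' hs']
          show q.1 * gen s' * gen s = q.1 * gen s * gen s'
          rw [mul_assoc, mul_assoc, R.comm s s' hadj]
        · rw [Equiv.Perm.mul_apply, Equiv.Perm.mul_apply, hσ s hs, hσ s' hs', hσ s hs, hσ s' hs']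
          show q.2 * h q.1 s' * h (q.1 * gen s') s = q.2 * h q.1 s * h (q.1 * gen s) s'
          rw [mul_assoc, mul_assoc, h2 _ s hs s' hs' hadj]
      · rw [hσ' s' hs', mul_one, one_mul]
    · rw [hσ' s hs, mul_one, one_mul])
  -- the subgroup generated by `J`
  let H : Subgroup W := Subgroup.closure (gen '' J)
  have key : ∀ u ∈ H, ∀ q : W × A, (φ u⁻¹ q).1 = q.1 * u := by
    intro u hu
    induction hu using Subgroup.closure_induction with
    | mem x hx =>
      obtain ⟨s, hs, rfl⟩ := hx
      intro q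
      have : (gen s)⁻¹ = gen s := inv_eq_of_mul_eq_one_left (R.sq s)
      rw [this, hφ, hσ s hs]
    | one => intro q; simp
    | mul x y _ _ hx hy =>
      intro q
      rw [mul_inv_rev, map_mul, Equiv.Perm.mul_apply, hy, hx, mul_assoc]
    | inv x _ hx =>
      intro q
      have := hx (φ x q)
      rw [← Equiv.Perm.mul_apply, ← map_mul, inv_mul_cancel, map_one, Equiv.Perm.one_apply] at this
      rw [inv_inv, this, mul_assoc, mul_inv_cancel, mul_one]
  let rep : W → W := fun w => (Quotient.out (QuotientGroup.mk w : W ⧸ H))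
  have hrep : ∀ w, (rep w)⁻¹ * w ∈ H := fun w => by
    have : (QuotientGroup.mk (rep w) : W ⧸ H) = QuotientGroup.mk w := Quotient.out_eq _
    exact QuotientGroup.eq.1 this
  have hrep' : ∀ w, ∀ s ∈ J, rep (w * gen s) = rep w := by
    intro w s hs
    have : (QuotientGroup.mk (w * gen s) : W ⧸ H) = QuotientGroup.mk w := by
      apply Eq.symm
      rw [QuotientGroup.eq]
      have : w⁻¹ * (w * gen s) = gen s := by group
      rw [this]
      exact Subgroup.subset_closure ⟨s, hs, rfl⟩
    simp only [rep, this]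
  refine ⟨fun w => (φ ((rep w)⁻¹ * w)⁻¹ (rep w, 1)).2, ?_⟩
  intro w s hs
  show (φ ((rep (w * gen s))⁻¹ * (w * gen s))⁻¹ (rep (w * gen s), 1)).2
    = (φ ((rep w)⁻¹ * w)⁻¹ (rep w, 1)).2 * h w s
  rw [hrep' w s hs]
  have e1 : ((rep w)⁻¹ * (w * gen s))⁻¹ = gen s * ((rep w)⁻¹ * w)⁻¹ := by
    have : (gen s)⁻¹ = gen s := inv_eq_of_mul_eq_one_left (R.sq s)
    rw [← mul_assoc, mul_inv_rev, this]
  rw [e1, map_mul, Equiv.Perm.mul_apply, hφ, hσ s hs]
  have e2 := key _ (hrep w) (rep w, 1)
  have e3 : (rep w) * ((rep w)⁻¹ * w) = w := by group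
  simp only [e3] at e2
  rw [e2]

end Pot

end Pool.Agent.EG11
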