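import Pool.Agent.EG11.Act

/-! Construction of the data from a dihedral quotient. -/

namespace Pool.Agent.EG11

open DihedralGroup

/-- two distinct reflections generate a dihedral group of prime order `ℓ` -/
theorem closure_two {ℓ : ℕ} [Fact ℓ.Prime] {a b : ZMod ℓ} (hab : a ≠ b) :
    Submonoid.closure ({sr a, sr b} : Set (DihedralGroup ℓ)) = ⊤ := by
  rw [eq_top_iff]
  rintro g -
  have ha : (sr a : DihedralGroup ℓ) ∈ Submonoid.closure ({sr a, sr b} : Set (DihedralGroup ℓ)) :=
    Submonoid.subset_closure (by simp)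
  have hb : (sr b : DihedralGroup ℓ) ∈ Submonoid.closure ({sr a, sr b} : Set (DihedralGroup ℓ)) :=
    Submonoid.subset_closure (by simp)
  have hr : ∀ d : ZMod ℓ, (r d : DihedralGroup ℓ) ∈
      Submonoid.closure ({sr a, sr b} : Set (DihedralGroup ℓ)) := by
    intro d
    have h1 : (sr a * sr b : DihedralGroup ℓ) ^ (d / (b - a)).val = r d := by
      rw [sr_mul_sr, r_pow]
      congr 1
      rw [ZMod.natCast_val, ZMod.cast_id', id, mul_div_cancel₀]
      exact sub_ne_zero.2 hab.symm
    rw [← h1]
    exact Submonoid.pow_mem _ (Submonoid.mul_mem _ ha hb) _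
  cases g with
  | r d => exact hr d
  | sr c =>
    have : (sr c : DihedralGroup ℓ) = sr a * r (c - a) := by
      rw [sr_mul_r]; congr 1; ring
    rw [this]
    exact Submonoid.mul_mem _ ha (hr _)

/-- distance function to a target, in the Cayley graph with respect to two generators -/
theorem rank_exists {D : Type} [Group D] [Finite D] {x y : D}
    (h : Submonoid.closure ({x, y} : Set D) = ⊤) (g : D) :
    ∃ (rk : D → ℕ) (par : D → Bool), ∀ d, d ≠ g →
      rk (d * (if par d then x else y)) < rk d := by
  classical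
  let R : D → ℕ → Prop := fun d n => ∃ l : List D, l.length = n ∧ (∀ a ∈ l, a = x ∨ a = y) ∧
    d * l.prod = g
  have hR : ∀ d, ∃ n, R d n := by
    intro d
    have : d⁻¹ * g ∈ Submonoid.closure ({x, y} : Set D) := by rw [h]; trivial
    obtain ⟨l, hl, hp⟩ := Submonoid.exists_list_of_mem_closure this
    exact ⟨l.length, l, rfl, fun a ha => by simpa using hl a ha, by rw [hp]; group⟩
  let rk : D → ℕ := fun d => Nat.find (hR d)
  have hmin : ∀ d n, R d n → rk d ≤ n := fun d n hn => Nat.find_min' (hR d) hn
  have hstep : ∀ d, d ≠ g → ∃ b : Bool, rk (d * (if b then x else y)) < rk d := by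
    intro d hd
    obtain ⟨l, hl, hl', hp⟩ : R d (rk d) := Nat.find_spec (hR d)
    cases l with
    | nil => exact absurd (by simpa using hp) hd
    | cons a l =>
      have h1 : R (d * a) l.length :=
        ⟨l, rfl, fun c hc => hl' c (List.mem_cons_of_mem _ hc), by
          rw [mul_assoc]; simpa using hp⟩
      have h2 := hmin _ _ h1
      rw [List.length_cons] at hl
      rcases hl' a List.mem_cons_self with rfl | rfl
      · exact ⟨true, by simp only [if_true]; omega⟩
      · exact ⟨false, by simp only [Bool.false_eq_true, if_false]; omega⟩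
  choose! par hpar using hstep
  exact ⟨rk, par, hpar⟩

section Main

variable {P E T W : Type} [Group W]

/-- The main result in terms of the combinatorial data. -/
theorem main_cx [Finite P] [Finite E] [Fintype T] [DecidableEq T] (X : Cx P E T)
    {gen : P ⊕ E ⊕ T → W}
    (R : RAC gen X.adj) (B : E → T → ℤ)
    (hB : ∀ τ τ', B (X.x τ) τ' + B (X.y τ) τ' = B (X.z τ) τ' + if τ = τ' then 1 else 0) :
    ∃ Γ₀ : Subgroup W, Γ₀.Normal ∧ Γ₀.FiniteIndex ∧ HasFiniteTwoDimClassifyingSpace Γ₀ := by
  classical
  obtain ⟨ℓ, hle, hℓ⟩ := Nat.exists_infinite_primes (Nat.card E + Nat.card T)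
  have : Fact ℓ.Prime := ⟨hℓ⟩
  have := Fintype.ofFinite E
  obtain ⟨i⟩ : Nonempty (E ↪ ZMod ℓ) := Function.Embedding.nonempty_of_card_le (by
    rw [ZMod.card, ← Nat.card_eq_fintype_card]; omega)
  obtain ⟨j⟩ : Nonempty (T ↪ ZMod ℓ) := Function.Embedding.nonempty_of_card_le (by
    rw [ZMod.card, ← Nat.card_eq_fintype_card]; omega)
  -- the homomorphisms
  obtain ⟨π, hπ⟩ := R.lift (DihedralGroup ℓ) (fun s => match s with
    | Sum.inl _ => 1
    | Sum.inr (Sum.inl e) => sr (i e)
    | Sum.inr (Sum.inr _) => 1) (by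
      rintro (p | e | τ)
      · exact mul_one _
      · simp
      · exact mul_one _) (by
      rintro (p | e | τ) (p' | e' | τ') h <;> simp [Cx.adj] at h ⊢)
  obtain ⟨χ0, hχ0⟩ := R.lift ℤˣ (fun s => match s with
    | Sum.inl _ => -1
    | Sum.inr _ => 1) (by
      rintro (p | e)
      · simp
      · exact mul_one _) (by
      rintro s s' h
      exact mul_comm _ _)
  obtain ⟨χ2, hχ2⟩ := R.lift ℤˣ (fun s => match s with
    | Sum.inl _ => 1
    | Sum.inr (Sum.inl _) => 1
    | Sum.inr (Sum.inr _) => -1) (by
      rintro (p | e | τ)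
      · exact mul_one _
      · exact mul_one _
      · simp) (by
      rintro s s' h
      exact mul_comm _ _)
  have πp : ∀ p, π (gp gen p) = 1 := fun p => hπ (Sum.inl p)
  have πe : ∀ e, π (ge gen e) = sr (i e) := fun e => hπ (Sum.inr (Sum.inl e))
  have πt : ∀ τ, π (gt gen τ) = 1 := fun τ => hπ (Sum.inr (Sum.inr τ))
  have χ0p : ∀ p, χ0 (gp gen p) = -1 := fun p => hχ0 (Sum.inl p)
  have χ0e : ∀ e, χ0 (ge gen e) = 1 := fun e => hχ0 (Sum.inr (Sum.inl e))
  have χ0t : ∀ τ, χ0 (gt gen τ) = 1 := fun τ => hχ0 (Sum.inr (Sum.inr τ))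
  have χ2p : ∀ p, χ2 (gp gen p) = 1 := fun p => hχ2 (Sum.inl p)
  have χ2e : ∀ e, χ2 (ge gen e) = 1 := fun e => hχ2 (Sum.inr (Sum.inl e))
  have χ2t : ∀ τ, χ2 (gt gen τ) = -1 := fun τ => hχ2 (Sum.inr (Sum.inr τ))
  -- rank functions
  have hrk := fun τ : T => rank_exists (D := DihedralGroup ℓ)
    (closure_two (a := i (X.x τ)) (b := i (X.y τ)) (fun h => X.xy τ (i.injective h))) (r (j τ))
  choose rk par hpar using hrk
  obtain ⟨bd, hbd⟩ : ∃ bd, ∀ q : T × DihedralGroup ℓ, rk q.1 q.2 ≤ bd := by
    obtain ⟨bd, h⟩ := (Set.finite_range (fun q : T × DihedralGroup ℓ => rk q.1 q.2)).bddAbove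
    exact ⟨bd, fun q => h ⟨q, rfl⟩⟩
  have flip : ∀ (χ : W →* ℤˣ) (w g : W), χ g = -1 →
      decide (χ (w * g) = -1) = !decide (χ w = -1) := by
    intro χ w g h
    rw [map_mul, h]
    rcases Int.units_eq_one_or (χ w) with h' | h' <;> rw [h'] <;> decide
  have keep : ∀ (χ : W →* ℤˣ) (w g : W), χ g = 1 →
      decide (χ (w * g) = -1) = decide (χ w = -1) := by
    intro χ w g h
    rw [map_mul, h, mul_one]
  let ev : DihedralGroup ℓ → Bool := fun d => match d with
    | r _ => true
    | sr _ => false
  let bw : E → W → ℤ := fun e w => ∑ τ', if π w = r (j τ') then B e τ' else 0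
  have hbw : ∀ τ w, bw (X.x τ) w + bw (X.y τ) w = bw (X.z τ) w +
      if π w = r (j τ) then 1 else 0 := by
    intro τ w
    simp only [bw]
    rw [← Finset.sum_add_distrib]
    have : ∀ τ', ((if π w = r (j τ') then B (X.x τ) τ' else 0) +
        (if π w = r (j τ') then B (X.y τ) τ' else 0)) =
        (if π w = r (j τ') then B (X.z τ) τ' else 0) +
        (if τ = τ' then (if π w = r (j τ') then (1 : ℤ) else 0) else 0) := by
      intro τ'
      have := hB τ τ'
      split_ifs at this ⊢ <;> omega
    rw [Finset.sum_congr rfl (fun τ' _ => this τ'), Finset.sum_add_distrib, Finset.sum_ite_eq]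
    simp
  let Φ : Frs X (ge gen) :=
    { ev := fun w => ev (π w)
      ev_e := by
        intro w e
        show ev (π (w * ge gen e)) = !ev (π w)
        rw [map_mul, πe]
        cases π w <;> rfl
      root := fun τ w => π w = r (j τ)
      root_ev := by
        intro τ w h
        show ev (π w) = true
        rw [h]
      rk := fun τ w => rk τ (π w)
      bd := bd
      rk_le := fun τ w => hbd (τ, π w)
      par := fun τ w => if par τ (π w) then X.x τ else X.y τ
      par_mem := by
        intro τ w _
        show X.et (if par τ (π w) then X.x τ else X.y τ) τ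
        split_ifs
        · exact X.et_x τ
        · exact X.et_y τ
      par_lt := by
        intro τ w h
        show rk τ (π (w * ge gen (if par τ (π w) then X.x τ else X.y τ))) < rk τ (π w)
        have := hpar τ (π w) h
        rw [map_mul, πe]
        cases hc : par τ (π w) <;> rw [hc] at this <;> simpa using this
      bw := bw
      bw_root := by
        intro τ w h
        rw [hbw, if_pos h]
      bw_not := by
        intro τ w h
        rw [hbw, if_neg h, add_zero] }
  let S : Setup P E T W :=
    { X := X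
      gen := gen
      R := R
      Φ := Φ
      hru := by
        intro τ τ' w h h'
        have h1 : π w = r (j τ) := h
        have h2 : π w = r (j τ') := h'
        rw [h1] at h2
        exact j.injective (by injection h2)
      c0 := fun w => decide (χ0 w = -1)
      c2 := fun w => decide (χ2 w = -1)
      c0p := fun w p => flip χ0 w _ (χ0p p)
      c0e := fun w e => keep χ0 w _ (χ0e e)
      c0t := fun w τ => keep χ0 w _ (χ0t τ)
      c2p := fun w p => keep χ2 w _ (χ2p p)
      c2e := fun w e => keep χ2 w _ (χ2e e)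
      c2t := fun w τ => flip χ2 w _ (χ2t τ)
      evp := by
        intro w p
        show ev (π (w * gp gen p)) = ev (π w)
        rw [map_mul, πp, mul_one]
      evt := by
        intro w τ
        show ev (π (w * gt gen τ)) = ev (π w)
        rw [map_mul, πt, mul_one] }
  let θ : W →* DihedralGroup ℓ × ℤˣ × ℤˣ := π.prod (χ0.prod χ2)
  have hθ : ∀ g ∈ θ.ker, π g = 1 ∧ χ0 g = 1 ∧ χ2 g = 1 := by
    intro g hg
    rw [MonoidHom.mem_ker] at hg
    have h : (π g, χ0 g, χ2 g) = (1, 1, 1) := hg
    simpa using h
  have C : S.Compat θ.ker :=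
    { c0 := by
        intro g hg w
        show decide (χ0 (g * w) = -1) = decide (χ0 w = -1)
        rw [map_mul, (hθ g hg).2.1, one_mul]
      c2 := by
        intro g hg w
        show decide (χ2 (g * w) = -1) = decide (χ2 w = -1)
        rw [map_mul, (hθ g hg).2.2, one_mul]
      ev := by
        intro g hg w
        show ev (π (g * w)) = ev (π w)
        rw [map_mul, (hθ g hg).1, one_mul]
      root := by
        intro g hg τ w
        show π (g * w) = r (j τ) ↔ π w = r (j τ)
        rw [map_mul, (hθ g hg).1, one_mul]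
      par := by
        intro g hg τ w
        show (if par τ (π (g * w)) then X.x τ else X.y τ) = if par τ (π w) then X.x τ else X.y τ
        rw [map_mul, (hθ g hg).1, one_mul]
      bw := by
        intro g hg e w
        show (∑ τ', if π (g * w) = r (j τ') then B e τ' else 0) =
          ∑ τ', if π w = r (j τ') then B e τ' else 0
        rw [map_mul, (hθ g hg).1, one_mul] }
  refine ⟨θ.ker, inferInstance, ?_, S.classifying θ C⟩
  exact Subgroup.finiteIndex_ker θ

end Main

end Pool.Agent.EG11
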