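import Pool.Agent.EG11.Homol
import Pool.Agent.EG11.Quot

/-! The combinatorial data of a 2-dimensional simplicial complex. -/

namespace Pool.Agent.EG11

variable {ι : Type} [Fintype ι] [LinearOrder ι] (K : AbstractSimplicialComplex ι)

/-- edges -/
abbrev EdK : Type := {q : ι × ι // q.1 < q.2 ∧ ({q.1, q.2} : Finset ι) ∈ K}
/-- triangles -/
abbrev TrK : Type := {q : ι × ι × ι // q.1 < q.2.1 ∧ q.2.1 < q.2.2 ∧
  ({q.1, q.2.1, q.2.2} : Finset ι) ∈ K}

/-- the edges and triangles of `K` -/
def cxK : Cx ι (EdK K) (TrK K) where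
  s e := e.1.1
  t e := e.1.2
  a τ := τ.1.1
  b τ := τ.1.2.1
  c τ := τ.1.2.2
  x τ := ⟨(τ.1.1, τ.1.2.1), τ.2.1, mem_of_subset τ.2.2.2
    (by intro u; simp only [Finset.mem_insert, Finset.mem_singleton]; tauto) ⟨_, Finset.mem_insert_self _ _⟩⟩
  y τ := ⟨(τ.1.2.1, τ.1.2.2), τ.2.2.1, mem_of_subset τ.2.2.2
    (by intro u; simp only [Finset.mem_insert, Finset.mem_singleton]; tauto) ⟨_, Finset.mem_insert_self _ _⟩⟩
  z τ := ⟨(τ.1.1, τ.1.2.2), τ.2.1.trans τ.2.2.1, mem_of_subset τ.2.2.2
    (by intro u; simp only [Finset.mem_insert, Finset.mem_singleton]; tauto) ⟨_, Finset.mem_insert_self _ _⟩⟩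
  sx _ := rfl
  tx _ := rfl
  sy _ := rfl
  ty _ := rfl
  sz _ := rfl
  tz _ := rfl
  xy τ h := τ.2.1.ne (congrArg (fun e : EdK K => e.1.1) h)
  xz τ h := τ.2.2.1.ne (congrArg (fun e : EdK K => e.1.2) h)
  yz τ h := τ.2.1.ne' (congrArg (fun e : EdK K => e.1.1) h)
  ab τ := τ.2.1.ne
  ac τ := (τ.2.1.trans τ.2.2.1).ne
  bc τ := τ.2.2.1.ne
  st e := e.2.1.ne

/-- the simplices -/
def smp : ι ⊕ EdK K ⊕ TrK K → K
  | Sum.inl p => ⟨{p}, K.singleton_mem p⟩
  | Sum.inr (Sum.inl e) => ⟨{e.1.1, e.1.2}, e.2.2⟩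
  | Sum.inr (Sum.inr τ) => ⟨{τ.1.1, τ.1.2.1, τ.1.2.2}, τ.2.2.2⟩

variable {K}

theorem card_smp0 (p : ι) : (smp K (Sum.inl p) : Finset ι).card = 1 := Finset.card_singleton p

theorem card_smp1 (e : EdK K) : (smp K (Sum.inr (Sum.inl e)) : Finset ι).card = 2 :=
  Finset.card_pair e.2.1.ne

theorem card_smp2 (τ : TrK K) : (smp K (Sum.inr (Sum.inr τ)) : Finset ι).card = 3 :=
  Finset.card_eq_three.2 ⟨_, _, _, τ.2.1.ne, (τ.2.1.trans τ.2.2.1).ne, τ.2.2.1.ne, rfl⟩

theorem smp_injective : Function.Injective (smp K) := by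
  intro s s' h
  have hc := congrArg (fun σ : K => (σ : Finset ι).card) h
  have hm : ∀ u, u ∈ (smp K s : Finset ι) ↔ u ∈ (smp K s' : Finset ι) := fun u => by rw [h]
  rcases s with p | e | τ <;> rcases s' with p' | e' | τ' <;>
    simp only [card_smp0, card_smp1, card_smp2] at hc
  · have := (hm p).1 (Finset.mem_singleton_self p)
    rw [show p = p' from Finset.mem_singleton.1 this]
  · exact absurd hc (by decide)
  · exact absurd hc (by decide)
  · exact absurd hc (by decide)
  · obtain ⟨⟨i, j⟩, hij, he⟩ := e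
    obtain ⟨⟨i', j'⟩, hij', he'⟩ := e'
    simp only [smp, Finset.mem_insert, Finset.mem_singleton] at hm hij hij'
    have a1 := (hm i).1 (Or.inl rfl)
    have a2 := (hm j).1 (Or.inr rfl)
    have b1 := (hm i').2 (Or.inl rfl)
    have b2 := (hm j').2 (Or.inr rfl)
    have : i = i' ∧ j = j' := by
      rcases a1 with rfl | rfl <;> rcases a2 with rfl | rfl
      · exact absurd hij (lt_irrefl _)
      · exact ⟨rfl, rfl⟩
      · exact absurd (hij.trans hij') (lt_irrefl _)
      · exact absurd hij (lt_irrefl _)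
    obtain ⟨rfl, rfl⟩ := this
    rfl
  · exact absurd hc (by decide)
  · exact absurd hc (by decide)
  · exact absurd hc (by decide)
  · obtain ⟨⟨i, j, k⟩, hij, hjk, he⟩ := τ
    obtain ⟨⟨i', j', k'⟩, hij', hjk', he'⟩ := τ'
    simp only [smp, Finset.mem_insert, Finset.mem_singleton] at hm hij hij' hjk hjk'
    have a1 := (hm i).1 (Or.inl rfl)
    have a2 := (hm j).1 (Or.inr (Or.inl rfl))
    have a3 := (hm k).1 (Or.inr (Or.inr rfl))
    have b1 := (hm i').2 (Or.inl rfl)
    have b2 := (hm j').2 (Or.inr (Or.inl rfl))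
    have b3 := (hm k').2 (Or.inr (Or.inr rfl))
    have hik := hij.trans hjk
    have hik' := hij'.trans hjk'
    have e1 : i = i' := by
      rcases a1 with h | h | h
      · exact h
      · subst h
        rcases b1 with h | h | h
        · exact h.symm
        · subst h; exact absurd (hij.trans hij') (lt_irrefl _)
        · subst h; exact absurd (hik.trans hij') (lt_irrefl _)
      · subst h
        rcases b1 with h | h | h
        · exact h.symm
        · subst h; exact absurd (hij.trans hik') (lt_irrefl _)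
        · subst h; exact absurd (hik.trans hik') (lt_irrefl _)
    have e3 : k = k' := by
      rcases a3 with h | h | h
      · subst h
        rcases b3 with h | h | h
        · subst h; exact absurd (hik.trans hik') (lt_irrefl _)
        · subst h; exact absurd (hik'.trans hjk) (lt_irrefl _)
        · exact h.symm
      · subst h
        rcases b3 with h | h | h
        · subst h; exact absurd (hjk'.trans hik) (lt_irrefl _)
        · subst h; exact absurd (hjk'.trans hjk) (lt_irrefl _)
        · exact h.symm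
      · exact h
    have e2 : j = j' := by
      rcases a2 with h | h | h
      · rw [e1, h] at hij; exact absurd hij (lt_irrefl _)
      · exact h
      · rw [e3, h] at hjk; exact absurd hjk (lt_irrefl _)
    subst e1; subst e2; subst e3
    rfl

theorem smp_surjective (hdim : ∀ σ ∈ K, σ.card ≤ 3) : Function.Surjective (smp K) := by
  rintro ⟨σ, hσ⟩
  have hne : σ.Nonempty := (K.isRelLowerSet_faces hσ).1
  have h3 := hdim σ hσ
  have h1 : 1 ≤ σ.card := hne.card_pos
  have hc : σ.card = 1 ∨ σ.card = 2 ∨ σ.card = 3 := by omega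
  rcases hc with hc | hc | hc
  · obtain ⟨p, rfl⟩ := Finset.card_eq_one.1 hc
    exact ⟨Sum.inl p, rfl⟩
  · obtain ⟨i, j, hij, rfl⟩ := Finset.card_eq_two.1 hc
    rcases lt_or_gt_of_ne hij with h | h
    · exact ⟨Sum.inr (Sum.inl ⟨(i, j), h, hσ⟩), rfl⟩
    · refine ⟨Sum.inr (Sum.inl ⟨(j, i), h, ?_⟩), ?_⟩
      · rw [Finset.pair_comm]; exact hσ
      · exact Subtype.ext (Finset.pair_comm _ _)
  · -- sort the three elements
    have key : ∀ i j k : ι, i < j → j < k → σ = {i, j, k} →
        ∃ s, smp K s = ⟨σ, hσ⟩ := by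
      intro i j k h h' e
      subst e
      exact ⟨Sum.inr (Sum.inr ⟨(i, j, k), h, h', hσ⟩), rfl⟩
    obtain ⟨i, j, k, hij, hik, hjk, e⟩ := Finset.card_eq_three.1 hc
    rcases lt_or_gt_of_ne hij with h1 | h1 <;> rcases lt_or_gt_of_ne hik with h2 | h2 <;>
      rcases lt_or_gt_of_ne hjk with h3 | h3
    · exact key i j k h1 h3 e
    · exact key i k j h2 h3 (by rw [e, Finset.pair_comm j k])
    · exact absurd (h1.trans (h3.trans h2)) (lt_irrefl _)
    · exact key k i j h2 h1 (by
        rw [e]; ext u; simp only [Finset.mem_insert, Finset.mem_singleton]; tauto)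
    · exact key j i k h1 h2 (by
        rw [e]; ext u; simp only [Finset.mem_insert, Finset.mem_singleton]; tauto)
    · exact absurd (h1.trans (h2.trans h3)) (lt_irrefl _)
    · exact key j k i h3 h2 (by
        rw [e]; ext u; simp only [Finset.mem_insert, Finset.mem_singleton]; tauto)
    · exact key k j i h3 h1 (by
        rw [e]; ext u; simp only [Finset.mem_insert, Finset.mem_singleton]; tauto)

theorem smp_ssubset {s s' : ι ⊕ EdK K ⊕ TrK K} (h : (smp K s : Finset ι) ⊂ smp K s') :
    (cxK K).adj s s' := by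
  have hc := Finset.card_lt_card h
  have hm : ∀ u, u ∈ (smp K s : Finset ι) → u ∈ (smp K s' : Finset ι) := fun u hu => h.1 hu
  rcases s with p | e | τ <;> rcases s' with p' | e' | τ' <;>
    simp only [card_smp0, card_smp1, card_smp2] at hc
  · exact absurd hc (by decide)
  · have := hm p (Finset.mem_singleton_self p)
    simpa [smp, Cx.adj, Cx.pe, cxK] using this
  · have := hm p (Finset.mem_singleton_self p)
    simpa [smp, Cx.adj, Cx.pt, cxK] using this
  · exact absurd hc (by decide)
  · exact absurd hc (by decide)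
  · obtain ⟨⟨i, j⟩, hij, he⟩ := e
    obtain ⟨⟨i', j', k'⟩, hij', hjk', he'⟩ := τ'
    simp only [smp, Finset.mem_insert, Finset.mem_singleton] at hm hij hij' hjk'
    have a1 := hm i (Or.inl rfl)
    have a2 := hm j (Or.inr rfl)
    have hik' := hij'.trans hjk'
    show (cxK K).et _ _
    unfold Cx.et cxK
    simp only [Subtype.mk.injEq, Prod.mk.injEq]
    rcases a1 with rfl | rfl | rfl <;> rcases a2 with rfl | rfl | rfl
    · exact absurd hij (lt_irrefl _)
    · exact Or.inl ⟨rfl, rfl⟩
    · exact Or.inr (Or.inr ⟨rfl, rfl⟩)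
    · exact absurd (hij.trans hij') (lt_irrefl _)
    · exact absurd hij (lt_irrefl _)
    · exact Or.inr (Or.inl ⟨rfl, rfl⟩)
    · exact absurd (hij.trans hik') (lt_irrefl _)
    · exact absurd (hij.trans hjk') (lt_irrefl _)
    · exact absurd hij (lt_irrefl _)
  · exact absurd hc (by decide)
  · exact absurd hc (by decide)
  · exact absurd hc (by decide)

theorem adj_symm {P E T : Type} (X : Cx P E T) {s s' : P ⊕ E ⊕ T} (h : X.adj s s') :
    X.adj s' s := by
  rcases s with p | e | τ <;> rcases s' with p' | e' | τ' <;> exact h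

theorem smp_adj {s s' : ι ⊕ EdK K ⊕ TrK K} (h : (cxK K).adj s s') :
    (smp K s : Finset ι) ⊂ smp K s' ∨ (smp K s' : Finset ι) ⊂ smp K s := by
  -- it is enough to prove inclusion
  have lt : ∀ {σ τ : Finset ι}, σ ⊆ τ → σ.card < τ.card → σ ⊂ τ := fun h h' =>
    Finset.ssubset_iff_subset_ne.2 ⟨h, fun e => by rw [e] at h'; exact absurd h' (lt_irrefl _)⟩
  have pe : ∀ (p : ι) (e : EdK K), (cxK K).pe p e →
      (smp K (Sum.inl p) : Finset ι) ⊂ smp K (Sum.inr (Sum.inl e)) := by
    intro p e h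
    refine lt (fun u hu => ?_) (by rw [card_smp0, card_smp1]; decide)
    rw [show u = p from Finset.mem_singleton.1 hu]
    simpa [smp, Cx.adj, Cx.pe, cxK] using h
  have pt : ∀ (p : ι) (τ : TrK K), (cxK K).pt p τ →
      (smp K (Sum.inl p) : Finset ι) ⊂ smp K (Sum.inr (Sum.inr τ)) := by
    intro p e h
    refine lt (fun u hu => ?_) (by rw [card_smp0, card_smp2]; decide)
    rw [show u = p from Finset.mem_singleton.1 hu]
    simpa [smp, Cx.adj, Cx.pt, cxK] using h
  have et : ∀ (e : EdK K) (τ : TrK K), (cxK K).et e τ →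
      (smp K (Sum.inr (Sum.inl e)) : Finset ι) ⊂ smp K (Sum.inr (Sum.inr τ)) := by
    intro e τ h
    refine lt (fun u hu => ?_) (by rw [card_smp1, card_smp2]; decide)
    rcases h with rfl | rfl | rfl
    all_goals
      simp only [smp, cxK, Finset.mem_insert, Finset.mem_singleton] at hu ⊢
      tauto
  rcases s with p | e | τ <;> rcases s' with p' | e' | τ'
  · exact h.elim
  · exact Or.inl (pe _ _ h)
  · exact Or.inl (pt _ _ h)
  · exact Or.inr (pe _ _ h)
  · exact h.elim
  · exact Or.inl (et _ _ h)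
  · exact Or.inr (pt _ _ h)
  · exact Or.inr (et _ _ h)
  · exact h.elim

theorem coxeter_apply (σ τ : K) : (coxeterMatrix K).M σ τ = if σ = τ then 1 else
    if (σ : Finset ι) ⊂ τ ∨ (τ : Finset ι) ⊂ σ then 2 else 0 := rfl

/-- The Coxeter group of `K` in terms of the data. -/
theorem rac (hdim : ∀ σ ∈ K, σ.card ≤ 3) :
    RAC (fun s => (coxeterMatrix K).simple (smp K s)) (cxK K).adj := by
  let cs := (coxeterMatrix K).toCoxeterSystem
  have hs : ∀ i, (coxeterMatrix K).simple i = cs.simple i := fun i => by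
    rw [CoxeterMatrix.toCoxeterSystem_simple]
  have bij : Function.Bijective (smp K) := ⟨smp_injective, smp_surjective hdim⟩
  let f := Equiv.ofBijective _ bij
  have hf : ∀ s, f.symm (smp K s) = s := fun s => f.symm_apply_apply s
  refine ⟨?_, ?_, ?_, ?_⟩
  · intro s
    show (coxeterMatrix K).simple (smp K s) * (coxeterMatrix K).simple (smp K s) = 1
    rw [hs, cs.simple_mul_simple_self]
  · intro s s' h
    show (coxeterMatrix K).simple (smp K s) * (coxeterMatrix K).simple (smp K s') =
      (coxeterMatrix K).simple (smp K s') * (coxeterMatrix K).simple (smp K s)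
    rw [hs, hs]
    have hn : smp K s ≠ smp K s' := by
      intro e
      rcases smp_adj h with h' | h'
      · rw [e] at h'; exact absurd h' (ssubset_irrefl _)
      · rw [e] at h'; exact absurd h' (ssubset_irrefl _)
    have h2 : (coxeterMatrix K).M (smp K s) (smp K s') = 2 := by
      rw [coxeter_apply, if_neg hn, if_pos (smp_adj h)]
    have h3 := cs.simple_mul_simple_pow (smp K s) (smp K s')
    have h4 : (cs.simple (smp K s) * cs.simple (smp K s')) ^ 2 = 1 := by
      have : (coxeterMatrix K) (smp K s) (smp K s') = 2 := h2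
      rw [this] at h3
      exact h3
    rw [pow_two] at h4
    have h5 := eq_inv_of_mul_eq_one_left h4
    rw [mul_inv_rev, cs.inv_simple, cs.inv_simple] at h5
    exact h5
  · have : Set.range (fun s => (coxeterMatrix K).simple (smp K s)) = Set.range cs.simple := by
      ext w
      constructor
      · rintro ⟨s, rfl⟩
        exact ⟨smp K s, (hs _).symm⟩
      · rintro ⟨σ, rfl⟩
        obtain ⟨s, rfl⟩ := smp_surjective hdim σ
        exact ⟨s, hs _⟩
    rw [this]
    exact cs.subgroup_closure_range_simple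
  · intro G _ g h1 h2
    have hl : (coxeterMatrix K).IsLiftable (fun σ => g (f.symm σ)) := by
      intro σ σ'
      obtain ⟨s, rfl⟩ := smp_surjective hdim σ
      obtain ⟨s', rfl⟩ := smp_surjective hdim σ'
      show (g (f.symm (smp K s)) * g (f.symm (smp K s'))) ^
        ((coxeterMatrix K).M (smp K s) (smp K s')) = 1
      rw [hf, hf, coxeter_apply]
      split_ifs with ha hb
      · rw [smp_injective ha, pow_one, h1]
      · have hc : g s * g s' = g s' * g s := by
          rcases hb with hb | hb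
          · exact h2 _ _ (smp_ssubset hb)
          · exact (h2 _ _ (smp_ssubset hb)).symm
        rw [pow_two, mul_assoc, ← mul_assoc (g s') (g s) (g s'), ← hc, mul_assoc, h1, mul_one, h1]
      · exact pow_zero _
    refine ⟨cs.lift ⟨_, hl⟩, fun s => ?_⟩
    show cs.lift ⟨_, hl⟩ ((coxeterMatrix K).simple (smp K s)) = g s
    rw [hs, cs.lift_apply_simple]
    exact congrArg g (hf s)

theorem single_chain {σ : Finset ι} {n : ℕ} (h : σ ∈ K) (hn : σ.card = n) :
    (Pi.single σ 1 : Finset ι → ℤ) ∈ chainM K n := by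
  intro τ hτ
  have : τ = σ := by
    by_contra h'
    exact hτ (Pi.single_eq_of_ne h' _)
  subst this
  exact ⟨hn, Or.inr h⟩

/-- The main theorem for simplicial complexes. -/
theorem main_simp (hdim : ∀ σ ∈ K, σ.card ≤ 3) (hac : Acyclic K) :
    ∃ Γ₀ : Subgroup (coxeterMatrix K).Group, Γ₀.Normal ∧ Γ₀.FiniteIndex ∧
      HasFiniteTwoDimClassifyingSpace Γ₀ := by
  classical
  obtain ⟨L, hL⟩ := left_inverse hdim hac
  have := Fintype.ofFinite (TrK K)
  let se : EdK K → chainM K 2 := fun e =>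
    ⟨Pi.single {e.1.1, e.1.2} 1, single_chain e.2.2 (Finset.card_pair e.2.1.ne)⟩
  have ct : ∀ τ : TrK K, ({τ.1.1, τ.1.2.1, τ.1.2.2} : Finset ι).card = 3 := fun τ => card_smp2 τ
  let st : TrK K → chainM K 3 := fun τ =>
    ⟨Pi.single {τ.1.1, τ.1.2.1, τ.1.2.2} 1, single_chain τ.2.2.2 (ct τ)⟩
  refine main_cx (cxK K) (rac hdim)
    (fun e τ => (L (se e)).1 {τ.1.1, τ.1.2.1, τ.1.2.2}) ?_
  intro τ τ'
  have h1 : (⟨bdL (st τ).1, bdL_mem (st τ).2⟩ : chainM K 2) =
      se ((cxK K).x τ) + se ((cxK K).y τ) - se ((cxK K).z τ) :=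
    Subtype.ext (bdL_triangle τ.2.1 τ.2.2.1)
  have h2 := hL (st τ)
  rw [h1, map_sub, map_add] at h2
  have h3 := congrArg (fun c : chainM K 3 => c.1 {τ'.1.1, τ'.1.2.1, τ'.1.2.2}) h2
  have h4 : (st τ).1 {τ'.1.1, τ'.1.2.1, τ'.1.2.2} = if τ = τ' then 1 else 0 := by
    by_cases h : τ = τ'
    · subst h
      rw [if_pos rfl]
      exact Pi.single_eq_same _ _
    · rw [if_neg h]
      refine Pi.single_eq_of_ne (fun e => h ?_) _
      have : smp K (Sum.inr (Sum.inr τ')) = smp K (Sum.inr (Sum.inr τ)) := Subtype.ext e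
      have := smp_injective this
      simpa using this.symm
  have h5 : (L (se ((cxK K).x τ))).1 {τ'.1.1, τ'.1.2.1, τ'.1.2.2} +
      (L (se ((cxK K).y τ))).1 {τ'.1.1, τ'.1.2.1, τ'.1.2.2} -
      (L (se ((cxK K).z τ))).1 {τ'.1.1, τ'.1.2.1, τ'.1.2.2} =
      (st τ).1 {τ'.1.1, τ'.1.2.1, τ'.1.2.2} := h3
  rw [h4] at h5
  linarith

end Pool.Agent.EG11
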